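import Pool.Agent.H55.NEU.Psl4

/-! The prime two in odd characteristic, and the final statement on `PSL(2, q)`. -/

set_option autoImplicit false
set_option linter.unusedVariables false

namespace Pool.Agent.H55.NEU

open Subgroup Matrix
open scoped Pointwise

theorem num2 (x : ℤ) (hx : Odd x) (k : ℕ) : (2 : ℤ) ^ (k + 3) ∣ x ^ 2 ^ (k + 1) - 1 := by
  induction k with
  | zero =>
    obtain ⟨m, rfl⟩ := hx
    obtain ⟨n, hn⟩ := Int.even_mul_succ_self m
    refine ⟨n, ?_⟩
    have h1 : (2 * m + 1) ^ 2 ^ (0 + 1) - 1 = 4 * (m * (m + 1)) := by ring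
    rw [h1, hn]
    ring
  | succ k ih =>
    have h1 : x ^ 2 ^ (k + 1 + 1) - 1 = (x ^ 2 ^ (k + 1) - 1) * (x ^ 2 ^ (k + 1) + 1) := by
      rw [pow_succ 2 (k + 1), pow_mul]
      ring
    have h2 : (2 : ℤ) ∣ x ^ 2 ^ (k + 1) + 1 := by
      have h3 : Odd (x ^ 2 ^ (k + 1)) := hx.pow
      exact (h3.add_one).two_dvd
    rw [h1, show k + 1 + 3 = (k + 3) + 1 by omega, pow_succ]
    exact mul_dvd_mul ih h2

theorem klein_pgroup {L : Type*} [Group L] (a b : L) (ha : a * a = 1) (hb : b * b = 1)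
    (hab : a * b = b * a) : IsPGroup 2 (zpowers a ⊔ zpowers b : Subgroup L) := by
  have hz : ∀ g : L, g * g = 1 → IsPGroup 2 (zpowers g) := by
    intro g hg
    rintro ⟨y, hy⟩
    obtain ⟨k, rfl⟩ := mem_zpowers_iff.1 hy
    refine ⟨1, Subtype.ext ?_⟩
    change (g ^ k) ^ 2 ^ 1 = 1
    rw [← zpow_natCast, ← _root_.zpow_mul, mul_comm, _root_.zpow_mul]
    have : g ^ (((2 ^ 1 : ℕ) : ℤ)) = 1 := by
      rw [zpow_natCast, pow_one, pow_two, hg]
    rw [this, _root_.one_zpow]
  apply (hz a ha).to_sup_of_normal_right' (hz b hb)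
  rw [zpowers_le]
  apply mem_normalizer_iff.2
  intro x
  have key : ∀ y ∈ zpowers b, a * y * a⁻¹ = y := by
    intro y hy
    obtain ⟨k, rfl⟩ := mem_zpowers_iff.1 hy
    have hc : Commute a b := hab
    have := (hc.zpow_right k).eq
    rw [this, mul_inv_cancel_right]
  constructor
  · intro hx
    rw [key x hx]
    exact hx
  · intro hx
    have h1 := key _ hx
    have h2 : a * x * a⁻¹ = x := by
      calc a * x * a⁻¹ = a * (a * x * a⁻¹) * a⁻¹ := h1.symm
        _ = (a * a) * x * (a * a)⁻¹ := by group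
        _ = x := by rw [ha]; group
    rwa [h2] at hx

section

variable {F : Type*} [Field F]

theorem inv_eq (N : SL2 F) : N⁻¹ = mk2 (N 1 1) (-(N 0 1)) (-(N 1 0)) (N 0 0)
    (by linear_combination sl_det N) := by
  rw [inv_eq_iff_mul_eq_one]
  have hd := sl_det N
  apply sl_ext
  · rw [mul_00]
    change N 0 0 * N 1 1 + N 0 1 * -(N 1 0) = 1
    linear_combination hd
  · rw [mul_01]
    change N 0 0 * -(N 0 1) + N 0 1 * N 0 0 = 0
    ring
  · rw [mul_10]
    change N 1 0 * N 1 1 + N 1 1 * -(N 1 0) = 0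
    ring
  · rw [mul_11]
    change N 1 0 * -(N 0 1) + N 1 1 * N 0 0 = 1
    linear_combination hd

/-- a semilinear diagonal automorphism without field part followed by a conjugation which fixes
the quaternion units is trivial -/
theorem quat_rigid (h2 : (2 : F) ≠ 0) {a b : F} (hab : a * a + b * b = -1) (c : Fˣ) (N : SL2 F)
    (hi : N * EE c 1 (mk2 0 1 (-1) 0 (by ring)) * N⁻¹ = mk2 0 1 (-1) 0 (by ring))
    (hj : N * EE c 1 (mk2 a b b (-a) (by linear_combination -hab)) * N⁻¹ =
      mk2 a b b (-a) (by linear_combination -hab)) (M : SL2 F) :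
    N * EE c 1 M * N⁻¹ = M := by
  have hcc : (c : F) * ((c⁻¹ : Fˣ) : F) = 1 := Units.mul_inv c
  have hdet := sl_det N
  have hi' := mul_inv_eq_iff_eq_mul.1 hi
  have hj' := mul_inv_eq_iff_eq_mul.1 hj
  have i00 := congrArg (fun C : SL2 F => C 0 0) hi'
  have i01 := congrArg (fun C : SL2 F => C 0 1) hi'
  have j00 := congrArg (fun C : SL2 F => C 0 0) hj'
  have j01 := congrArg (fun C : SL2 F => C 0 1) hj'
  simp only [mul_00, mul_01] at i00 i01 j00 j01
  change N 0 0 * 0 + N 0 1 * (((c⁻¹ : Fˣ) : F) * -1) = 0 * N 0 0 + 1 * N 1 0 at i00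
  change N 0 0 * ((c : F) * 1) + N 0 1 * 0 = 0 * N 0 1 + 1 * N 1 1 at i01
  change N 0 0 * a + N 0 1 * (((c⁻¹ : Fˣ) : F) * b) = a * N 0 0 + b * N 1 0 at j00
  change N 0 0 * ((c : F) * b) + N 0 1 * -a = a * N 0 1 + b * N 1 1 at j01
  have e1 : b * N 0 1 = 0 := by
    have h3 : 2 * (b * N 0 1) = 0 := by
      linear_combination (c : F) * j00 - (c : F) * b * i00 - 2 * b * N 0 1 * hcc
    exact (mul_eq_zero.1 h3).resolve_left h2
  have e2 : a * N 0 1 = 0 := by
    have h3 : 2 * (a * N 0 1) = 0 := by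
      linear_combination -j01 + b * i01
    exact (mul_eq_zero.1 h3).resolve_left h2
  have e3 : N 0 1 = 0 := by
    have h3 : -(N 0 1) = 0 := by
      linear_combination a * e2 + b * e1 - (N 0 1) * hab
    exact neg_eq_zero.1 h3
  have e4 : N 1 0 = 0 := by
    rw [e3] at i00
    linear_combination -i00
  have e5 : N 1 1 = (c : F) * N 0 0 := by linear_combination -i01 - e3 * 0
  rw [e3, e4, e5] at hdet
  apply sl_ext
  · rw [mul_00, mul_00, mul_01, inv_eq N]
    change (N 0 0 * M 0 0 + N 0 1 * (((c⁻¹ : Fˣ) : F) * M 1 0)) * N 1 1 +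
      (N 0 0 * ((c : F) * M 0 1) + N 0 1 * M 1 1) * -(N 1 0) = M 0 0
    rw [e3, e4, e5]
    linear_combination M 0 0 * hdet
  · rw [mul_01, mul_00, mul_01, inv_eq N]
    change (N 0 0 * M 0 0 + N 0 1 * (((c⁻¹ : Fˣ) : F) * M 1 0)) * -(N 0 1) +
      (N 0 0 * ((c : F) * M 0 1) + N 0 1 * M 1 1) * N 0 0 = M 0 1
    rw [e3]
    linear_combination M 0 1 * hdet
  · rw [mul_10, mul_10, mul_11, inv_eq N]
    change (N 1 0 * M 0 0 + N 1 1 * (((c⁻¹ : Fˣ) : F) * M 1 0)) * N 1 1 +
      (N 1 0 * ((c : F) * M 0 1) + N 1 1 * M 1 1) * -(N 1 0) = M 1 0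
    rw [e4, e5]
    linear_combination M 1 0 * hdet + (c : F) * N 0 0 * N 0 0 * M 1 0 * hcc
  · rw [mul_11, mul_10, mul_11, inv_eq N]
    change (N 1 0 * M 0 0 + N 1 1 * (((c⁻¹ : Fˣ) : F) * M 1 0)) * -(N 0 1) +
      (N 1 0 * ((c : F) * M 0 1) + N 1 1 * M 1 1) * N 0 0 = M 1 1
    rw [e3, e4, e5]
    linear_combination M 1 1 * hdet

end

section

variable {F : Type*} [Field F] [Finite F]

theorem exists_sum_sq (h2 : (2 : F) ≠ 0) : ∃ a b : F, a * a + b * b = -1 := by
  have : Fintype F := Fintype.ofFinite F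
  have hc : ringChar F ≠ 2 := by
    intro h0
    apply h2
    have h3 := ringChar.Nat.cast_ringChar (R := F)
    rw [h0] at h3
    exact_mod_cast h3
  have hodd : Fintype.card F % 2 = 1 := FiniteField.odd_card_of_char_ne_two hc
  obtain ⟨a, b, hab⟩ := FiniteField.exists_root_sum_quadratic
    (f := (Polynomial.X ^ 2 + Polynomial.C 1 : Polynomial F)) (g := Polynomial.X ^ 2)
    (Polynomial.degree_X_pow_add_C (by norm_num) _) (Polynomial.degree_X_pow 2) hodd
  refine ⟨a, b, ?_⟩
  simp only [Polynomial.eval_add, Polynomial.eval_pow, Polynomial.eval_X,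
    Polynomial.eval_C] at hab
  linear_combination hab

theorem center_le_two : Nat.card (center (SL2 F)) ≤ 2 := by
  classical
  have : Fintype F := Fintype.ofFinite F
  have key : ∀ z : center (SL2 F), ∃ r : F, r * r = 1 ∧ (z : SL2 F) = Matrix.scalar (Fin 2) r ∧
      (z : SL2 F) 0 0 = r := by
    intro z
    obtain ⟨r, hr, hr'⟩ := Matrix.SpecialLinearGroup.mem_center_iff.1 z.2
    rw [Fintype.card_fin, pow_two] at hr
    refine ⟨r, hr, hr'.symm, ?_⟩
    have h1 := congrFun (congrFun hr' 0) 0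
    rw [← h1]
    simp
  let j : center (SL2 F) → ({1, -1} : Finset F) := fun z => ⟨(z : SL2 F) 0 0, by
    obtain ⟨r, hr, -, h1⟩ := key z
    rw [Finset.mem_insert, Finset.mem_singleton, h1]
    exact sq_one hr⟩
  have hj : Function.Injective j := by
    intro z w h
    obtain ⟨r, -, hz, hz'⟩ := key z
    obtain ⟨s, -, hw, hw'⟩ := key w
    have h1 : (z : SL2 F) 0 0 = (w : SL2 F) 0 0 := congrArg Subtype.val h
    apply Subtype.ext
    apply Subtype.ext
    rw [hz, hw, ← hz', ← hw', h1]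
  have h1 := Nat.card_le_card_of_injective j hj
  have h2 : Nat.card ({1, -1} : Finset F) ≤ 2 := by
    rw [Nat.card_eq_fintype_card, Fintype.card_coe]
    exact Finset.card_le_two
  exact h1.trans h2

/-- the two-part of the order for a group of field automorphisms of order `2 ^ k` -/
theorem two_part {r f : ℕ} [hr : Fact r.Prime] [CharP F r] (hr2 : r ≠ 2)
    (G : Subgroup (F ≃+* F)) {k : ℕ} (hk : Nat.card G = 2 ^ k) :
    2 ^ (k + 3) ∣ Nat.card F ^ 2 - 1 := by
  classical
  let G' : Subgroup (RingAut F) := G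
  have hk' : Nat.card G' = 2 ^ k := hk
  have hfinA : Finite (RingAut F) :=
    Finite.of_injective (fun ψ : RingAut F => (fun x => ψ x)) (fun a b h => by
      ext x; exact congrFun h x)
  have : Fintype G' := Fintype.ofFinite G'
  let F0 := FixedPoints.subfield G' F
  have hfr : Module.finrank F0 F = Fintype.card G' := FixedPoints.finrank_eq_card G' F
  have : Fintype F := Fintype.ofFinite F
  have : Fintype F0 := Fintype.ofFinite F0
  have hcard : Nat.card F = Nat.card F0 ^ 2 ^ k := by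
    rw [Nat.card_eq_fintype_card, Nat.card_eq_fintype_card, Module.card_eq_pow_finrank (K := F0),
      hfr, ← hk', Nat.card_eq_fintype_card]
  have hodd : Odd (Nat.card F) := by
    have hc : ringChar F ≠ 2 := by
      rw [ringChar.eq F r]
      exact hr2
    have h3 : Fintype.card F % 2 = 1 := FiniteField.odd_card_of_char_ne_two hc
    rw [Nat.card_eq_fintype_card]
    exact Nat.odd_iff.2 h3
  have hodd0 : Odd (Nat.card F0) := by
    rcases Nat.even_or_odd (Nat.card F0) with h | h
    · exfalso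
      have h3 : Even (Nat.card F) := by
        rw [hcard]
        exact h.pow_of_ne_zero (by positivity)
      exact (Nat.not_even_iff_odd.2 hodd) h3
    · exact h
  have h3 := num2 (Nat.card F0 : ℤ) (by exact_mod_cast hodd0) k
  have h4 : ((Nat.card F0 : ℤ)) ^ 2 ^ (k + 1) = (Nat.card F : ℤ) ^ 2 := by
    rw [hcard, Nat.cast_pow, ← pow_mul, pow_succ]
  rw [h4] at h3
  have h5 : ((Nat.card F ^ 2 - 1 : ℕ) : ℤ) = (Nat.card F : ℤ) ^ 2 - 1 := by
    rw [Nat.cast_sub (Nat.one_le_pow _ _ Nat.card_pos)]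
    push_cast
    rfl
  rw [← h5] at h3
  exact_mod_cast h3

theorem aux_conj {G : Type*} [Group G] (E1 E2 : MulAut G) (z n m : G) :
    MulAut.conj z⁻¹ * (E1 * MulAut.conj n⁻¹ * (MulAut.conj m * E2)) * MulAut.conj z =
      MulAut.conj (z⁻¹ * E1 (n⁻¹ * m) * (E1 * E2) z) * (E1 * E2) := by
  ext g
  change z⁻¹ * E1 (n⁻¹ * (m * E2 (z * g * z⁻¹) * m⁻¹) * n⁻¹⁻¹) * z⁻¹⁻¹ =
    (z⁻¹ * E1 (n⁻¹ * m) * E1 (E2 z)) * E1 (E2 g) * (z⁻¹ * E1 (n⁻¹ * m) * E1 (E2 z))⁻¹
  simp only [map_mul, map_inv]
  group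

/-- The prime two in odd characteristic. -/
theorem centBound_two {r : ℕ} [hr : Fact r.Prime] [CharP F r] (hr2 : r ≠ 2) :
    CentBound 2 (PS F) := by
  classical
  have h2 : (2 : F) ≠ 0 := by
    intro h0
    have h3 : r ∣ 2 := (CharP.cast_eq_zero_iff F r 2).1 (by exact_mod_cast h0)
    exact hr2 ((Nat.prime_dvd_prime_iff_eq hr.out Nat.prime_two).1 h3)
  intro S X hX hfix
  obtain ⟨a, b, hab⟩ := exists_sum_sq h2
  let qi : SL2 F := mk2 0 1 (-1) 0 (by ring)
  let qj : SL2 F := mk2 a b b (-a) (by linear_combination -hab)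
  -- the Klein four-group
  have hneg : ∀ A B : SL2 F, (∀ i j, B i j = -1 * A i j) → pr A = pr B := by
    intro A B h
    rw [pr_eq_iff]
    exact ⟨-1, by ring, h⟩
  have hii : pr qi * pr qi = 1 := by
    rw [← map_mul, ← map_one pr, eq_comm]
    apply hneg
    intro i j
    have e : qi * qi = mk2 (-1) 0 0 (-1) (by ring) := by
      change mk2 _ _ _ _ _ * mk2 _ _ _ _ _ = _
      rw [mk2_mul]
      apply mk2_congr <;> ring
    rw [e]
    fin_cases i <;> fin_cases j
    · change (-1 : F) = -1 * 1; ring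
    · change (0 : F) = -1 * 0; ring
    · change (0 : F) = -1 * 0; ring
    · change (-1 : F) = -1 * 1; ring
  have hjj : pr qj * pr qj = 1 := by
    rw [← map_mul, ← map_one pr, eq_comm]
    apply hneg
    intro i j
    have e : qj * qj = mk2 (-1) 0 0 (-1) (by ring) := by
      change mk2 _ _ _ _ _ * mk2 _ _ _ _ _ = _
      rw [mk2_mul]
      apply mk2_congr
      · linear_combination hab
      · ring
      · ring
      · linear_combination hab
    rw [e]
    fin_cases i <;> fin_cases j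
    · change (-1 : F) = -1 * 1; ring
    · change (0 : F) = -1 * 0; ring
    · change (0 : F) = -1 * 0; ring
    · change (-1 : F) = -1 * 1; ring
  have hij : pr qi * pr qj = pr qj * pr qi := by
    rw [← map_mul, ← map_mul]
    apply hneg
    intro i j
    have e1 : qi * qj = mk2 b (-a) (-a) (-b) (by linear_combination -hab) := by
      change mk2 _ _ _ _ _ * mk2 _ _ _ _ _ = _
      rw [mk2_mul]
      apply mk2_congr <;> ring
    have e2 : qj * qi = mk2 (-b) a a b (by linear_combination -hab) := by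
      change mk2 _ _ _ _ _ * mk2 _ _ _ _ _ = _
      rw [mk2_mul]
      apply mk2_congr <;> ring
    rw [e1, e2]
    fin_cases i <;> fin_cases j
    · change -b = -1 * b; ring
    · change a = -1 * -a; ring
    · change a = -1 * -a; ring
    · change b = -1 * -b; ring
  obtain ⟨T, hT⟩ := (klein_pgroup (pr qi) (pr qj) hii hjj hij).exists_le_sylow
  obtain ⟨g, hg⟩ := MulAction.exists_smul_eq (PS F) T S
  obtain ⟨N0, rfl⟩ := pr_surj g
  have hmem : ∀ M : SL2 F, pr M ∈ (T : Subgroup (PS F)) →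
      pr (N0 * M * N0⁻¹) ∈ (S : Subgroup (PS F)) := by
    intro M hM
    rw [← hg, map_mul, map_mul, map_inv]
    exact ⟨pr M, hM, rfl⟩
  have hiT : pr qi ∈ (T : Subgroup (PS F)) :=
    hT ((le_sup_left : zpowers (pr qi) ≤ _) (mem_zpowers _))
  have hjT : pr qj ∈ (T : Subgroup (PS F)) :=
    hT ((le_sup_right : zpowers (pr qj) ≤ _) (mem_zpowers _))
  -- the homomorphism to the field automorphisms
  let Φ : X →* (F ≃+* F) := fld.comp X.subtype
  have hcX : Nat.card X = Nat.card Φ.range * Nat.card Φ.ker := by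
    rw [← index_ker, mul_comm]
    exact (Φ.ker.card_mul_index).symm
  have hfinA : Finite (F ≃+* F) :=
    Finite.of_injective (fun ψ : F ≃+* F => (fun x => ψ x)) (fun a b h => by
      ext x; exact congrFun h x)
  obtain ⟨k, hk⟩ := IsPGroup.iff_card.1 (hX.of_surjective Φ.rangeRestrict
    Φ.rangeRestrict_surjective)
  have h8 := two_part (f := 1) hr2 Φ.range hk
  -- lifts of the elements of the kernel
  have hlift : ∀ x : Φ.ker, ∃ (N : SL2 F) (c : Fˣ),
      ((x : X) : MulAut (PS F)) = MulAut.conj (pr N) * ee c 1 := by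
    intro x
    obtain ⟨g, c, hgc⟩ := fld_spec ((x : X) : MulAut (PS F))
    have h3 : fld ((x : X) : MulAut (PS F)) = 1 := x.2
    rw [h3] at hgc
    obtain ⟨N, rfl⟩ := pr_surj g
    exact ⟨N, c, hgc⟩
  choose N c hNc using hlift
  let til : Φ.ker → MulAut (SL2 F) := fun x => MulAut.conj (N x) * EE (c x) 1
  have htil : ∀ (x : Φ.ker) (M : SL2 F), pr (til x M) = ((x : X) : MulAut (PS F)) (pr M) := by
    intro x M
    rw [hNc x]
    change pr (N x * EE (c x) 1 M * (N x)⁻¹) = pr (N x) * pr (EE (c x) 1 M) * (pr (N x))⁻¹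
    rw [map_mul, map_mul, map_inv]
  let ci : SL2 F := N0 * qi * N0⁻¹
  let cj : SL2 F := N0 * qj * N0⁻¹
  have hsign : ∀ (x : Φ.ker) (M : SL2 F), pr M ∈ (S : Subgroup (PS F)) →
      til x M = M ∨ til x M = -M := by
    intro x M hM
    have h3 : pr M = pr (til x M) := by
      rw [htil]
      exact (hfix _ (x : X).2 _ hM).symm
    obtain ⟨s, hs, hs'⟩ := pr_eq_iff.1 h3
    rcases sq_one hs with h | h
    · left
      apply Matrix.SpecialLinearGroup.ext
      intro i j
      rw [hs', h, one_mul]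
    · right
      apply Matrix.SpecialLinearGroup.ext
      intro i j
      rw [hs', h, Matrix.SpecialLinearGroup.coe_neg, Matrix.neg_apply, neg_one_mul]
  have hdet : ∀ x y : Φ.ker, til x ci = til y ci → til x cj = til y cj → x = y := by
    intro x y h3 h4
    -- `til x ⁻¹ * til y` fixes `ci` and `cj`
    have h5 : ∃ (N1 : SL2 F) (c1 : Fˣ), MulAut.conj N0⁻¹ * ((til x)⁻¹ * til y) * MulAut.conj N0 =
        MulAut.conj N1 * EE c1 1 := by
      have e1 : (EE (c x) (1 : F ≃+* F))⁻¹ = EE (c x)⁻¹ 1 := by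
        rw [inv_eq_iff_mul_eq_one, EE_mul]
        have e2 : c x * Units.map ((1 : F ≃+* F) : F →* F) (c x)⁻¹ = 1 := by
          apply Units.ext
          exact Units.mul_inv (c x)
        rw [e2, mul_one, EE_one_one]
      refine ⟨N0⁻¹ * EE (c x)⁻¹ 1 ((N x)⁻¹ * N y) * (EE (c x)⁻¹ 1 * EE (c y) 1) N0,
        (c x)⁻¹ * c y, ?_⟩
      have e3 : EE ((c x)⁻¹ * c y) (1 : F ≃+* F) = EE (c x)⁻¹ 1 * EE (c y) 1 := by
        rw [EE_mul, mul_one]
        rfl
      change MulAut.conj N0⁻¹ * ((MulAut.conj (N x) * EE (c x) 1)⁻¹ *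
        (MulAut.conj (N y) * EE (c y) 1)) * MulAut.conj N0 = _
      rw [_root_.mul_inv_rev, e1, ← map_inv, e3]
      exact aux_conj _ _ _ _ _
    obtain ⟨N1, c1, h5⟩ := h5
    have h6 : ∀ q : SL2 F, til x (N0 * q * N0⁻¹) = til y (N0 * q * N0⁻¹) →
        N1 * EE c1 1 q * N1⁻¹ = q := by
      intro q hq
      have h7 : (MulAut.conj N1 * EE c1 1) q = q := by
        rw [← h5]
        change N0⁻¹ * ((til x)⁻¹ (til y (N0 * q * N0⁻¹))) * N0⁻¹⁻¹ = q
        rw [← hq, MulAut.inv_apply_self]
        group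
      exact h7
    have h7 : MulAut.conj N1 * EE c1 1 = 1 := by
      ext M : 1
      exact quat_rigid h2 hab c1 N1 (h6 qi h3) (h6 qj h4) M
    rw [h7] at h5
    have h9 : (til x)⁻¹ * til y = 1 := by
      have e1 : MulAut.conj N0⁻¹ * ((til x)⁻¹ * til y) = (MulAut.conj N0)⁻¹ :=
        eq_inv_of_mul_eq_one_left h5
      rw [map_inv] at e1
      exact mul_eq_left.1 e1
    have h10 : til x = til y := inv_mul_eq_one.1 h9
    apply Subtype.ext
    apply Subtype.ext
    ext z : 1
    obtain ⟨M, rfl⟩ := pr_surj z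
    rw [← htil, ← htil, h10]
  have hker : Nat.card Φ.ker ≤ 4 := by
    let ff : Φ.ker → Bool × Bool := fun x => (decide (til x ci = ci), decide (til x cj = cj))
    have hff : Function.Injective ff := by
      intro x y h
      have h3 : decide (til x ci = ci) = decide (til y ci = ci) := congrArg Prod.fst h
      have h4 : decide (til x cj = cj) = decide (til y cj = cj) := congrArg Prod.snd h
      have h3' : til x ci = ci ↔ til y ci = ci := decide_eq_decide.1 h3
      have h4' : til x cj = cj ↔ til y cj = cj := decide_eq_decide.1 h4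
      apply hdet
      · by_cases h5 : til x ci = ci
        · rw [h5, h3'.1 h5]
        · rw [(hsign x ci (hmem qi hiT)).resolve_left h5,
            (hsign y ci (hmem qi hiT)).resolve_left (fun h6 => h5 (h3'.2 h6))]
      · by_cases h5 : til x cj = cj
        · rw [h5, h4'.1 h5]
        · rw [(hsign x cj (hmem qj hjT)).resolve_left h5,
            (hsign y cj (hmem qj hjT)).resolve_left (fun h6 => h5 (h4'.2 h6))]
    have h3 := Nat.card_le_card_of_injective ff hff
    have h4 : Nat.card (Bool × Bool) = 4 := by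
      rw [Nat.card_eq_fintype_card]; rfl
    rwa [h4] at h3
  -- the order of the Sylow subgroup
  have hS : 2 ^ (k + 2) ∣ Nat.card (S : Subgroup (PS F)) := by
    apply S.pow_dvd_card_of_pow_dvd_card
    have h3 := card_PS (F := F)
    have h4 : Nat.card (center (SL2 F)) ∣ 2 := by
      have h5 := center_le_two (F := F)
      have h6 : 0 < Nat.card (center (SL2 F)) := Nat.card_pos
      interval_cases h7 : Nat.card (center (SL2 F))
      · exact one_dvd _
      · exact dvd_rfl
    have h5 : 2 ^ (k + 3) ∣ Nat.card (PS F) * 2 := by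
      refine (h8.trans (dvd_mul_left _ (Nat.card F))).trans ?_
      rw [← h3]
      exact mul_dvd_mul_left _ h4
    rw [show k + 3 = (k + 2) + 1 by omega, pow_succ] at h5
    exact Nat.dvd_of_mul_dvd_mul_right (by norm_num) h5
  have hS' : 2 ^ (k + 2) ≤ Nat.card (S : Subgroup (PS F)) := Nat.le_of_dvd Nat.card_pos hS
  calc Nat.card X = Nat.card Φ.range * Nat.card Φ.ker := hcX
    _ ≤ 2 ^ k * 4 := by
      rw [hk]
      exact Nat.mul_le_mul_left _ hker
    _ = 2 ^ (k + 2) := by rw [pow_add]; norm_num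
    _ ≤ _ := hS'

/-- **Projective special linear groups of degree two** satisfy the bound for all primes dividing
their order. -/
theorem centBound_psl {p : ℕ} [hp : Fact p.Prime] (hc : Subgroup.center (PS F) = ⊥)
    (hd : p ∣ Nat.card (PS F)) : CentBound p (PS F) := by
  have : Fintype F := Fintype.ofFinite F
  obtain ⟨r, hch, n, hr, hq⟩ := FiniteField.card' F
  have hrf : Fact r.Prime := ⟨hr⟩
  have hq' : Nat.card F = r ^ (n : ℕ) := by rw [Nat.card_eq_fintype_card]; exact hq
  by_cases hpr : p = r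
  · subst hpr
    exact centBound_char n.2 hq'
  · by_cases hp2 : p = 2
    · subst hp2
      exact centBound_two (r := r) (fun h => hpr h.symm)
    · apply centBound_odd hq' hp2 hpr hc
      have h1 : p ∣ Nat.card F * (Nat.card F ^ 2 - 1) := by
        rw [← card_PS]
        exact hd.mul_right _
      rcases (hp.out.dvd_mul).1 h1 with h2 | h2
      · exfalso
        rw [hq'] at h2
        exact hpr ((Nat.prime_dvd_prime_iff_eq hp.out hr).1 (hp.out.dvd_of_dvd_pow h2))
      · exact h2

end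

end Pool.Agent.H55.NEU
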