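import Pool.Agent.H55.NEU.Psl1

/-! Automorphisms of projective special linear groups of degree two over finite fields. -/

set_option autoImplicit false
set_option linter.unusedVariables false

namespace Pool.Agent.H55.NEU

open Subgroup Matrix

section

variable {F : Type*} [Field F]

/-- semilinear diagonal automorphisms -/
def EE (c : Fˣ) (φ : F ≃+* F) : MulAut (SL2 F) where
  toFun M := mk2 (φ (M 0 0)) (c * φ (M 0 1)) (((c⁻¹ : Fˣ) : F) * φ (M 1 0)) (φ (M 1 1)) (by
    have h1 := congrArg φ (sl_det M)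
    rw [map_sub, map_mul, map_mul, map_one] at h1
    have h2 : (c : F) * ((c⁻¹ : Fˣ) : F) = 1 := Units.mul_inv c
    linear_combination h1 - φ (M 0 1) * φ (M 1 0) * h2)
  invFun M := mk2 (φ.symm (M 0 0)) (φ.symm (((c⁻¹ : Fˣ) : F) * (M 0 1)))
    (φ.symm (c * (M 1 0))) (φ.symm (M 1 1)) (by
    have h2 : (c : F) * ((c⁻¹ : Fˣ) : F) = 1 := Units.mul_inv c
    rw [← map_mul, ← map_mul, ← map_sub]
    have h3 : M 0 0 * M 1 1 - ((c⁻¹ : Fˣ) : F) * M 0 1 * (c * M 1 0) = 1 := by
      linear_combination (sl_det M) - M 0 1 * M 1 0 * h2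
    rw [h3, map_one])
  left_inv M := by
    have h2 : ((c⁻¹ : Fˣ) : F) * (c : F) = 1 := Units.inv_mul c
    have h3 : (c : F) * ((c⁻¹ : Fˣ) : F) = 1 := Units.mul_inv c
    apply sl_ext
    · exact φ.symm_apply_apply _
    · change φ.symm (((c⁻¹ : Fˣ) : F) * (c * φ (M 0 1))) = _
      rw [← mul_assoc, h2, one_mul, φ.symm_apply_apply]
    · change φ.symm (c * (((c⁻¹ : Fˣ) : F) * φ (M 1 0))) = _
      rw [← mul_assoc, h3, one_mul, φ.symm_apply_apply]
    · exact φ.symm_apply_apply _
  right_inv M := by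
    have h2 : ((c⁻¹ : Fˣ) : F) * (c : F) = 1 := Units.inv_mul c
    have h3 : (c : F) * ((c⁻¹ : Fˣ) : F) = 1 := Units.mul_inv c
    apply sl_ext
    · exact φ.apply_symm_apply _
    · change c * φ (φ.symm (((c⁻¹ : Fˣ) : F) * M 0 1)) = _
      rw [φ.apply_symm_apply, ← mul_assoc, h3, one_mul]
    · change ((c⁻¹ : Fˣ) : F) * φ (φ.symm (c * M 1 0)) = _
      rw [φ.apply_symm_apply, ← mul_assoc, h2, one_mul]
    · exact φ.apply_symm_apply _
  map_mul' M N := by
    have h3 : (c : F) * ((c⁻¹ : Fˣ) : F) = 1 := Units.mul_inv c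
    rw [mk2_mul]
    apply mk2_congr
    · rw [mul_00, map_add, map_mul, map_mul]
      linear_combination (-(φ (M 0 1) * φ (N 1 0))) * h3
    · rw [mul_01, map_add, map_mul, map_mul]
      ring
    · rw [mul_10, map_add, map_mul, map_mul]
      ring
    · rw [mul_11, map_add, map_mul, map_mul]
      linear_combination (-(φ (M 1 0) * φ (N 0 1))) * h3

theorem EE_apply (c : Fˣ) (φ : F ≃+* F) (M : SL2 F) : EE c φ M =
    mk2 (φ (M 0 0)) (c * φ (M 0 1)) (((c⁻¹ : Fˣ) : F) * φ (M 1 0)) (φ (M 1 1))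
      (sl_det (EE c φ M)) := rfl

theorem EE_mul (c c' : Fˣ) (φ φ' : F ≃+* F) :
    EE c φ * EE c' φ' = EE (c * Units.map (φ : F →* F) c') (φ * φ') := by
  ext M : 1
  rw [MulAut.mul_apply]
  apply sl_ext
  · rfl
  · change c * φ (c' * φ' (M 0 1)) = c * φ c' * φ (φ' (M 0 1))
    rw [map_mul, mul_assoc]
  · change ((c⁻¹ : Fˣ) : F) * φ (((c'⁻¹ : Fˣ) : F) * φ' (M 1 0)) =
      (((c * Units.map (φ : F →* F) c')⁻¹ : Fˣ) : F) * φ (φ' (M 1 0))
    rw [map_mul, mul_inv, Units.val_mul, mul_assoc, ← map_inv]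
    rfl
  · rfl

theorem EE_one_one : EE (1 : Fˣ) (1 : F ≃+* F) = 1 := by
  ext M : 1
  apply sl_ext
  · rfl
  · change (1 : F) * M 0 1 = M 0 1
    rw [one_mul]
  · change (((1 : Fˣ)⁻¹ : Fˣ) : F) * M 1 0 = M 1 0
    rw [inv_one, Units.val_one, one_mul]
  · rfl

/-- the induced automorphism of the projective group -/
noncomputable def ee (c : Fˣ) (φ : F ≃+* F) : MulAut (PS F) :=
  Pool.Agent.H14.quotHom (center (SL2 F)) (EE c φ)

theorem ee_pr (c : Fˣ) (φ : F ≃+* F) (M : SL2 F) : ee c φ (pr M) = pr (EE c φ M) := rfl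

theorem ee_mul (c c' : Fˣ) (φ φ' : F ≃+* F) :
    ee c φ * ee c' φ' = ee (c * Units.map (φ : F →* F) c') (φ * φ') := by
  unfold ee
  rw [← map_mul, EE_mul]

theorem ee_one_one : ee (1 : Fˣ) (1 : F ≃+* F) = 1 := by
  unfold ee
  rw [EE_one_one, map_one]

/-- the trace -/
def tr (M : SL2 F) : F := M 0 0 + M 1 1

theorem tr_conj (g M : SL2 F) : tr (g * M * g⁻¹) = tr M := by
  have hd := sl_det g
  rw [eq_mk2 g, mk2_inv, eq_mk2 M, mk2_mul, mk2_mul]
  change _ + _ = M 0 0 + M 1 1
  simp only [mk2_00, mk2_01, mk2_10, mk2_11]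
  linear_combination (M 0 0 + M 1 1) * hd

theorem tr_EE (c : Fˣ) (φ : F ≃+* F) (M : SL2 F) : tr (EE c φ M) = φ (tr M) :=
  (map_add φ (M 0 0) (M 1 1)).symm

/-- traces of elements with the same image -/
theorem tr_pr {M N : SL2 F} (h : pr M = pr N) : ∃ r : F, r * r = 1 ∧ tr N = r * tr M := by
  obtain ⟨r, hr, h1⟩ := pr_eq_iff.1 h
  refine ⟨r, hr, ?_⟩
  change N 0 0 + N 1 1 = r * (M 0 0 + M 1 1)
  rw [h1, h1, mul_add]

theorem sq_one {r : F} (h : r * r = 1) : r = 1 ∨ r = -1 := by
  have h1 : (r - 1) * (r + 1) = 0 := by linear_combination h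
  rcases mul_eq_zero.1 h1 with h2 | h2
  · left; exact sub_eq_zero.1 h2
  · right; exact eq_neg_of_add_eq_zero_left h2

/-- an automorphism of a field which is the identity up to sign is the identity -/
theorem eq_one_of_sign (φ : F ≃+* F) (h : ∀ t : F, φ t = t ∨ φ t = -t) : φ = 1 := by
  ext t
  change φ t = t
  rcases h t with h1 | h1
  · exact h1
  · rcases h (1 + t) with h2 | h2
    · rw [map_add, map_one] at h2
      exact add_left_cancel h2
    · rw [map_add, map_one, h1] at h2
      have h3 : (2 : F) = 0 := by linear_combination h2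
      rw [h1]
      linear_combination (-t) * h3

/-- the field automorphism is determined -/
theorem field_unique (g : PS F) (c : Fˣ) (φ : F ≃+* F) (h : MulAut.conj g * ee c φ = 1) :
    φ = 1 := by
  apply eq_one_of_sign
  intro t
  obtain ⟨N, rfl⟩ := pr_surj g
  let M : SL2 F := mk2 t (-1) 1 0 (by ring)
  have h1 : (MulAut.conj (pr N) * ee c φ) (pr M) = pr M := by rw [h]; rfl
  have h2 : pr (N * EE c φ M * N⁻¹) = pr M := by
    rw [← h1, MulAut.mul_apply, ee_pr, MulAut.conj_apply, map_mul, map_mul, map_inv]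
  obtain ⟨r, hr, h3⟩ := tr_pr h2
  rw [tr_conj, tr_EE] at h3
  have h4 : tr M = t := by
    change t + 0 = t
    rw [add_zero]
  rw [h4] at h3
  rcases sq_one hr with h5 | h5
  · left; rw [h5, one_mul] at h3; exact h3.symm
  · right; rw [h5] at h3; linear_combination h3

theorem hh_conj_uu (t : Fˣ) (x : F) : hh t * uu x * (hh t)⁻¹ = uu (t * t * x) := by
  rw [conj_uu]
  unfold uu
  apply mk2_congr
  · change 1 - (t : F) * 0 * x = 1
    ring
  · rfl
  · change -(0 * 0 * x) = (0 : F)
    ring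
  · change 1 + (t : F) * 0 * x = 1
    ring

/-- An additive subgroup of a finite field containing the squares is everything. -/
theorem squares_span [Finite F] (K : AddSubgroup F) (h : ∀ x : F, x * x ∈ K) : K = ⊤ := by
  have : Fintype F := Fintype.ofFinite F
  rw [eq_top_iff]
  intro s _
  by_cases h2 : (2 : F) = 0
  · have hc : CharP F 2 := by
      have : CharP F (ringChar F) := inferInstance
      have h3 : ringChar F ∣ 2 := ringChar.dvd (by exact_mod_cast h2)
      have h4 : ringChar F ≠ 1 := CharP.ringChar_ne_one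
      have h5 : ringChar F = 2 := ((Nat.dvd_prime Nat.prime_two).1 h3).resolve_left h4
      rw [← h5]
      exact this
    obtain ⟨x, hx⟩ := FiniteField.isSquare_of_char_two (F := F) (ringChar.eq F 2) s
    rw [hx]
    exact h x
  · have e : s = ((s + 1) / 2) * ((s + 1) / 2) - ((s - 1) / 2) * ((s - 1) / 2) := by
      field_simp
      ring
    rw [e]
    exact K.sub_mem (h _) (h _)

end

section

variable {F : Type*} [Field F] [Finite F]

/-- the order of the special linear group -/
theorem card_SL2 : Nat.card (SL2 F) = Nat.card F * (Nat.card F ^ 2 - 1) := by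
  have : Fintype F := Fintype.ofFinite F
  classical
  have h1 : Nat.card (GL (Fin 2) F) = (Nat.card F ^ 2 - 1) * (Nat.card F ^ 2 - Nat.card F) := by
    have := Matrix.card_GL_field (𝔽 := F) (n := 2)
    rw [this, Fin.prod_univ_two, Nat.card_eq_fintype_card]
    simp
  let d : GL (Fin 2) F →* Fˣ := Matrix.GeneralLinearGroup.det
  have hd : Function.Surjective d := by
    intro c
    let A : Matrix (Fin 2) (Fin 2) F := !![(c : F), 0; 0, 1]
    have hA : A.det = c := by
      change (!![(c : F), 0; 0, 1]).det = c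
      rw [Matrix.det_fin_two_of]
      ring
    refine ⟨Matrix.GeneralLinearGroup.mkOfDetNeZero A (by rw [hA]; exact c.ne_zero), ?_⟩
    apply Units.ext
    exact hA
  let j : SL2 F →* GL (Fin 2) F := Matrix.SpecialLinearGroup.toGL
  have hj : Function.Injective j := Matrix.SpecialLinearGroup.toGL_injective
  have hker : d.ker = j.range := by
    ext A
    rw [MonoidHom.mem_ker]
    constructor
    · intro h
      have h2 : (A : Matrix (Fin 2) (Fin 2) F).det = 1 := congrArg Units.val h
      exact ⟨⟨A, h2⟩, Units.ext rfl⟩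
    · rintro ⟨M, rfl⟩
      apply Units.ext
      exact M.2
  have h2 : Nat.card (SL2 F) = Nat.card d.ker := by
    rw [hker]
    exact Nat.card_congr (MonoidHom.ofInjective hj).toEquiv
  have h3 : Nat.card d.ker * Nat.card Fˣ = Nat.card (GL (Fin 2) F) := by
    have h4 := d.ker.card_mul_index
    rwa [index_ker, MonoidHom.range_eq_top.2 hd, Subgroup.card_top] at h4
  have h4 : Nat.card Fˣ = Nat.card F - 1 := by
    rw [Nat.card_units]
  rw [← h2, h1, h4] at h3
  have hq : 1 < Nat.card F := Finite.one_lt_card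
  have h5 : 0 < Nat.card F - 1 := by omega
  apply Nat.eq_of_mul_eq_mul_right h5
  rw [h3]
  have h6 : Nat.card F ^ 2 - Nat.card F = Nat.card F * (Nat.card F - 1) := by
    rw [Nat.mul_sub, mul_one, pow_two]
  rw [h6]
  ring

theorem card_PS : Nat.card (PS F) * Nat.card (center (SL2 F)) =
    Nat.card F * (Nat.card F ^ 2 - 1) := by
  rw [← card_SL2, mul_comm]
  exact (center (SL2 F)).card_mul_index

theorem card_UU : Nat.card (UU F) = Nat.card F := by
  let e : F → UU F := fun x => ⟨pr (uu x), x, rfl⟩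
  have he : Function.Bijective e := by
    constructor
    · intro x y h
      exact pr_uu_inj (congrArg Subtype.val h)
    · rintro ⟨g, x, rfl⟩
      exact ⟨x, rfl⟩
  exact (Nat.card_congr (Equiv.ofBijective e he)).symm

theorem card_VV : Nat.card (VV F) = Nat.card F := by
  let e : F → VV F := fun x => ⟨pr (vv x), x, rfl⟩
  have he : Function.Bijective e := by
    constructor
    · intro x y h
      exact pr_vv_inj (congrArg Subtype.val h)
    · rintro ⟨g, x, rfl⟩
      exact ⟨x, rfl⟩
  exact (Nat.card_congr (Equiv.ofBijective e he)).symm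

/-- a subgroup of order `q` is a Sylow subgroup -/
theorem sylow_of_card {r : ℕ} [hr : Fact r.Prime] {f : ℕ} (hf : 0 < f)
    (hq : Nat.card F = r ^ f) (K : Subgroup (PS F)) (hK : Nat.card K = Nat.card F) :
    ∃ Q : Sylow r (PS F), (Q : Subgroup (PS F)) = K := by
  have h1 : IsPGroup r K := IsPGroup.of_card (hK.trans hq)
  have h2 : ¬ r ∣ K.index := by
    intro hd
    have h3 : K.index * Nat.card (center (SL2 F)) = Nat.card F ^ 2 - 1 := by
      have h4 : Nat.card K * K.index = Nat.card (PS F) := K.card_mul_index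
      have h5 := card_PS (F := F)
      rw [← h4, hK, mul_assoc] at h5
      exact Nat.eq_of_mul_eq_mul_left (Nat.card_pos) h5
    have h4 : r ∣ Nat.card F ^ 2 - 1 := by
      rw [← h3]
      exact hd.mul_right _
    have h5 : r ∣ Nat.card F ^ 2 := by
      rw [hq]
      exact dvd_pow (dvd_pow_self r hf.ne') (by norm_num)
    have h6 : 1 ≤ Nat.card F ^ 2 := Nat.one_le_pow _ _ Nat.card_pos
    have h7 : r ∣ 1 := by
      have := (Nat.dvd_sub h5 h4)
      rwa [Nat.sub_sub_self h6] at this
    exact hr.out.one_lt.ne' (Nat.dvd_one.1 h7)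
  exact ⟨IsPGroup.toSylow h1 h2, rfl⟩

/-- every automorphism can be adjusted so that it stabilizes both unipotent groups -/
theorem adjust {r : ℕ} [hr : Fact r.Prime] {f : ℕ} (hf : 0 < f) (hq : Nat.card F = r ^ f)
    (α : MulAut (PS F)) : ∃ g : PS F,
      (∀ x : F, (MulAut.conj g * α) (pr (uu x)) ∈ UU F) ∧
      (∀ y : F, (MulAut.conj g * α) (pr (vv y)) ∈ VV F) := by
  obtain ⟨U, hU⟩ := sylow_of_card hf hq (UU F) card_UU
  obtain ⟨V, hV⟩ := sylow_of_card hf hq (VV F) card_VV
  -- first step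
  obtain ⟨g1, hg1⟩ := MulAction.exists_smul_eq (PS F)
    (U.mapSurjective (f := α.toMonoidHom) α.surjective) U
  let β : MulAut (PS F) := MulAut.conj g1 * α
  have hβU : ∀ x : F, β (pr (uu x)) ∈ UU F := by
    intro x
    rw [← hU, ← hg1]
    exact ⟨α (pr (uu x)), ⟨pr (uu x), by rw [hU]; exact ⟨x, rfl⟩, rfl⟩, rfl⟩
  -- second step
  obtain ⟨g2, hg2⟩ := MulAction.exists_smul_eq (PS F) V
    (V.mapSurjective (f := β.toMonoidHom) β.surjective)
  have hβV : ∀ y : F, ∃ z : F, β (pr (vv y)) = g2 * pr (vv z) * g2⁻¹ := by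
    intro y
    have h1 : β (pr (vv y)) ∈ ((V.mapSurjective (f := β.toMonoidHom) β.surjective :
        Sylow r (PS F)) : Subgroup (PS F)) :=
      ⟨pr (vv y), by rw [hV]; exact ⟨y, rfl⟩, rfl⟩
    rw [← hg2] at h1
    obtain ⟨w, hw, hw'⟩ := h1
    have hw2 : w ∈ (V : Subgroup (PS F)) := hw
    rw [hV] at hw2
    obtain ⟨z, rfl⟩ := hw2
    exact ⟨z, hw'.symm⟩
  obtain ⟨M, rfl⟩ := pr_surj g2
  -- the lower right entry is nonzero
  have hd : M 1 1 ≠ 0 := by
    intro h0
    have h1 : ∀ y : F, β (pr (vv y)) ∈ UU F := by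
      intro y
      obtain ⟨z, hz⟩ := hβV y
      rw [hz, ← map_inv, ← map_mul, ← map_mul, conj_vv, pr_mem_UU]
      simp only [mk2_00, mk2_01, mk2_10, mk2_11, h0]
      constructor <;> ring
    -- `β` maps `UU` onto `UU`
    have h2 : (UU F).map β.toMonoidHom = UU F := by
      apply Subgroup.eq_of_le_of_card_ge
      · rintro _ ⟨_, ⟨x, rfl⟩, rfl⟩
        exact hβU x
      · rw [Nat.card_congr ((UU F).equivMapOfInjective _ β.injective).toEquiv.symm]
    have h3 := h1 1
    rw [← h2] at h3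
    obtain ⟨w, ⟨x, rfl⟩, hw⟩ := h3
    have h4 : pr (uu x) = pr (vv (1 : F)) := β.injective hw
    have h5 : pr (vv (1 : F)) ∈ UU F := ⟨x, h4⟩
    rw [pr_mem_UU] at h5
    exact one_ne_zero h5.1
  let u : SL2 F := uu (-(M 0 1 / M 1 1))
  refine ⟨pr u * g1, ?_, ?_⟩
  · intro x
    have e : (MulAut.conj (pr u * g1) * α) (pr (uu x)) = pr u * β (pr (uu x)) * (pr u)⁻¹ := by
      change (pr u * g1) * α (pr (uu x)) * (pr u * g1)⁻¹ =
        pr u * (g1 * α (pr (uu x)) * g1⁻¹) * (pr u)⁻¹
      group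
    rw [e]
    have hu : pr u ∈ UU F := ⟨_, rfl⟩
    exact (UU F).mul_mem ((UU F).mul_mem hu (hβU x)) ((UU F).inv_mem hu)
  · intro y
    obtain ⟨z, hz⟩ := hβV y
    have e : (MulAut.conj (pr u * g1) * α) (pr (vv y)) = pr u * β (pr (vv y)) * (pr u)⁻¹ := by
      change (pr u * g1) * α (pr (vv y)) * (pr u * g1)⁻¹ =
        pr u * (g1 * α (pr (vv y)) * g1⁻¹) * (pr u)⁻¹
      group
    rw [e, hz]
    have e2 : pr u * (pr M * pr (vv z) * (pr M)⁻¹) * (pr u)⁻¹ =
        pr ((u * M) * vv z * (u * M)⁻¹) := by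
      rw [map_mul, map_mul, map_inv, map_mul]
      group
    rw [e2, conj_vv, pr_mem_VV]
    have h01 : (u * M : SL2 F) 0 1 = 0 := by
      rw [mul_01]
      change 1 * M 0 1 + -(M 0 1 / M 1 1) * M 1 1 = 0
      field_simp
      ring
    simp only [mk2_00, mk2_01, mk2_10, mk2_11, h01]
    constructor <;> ring

/-- **Automorphisms of the projective special linear group of degree two.** -/
theorem aut_PS (α : MulAut (PS F)) : ∃ (g : PS F) (c : Fˣ) (φ : F ≃+* F),
    α = MulAut.conj g * ee c φ := by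
  have : Fintype F := Fintype.ofFinite F
  obtain ⟨r, hr, n, hn, hq⟩ : ∃ (r : ℕ) (_ : r.Prime) (n : ℕ), 0 < n ∧ Nat.card F = r ^ n := by
    obtain ⟨p, _, n, hp, hn⟩ := FiniteField.card' F
    exact ⟨p, hp, n, n.2, by rw [Nat.card_eq_fintype_card]; exact hn⟩
  have hrf : Fact r.Prime := ⟨hr⟩
  obtain ⟨g, hgU, hgV⟩ := adjust hn hq α
  let β : MulAut (PS F) := MulAut.conj g * α
  choose f hf using hgU
  have hf' : ∀ x, β (pr (uu x)) = pr (uu (f x)) := fun x => (hf x).symm
  have hadd : ∀ x y, f (x + y) = f x + f y := by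
    intro x y
    apply pr_uu_inj
    rw [← hf', ← uu_mul, ← uu_mul, map_mul, map_mul, map_mul, hf', hf']
  have hinj : Function.Injective f := by
    intro x y h
    have h1 : β (pr (uu x)) = β (pr (uu y)) := by rw [hf', hf', h]
    exact pr_uu_inj (β.injective h1)
  have h0 : f 0 = 0 := by
    have := hadd 0 0
    rw [add_zero] at this
    linear_combination -this
  have hne : ∀ x, x ≠ 0 → f x ≠ 0 := by
    intro x hx h
    exact hx (hinj (h.trans h0.symm))
  have hmul : ∀ t : F, ∃ s : F, ∀ x, f (t * t * x) = s * f x := by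
    intro t
    by_cases ht : t = 0
    · refine ⟨0, fun x => ?_⟩
      rw [ht, mul_zero, zero_mul, zero_mul, h0]
    · let t' : Fˣ := Units.mk0 t ht
      obtain ⟨N, hN⟩ := pr_surj (β (pr (hh t')))
      have h1 : ∀ x, pr (N * uu (f x) * N⁻¹) = pr (uu (f (t * t * x))) := by
        intro x
        have h2 : uu (t * t * x) = hh t' * uu x * (hh t')⁻¹ := (hh_conj_uu t' x).symm
        have e1 : pr (hh t' * uu x * (hh t')⁻¹) = pr (hh t') * pr (uu x) * (pr (hh t'))⁻¹ := by
          rw [map_mul, map_mul, map_inv]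
        have e2 : pr (N * uu (f x) * N⁻¹) = pr N * pr (uu (f x)) * (pr N)⁻¹ := by
          rw [map_mul, map_mul, map_inv]
        rw [← hf', h2, e1, e2, map_mul β, map_mul β, map_inv β, ← hN, hf']
      have h10 : N 1 0 = 0 := by
        have h2 : pr (N * uu (f 1) * N⁻¹) ∈ UU F := by
          rw [h1 1]
          exact ⟨_, rfl⟩
        rw [conj_uu, pr_mem_UU] at h2
        have h3 : -(N 1 0 * N 1 0 * f 1) = 0 := h2.1
        have h4 : N 1 0 * N 1 0 = 0 := by
          have := mul_eq_zero.1 (neg_eq_zero.1 h3)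
          exact this.resolve_right (hne 1 one_ne_zero)
        rcases mul_eq_zero.1 h4 with h | h <;> exact h
      refine ⟨N 0 0 * N 0 0, fun x => ?_⟩
      apply pr_uu_inj
      rw [← h1, conj_uu]
      congr 1
      unfold uu
      apply mk2_congr
      · rw [h10]; ring
      · rfl
      · rw [h10]; ring
      · rw [h10]; ring
  have hf1 : f 1 ≠ 0 := hne 1 one_ne_zero
  let c : Fˣ := Units.mk0 (f 1) hf1
  let ψ : F → F := fun x => f x / f 1
  have hψadd : ∀ x y, ψ (x + y) = ψ x + ψ y := by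
    intro x y
    change f (x + y) / f 1 = f x / f 1 + f y / f 1
    rw [hadd, add_div]
  have hψ0 : ψ 0 = 0 := by
    change f 0 / f 1 = 0
    rw [h0, zero_div]
  have hψ1 : ψ 1 = 1 := div_self hf1
  let K : AddSubgroup F :=
    { carrier := {s | ∀ x, ψ (s * x) = ψ s * ψ x}
      add_mem' := fun {a b} ha hb x => by
        rw [add_mul, hψadd, hψadd, ha x, hb x, add_mul]
      zero_mem' := fun x => by rw [zero_mul, hψ0, zero_mul]
      neg_mem' := fun {a} ha x => by
        have hneg : ∀ y, ψ (-y) = -ψ y := by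
          intro y
          have h1 := hψadd y (-y)
          rw [add_neg_cancel, hψ0] at h1
          linear_combination -h1
        rw [neg_mul, hneg, hneg, ha x, neg_mul] }
  have hK : K = ⊤ := by
    apply squares_span
    intro t x
    obtain ⟨s, hs⟩ := hmul t
    change f (t * t * x) / f 1 = f (t * t) / f 1 * (f x / f 1)
    have h1 := hs 1
    rw [mul_one] at h1
    rw [hs x, h1]
    field_simp
  have hψmul : ∀ x y, ψ (x * y) = ψ x * ψ y := by
    intro x y
    have h1 : x ∈ K := by rw [hK]; exact AddSubgroup.mem_top x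
    exact h1 y
  let ψh : F →+* F :=
    { toFun := ψ
      map_one' := hψ1
      map_mul' := hψmul
      map_zero' := hψ0
      map_add' := hψadd }
  let φ : F ≃+* F := RingEquiv.ofBijective ψh (Finite.injective_iff_bijective.1 ψh.injective)
  have hφ : ∀ x, φ x = ψ x := fun x => rfl
  have hcφ : ∀ x, (c : F) * φ x = f x := by
    intro x
    rw [hφ]
    change f 1 * (f x / f 1) = f x
    field_simp
  have heU : ∀ x, ee c φ (pr (uu x)) = pr (uu (f x)) := by
    intro x
    rw [ee_pr]
    congr 1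
    rw [EE_apply]
    unfold uu
    apply mk2_congr
    · change φ 1 = 1
      exact map_one φ
    · exact hcφ x
    · change ((c⁻¹ : Fˣ) : F) * φ 0 = 0
      rw [map_zero, mul_zero]
    · change φ 1 = 1
      exact map_one φ
  have heV : ∀ y, ee c φ (pr (vv y)) = pr (vv (((c⁻¹ : Fˣ) : F) * φ y)) := by
    intro x
    rw [ee_pr]
    congr 1
    rw [EE_apply]
    unfold vv
    apply mk2_congr
    · change φ 1 = 1
      exact map_one φ
    · change (c : F) * φ 0 = 0
      rw [map_zero, mul_zero]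
    · rfl
    · change φ 1 = 1
      exact map_one φ
  have hδ : (ee c φ)⁻¹ * β = 1 := by
    apply rigid
    · intro x
      rw [MulAut.mul_apply, hf', ← heU, MulAut.inv_apply_self]
    · intro y
      obtain ⟨z, hz⟩ := hgV y
      have hz' : β (pr (vv y)) = pr (vv z) := hz.symm
      have h1 : pr (vv z) = ee c φ (pr (vv (φ.symm (c * z)))) := by
        rw [heV, φ.apply_symm_apply, ← mul_assoc, Units.inv_mul, one_mul]
      rw [MulAut.mul_apply, hz', h1, MulAut.inv_apply_self]
      exact ⟨_, rfl⟩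
  refine ⟨g⁻¹, c, φ, ?_⟩
  have h1 : β = ee c φ := (inv_mul_eq_one.1 hδ).symm
  rw [← h1, ← mul_assoc, ← map_mul, inv_mul_cancel, map_one, one_mul]

end

end Pool.Agent.H55.NEU
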