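import Pool.Agent.H55.NEU.Crit
import Pool.Agent.H81.ENG.AutOdd

/-! Alternating groups. -/

set_option autoImplicit false
set_option linter.unusedVariables false

namespace Pool.Agent.H55.NEU

open Subgroup Equiv Equiv.Perm
open scoped Pointwise

/-- a criterion for nonabelian Sylow `2`-subgroups -/
theorem nonab_sylow {L : Type*} [Group L] [Finite L] (a b t : L) (ha : a * a = 1) (hb : b * b = 1)
    (ht : t * t = 1) (hab : a * b = b * a) (hta : t * a = a * t) (htb : t * b = a * b * t)
    (hne : t * b ≠ b * t) (S : Sylow 2 L) :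
    ∃ x ∈ (S : Subgroup L), ∃ y ∈ (S : Subgroup L), x * y ≠ y * x := by
  have hz : ∀ g : L, g * g = 1 → IsPGroup 2 (zpowers g) := by
    intro g hg
    rintro ⟨y, hy⟩
    obtain ⟨n, rfl⟩ := mem_zpowers_iff.1 hy
    refine ⟨1, Subtype.ext ?_⟩
    change (g ^ n) ^ 2 ^ 1 = 1
    rw [← zpow_natCast, ← zpow_mul, mul_comm, zpow_mul]
    have : g ^ (((2 ^ 1 : ℕ) : ℤ)) = 1 := by
      rw [zpow_natCast, pow_one, pow_two, hg]
    rw [this, one_zpow]
  have hn1 : zpowers a ≤ normalizer ((zpowers b : Subgroup L) : Set L) := by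
    rw [zpowers_le]
    apply mem_normalizer_iff.2
    intro x
    have key : ∀ y ∈ zpowers b, a * y * a⁻¹ = y := by
      intro y hy
      obtain ⟨n, rfl⟩ := mem_zpowers_iff.1 hy
      have hc : Commute a b := hab
      have := (hc.zpow_right n).eq
      rw [this, mul_inv_cancel_right]
    constructor
    · intro hx
      rw [key x hx]
      exact hx
    · intro hx
      have h1 := key _ hx
      have h2 : a * x * a⁻¹ = x := by
        calc a * x * a⁻¹ = a * (a * x * a⁻¹) * a⁻¹ := h1.symm
          _ = (a * a) * x * (a * a)⁻¹ := by group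
          _ = x := by rw [ha]; group
      rwa [h2] at hx
  have hK1 : IsPGroup 2 (zpowers a ⊔ zpowers b : Subgroup L) :=
    (hz a ha).to_sup_of_normal_right' (hz b hb) hn1
  have hle : ∀ x ∈ (zpowers a ⊔ zpowers b : Subgroup L),
      t * x * t⁻¹ ∈ (zpowers a ⊔ zpowers b : Subgroup L) := by
    intro x hx
    have h1 : (zpowers a ⊔ zpowers b : Subgroup L).map (MulAut.conj t).toMonoidHom ≤
        (zpowers a ⊔ zpowers b : Subgroup L) := by
      rw [Subgroup.map_sup, MonoidHom.map_zpowers, MonoidHom.map_zpowers, sup_le_iff, zpowers_le,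
        zpowers_le]
      constructor
      · change t * a * t⁻¹ ∈ _
        rw [hta, mul_inv_cancel_right]
        exact (le_sup_left : zpowers a ≤ _) (mem_zpowers a)
      · change t * b * t⁻¹ ∈ _
        rw [htb, mul_inv_cancel_right]
        exact mul_mem ((le_sup_left : zpowers a ≤ _) (mem_zpowers a))
          ((le_sup_right : zpowers b ≤ _) (mem_zpowers b))
    exact h1 ⟨x, hx, rfl⟩
  have hn2 : zpowers t ≤ normalizer ((zpowers a ⊔ zpowers b : Subgroup L) : Set L) := by
    rw [zpowers_le]
    apply mem_normalizer_iff.2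
    intro x
    refine ⟨hle x, fun hx => ?_⟩
    have h1 := hle _ hx
    have h2 : t * (t * x * t⁻¹) * t⁻¹ = x := by
      calc t * (t * x * t⁻¹) * t⁻¹ = (t * t) * x * (t * t)⁻¹ := by group
        _ = x := by rw [ht]; group
    rwa [h2] at h1
  have hK2 : IsPGroup 2 (zpowers t ⊔ (zpowers a ⊔ zpowers b) : Subgroup L) :=
    (hz t ht).to_sup_of_normal_right' hK1 hn2
  obtain ⟨T, hT⟩ := hK2.exists_le_sylow
  obtain ⟨g, hg⟩ := MulAction.exists_smul_eq L T S
  have hmem : ∀ x ∈ (T : Subgroup L), g * x * g⁻¹ ∈ (S : Subgroup L) := by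
    intro x hx
    rw [← hg]
    exact ⟨x, hx, rfl⟩
  have htT : t ∈ (T : Subgroup L) := hT ((le_sup_left : zpowers t ≤ _) (mem_zpowers t))
  have hbT : b ∈ (T : Subgroup L) := hT ((le_sup_right : (zpowers a ⊔ zpowers b) ≤ _)
    ((le_sup_right : zpowers b ≤ _) (mem_zpowers b)))
  refine ⟨_, hmem t htT, _, hmem b hbT, fun h => hne ?_⟩
  have h1 : g * (t * b) * g⁻¹ = g * (b * t) * g⁻¹ := by
    calc g * (t * b) * g⁻¹ = g * t * g⁻¹ * (g * b * g⁻¹) := by group
      _ = g * b * g⁻¹ * (g * t * g⁻¹) := h
      _ = g * (b * t) * g⁻¹ := by group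
  exact mul_left_cancel (mul_right_cancel h1)

/-- a nonabelian `2`-group has center of index at least `4` -/
theorem four_mul_center_le {S : Type*} [Group S] [Finite S] (hS : IsPGroup 2 S)
    (hne : ∃ x y : S, x * y ≠ y * x) : 4 * Nat.card (Subgroup.center S) ≤ Nat.card S := by
  obtain ⟨a, ha⟩ := IsPGroup.iff_card.1 hS
  have h1 : Nat.card (Subgroup.center S) * (Subgroup.center S).index = Nat.card S :=
    (Subgroup.center S).card_mul_index
  have hd2 : (Subgroup.center S).index ∣ 2 ^ a := by
    rw [← ha, ← h1]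
    exact dvd_mul_left _ _
  obtain ⟨i, -, hi⟩ := (Nat.dvd_prime_pow Nat.prime_two).1 hd2
  have hne0 : i ≠ 0 := by
    intro h0
    rw [h0, pow_zero, index_eq_one] at hi
    obtain ⟨x, y, hxy⟩ := hne
    apply hxy
    have hy : y ∈ Subgroup.center S := by rw [hi]; exact mem_top y
    exact mem_center_iff.1 hy x
  have hne1 : i ≠ 1 := by
    intro h0
    rw [h0, pow_one] at hi
    have : Fact (Nat.Prime 2) := ⟨Nat.prime_two⟩
    have hcyc : IsCyclic (S ⧸ Subgroup.center S) := isCyclic_of_prime_card (p := 2) hi
    obtain ⟨x, y, hxy⟩ := hne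
    have hcm : IsMulCommutative S := (QuotientGroup.mk'
      (Subgroup.center S)).isMulCommutative_of_isCyclic_of_ker_le_center
      (by rw [QuotientGroup.ker_mk'])
    exact hxy (hcm.is_comm.comm x y)
  have h4 : 4 ≤ (Subgroup.center S).index := by
    rw [hi]
    calc 4 = 2 ^ 2 := by norm_num
      _ ≤ 2 ^ i := Nat.pow_le_pow_right (by norm_num) (by omega)
  rw [← h1, mul_comm]
  exact Nat.mul_le_mul_left _ h4

/-- the conjugation action of the symmetric group on the alternating group -/
noncomputable def cn (n : ℕ) : Perm (Fin n) →* MulAut (alternatingGroup (Fin n)) :=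
  MulAut.conjNormal

theorem cn_apply {n : ℕ} (σ : Perm (Fin n)) (x : alternatingGroup (Fin n)) :
    ((cn n σ x : alternatingGroup (Fin n)) : Perm (Fin n)) = σ * x * σ⁻¹ :=
  MulAut.conjNormal_apply σ x

theorem cn_mem {n : ℕ} {φ : MulAut (alternatingGroup (Fin n))} {σ : Perm (Fin n)}
    (h : ∀ x : alternatingGroup (Fin n),
      ((φ x : alternatingGroup (Fin n)) : Perm (Fin n)) = σ * x * σ⁻¹) :
    φ ∈ (cn n).range := by
  refine ⟨σ, ?_⟩
  ext x : 1
  apply Subtype.ext
  rw [cn_apply, h]

/-- index of the image of the symmetric group -/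
theorem cn_index {n : ℕ} (h5 : 5 ≤ n) : (cn n).range.index ∣ if n = 6 then 2 else 1 := by
  split_ifs with h6
  · subst h6
    have hU : ∀ φ : MulAut (alternatingGroup (Fin 6)), φ ∈ (cn 6).range ↔
        ∀ x : alternatingGroup (Fin 6), IsThreeCycle (x : Perm (Fin 6)) →
          IsThreeCycle ((φ x : alternatingGroup (Fin 6)) : Perm (Fin 6)) := by
      intro φ
      constructor
      · rintro ⟨σ, rfl⟩ x hx
        rw [cn_apply]
        unfold IsThreeCycle at hx ⊢
        rw [cycleType_conj, hx]
      · intro h
        obtain ⟨σ, hσ⟩ := Pool.ENG81.aut_of_three (by rw [Fintype.card_fin]; norm_num) φ h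
        exact cn_mem hσ
    have h6 : 5 ≤ Nat.card (Fin 6) := by
      rw [Nat.card_eq_fintype_card, Fintype.card_fin]
      norm_num
    have ho : ∀ (ψ : MulAut (alternatingGroup (Fin 6))) (y : alternatingGroup (Fin 6)),
        orderOf (y : Perm (Fin 6)) = 3 →
        orderOf ((ψ y : alternatingGroup (Fin 6)) : Perm (Fin 6)) = 3 := by
      intro ψ y hy
      rw [Subgroup.orderOf_coe, MulEquiv.orderOf_eq, ← Subgroup.orderOf_coe, hy]
    -- an automorphism outside maps the class of three-cycles to the other class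
    have hout : ∀ φ : MulAut (alternatingGroup (Fin 6)), φ ∉ (cn 6).range →
        ∀ x : alternatingGroup (Fin 6), IsThreeCycle (x : Perm (Fin 6)) →
          ((φ x : alternatingGroup (Fin 6)) : Perm (Fin 6)).cycleType = Multiset.replicate 2 3 := by
      intro φ hφ x hx
      rcases Pool.ENG81.six_or (ho φ x hx.orderOf) with h | h
      · exfalso
        apply hφ
        rw [hU]
        intro y hy
        have h2 : IsConj x y := alternatingGroup.isThreeCycle_isConj h6 hx hy
        have h3 : IsConj (φ x) (φ y) := φ.toMonoidHom.map_isConj h2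
        have h4 := Pool.ENG81.conj_type h3
        unfold IsThreeCycle at h ⊢
        rw [← h4, h]
      · exact h
    have hback : ∀ φ : MulAut (alternatingGroup (Fin 6)), φ ∉ (cn 6).range →
        ∀ x : alternatingGroup (Fin 6), (x : Perm (Fin 6)).cycleType = Multiset.replicate 2 3 →
          IsThreeCycle ((φ x : alternatingGroup (Fin 6)) : Perm (Fin 6)) := by
      intro φ hφ x hx
      have hx3 : orderOf (x : Perm (Fin 6)) = 3 := by
        rw [← lcm_cycleType, hx]
        decide
      rcases Pool.ENG81.six_or (ho φ x hx3) with h | h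
      · exact h
      · exfalso
        -- take a three-cycle `w`; its image is conjugate to `φ x`
        obtain ⟨w, hw⟩ : ∃ w : alternatingGroup (Fin 6), IsThreeCycle (w : Perm (Fin 6)) := by
          refine ⟨⟨swap 0 1 * swap 0 2, ?_⟩, ?_⟩
          · rw [mem_alternatingGroup]; decide
          · exact isThreeCycle_swap_mul_swap_same (by decide) (by decide) (by decide)
        have h1 := hout φ hφ w hw
        have h2 : IsConj (φ w) (φ x) := Pool.ENG81.six_conj h1 h
        have h3 : IsConj (φ.symm (φ w)) (φ.symm (φ x)) := φ.symm.toMonoidHom.map_isConj h2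
        rw [φ.symm_apply_apply, φ.symm_apply_apply] at h3
        have h4 := Pool.ENG81.conj_type h3
        unfold IsThreeCycle at hw
        rw [hw, hx] at h4
        exact absurd h4 (by decide)
    by_cases htop : ∀ φ : MulAut (alternatingGroup (Fin 6)), φ ∈ (cn 6).range
    · have h1 : (cn 6).range = ⊤ := by
        rw [eq_top_iff]
        intro φ _
        exact htop φ
      rw [h1, index_top]
      exact one_dvd _
    · push Not at htop
      obtain ⟨a, ha⟩ := htop
      have h1 : (cn 6).range.index = 2 := by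
        rw [index_eq_two_iff]
        refine ⟨a, fun b => ?_⟩
        by_cases hb : b ∈ (cn 6).range
        · right
          refine ⟨hb, fun hba => ha ?_⟩
          exact ((cn 6).range.mul_mem_cancel_left hb).1 hba
        · left
          refine ⟨?_, hb⟩
          rw [hU]
          intro x hx
          rw [MulAut.mul_apply]
          exact hback b hb _ (hout a ha x hx)
      rw [h1]
  · have h1 : (cn n).range = ⊤ := by
      rw [eq_top_iff]
      intro φ _
      obtain ⟨σ, hσ⟩ := Pool.ENG81.aut_alt h5 h6 φ
      exact cn_mem hσ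
    rw [h1, index_top]

/-- index of the inner automorphisms -/
theorem inn_index {n : ℕ} (h5 : 5 ≤ n) :
    (MulAut.conj : alternatingGroup (Fin n) →* MulAut (alternatingGroup (Fin n))).range.index ∣
      if n = 6 then 4 else 2 := by
  have hI : (MulAut.conj : alternatingGroup (Fin n) →* MulAut (alternatingGroup (Fin n))).range =
      (alternatingGroup (Fin n)).map (cn n) := by
    ext φ
    constructor
    · rintro ⟨g, rfl⟩
      refine ⟨g, g.2, ?_⟩
      ext x : 1
      apply Subtype.ext
      rw [cn_apply]
      rfl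
    · rintro ⟨g, hg, rfl⟩
      refine ⟨⟨g, hg⟩, ?_⟩
      ext x : 1
      apply Subtype.ext
      rw [cn_apply]
      rfl
  have h1 : (alternatingGroup (Fin n)).index ∣ 2 := by
    have h2 : (alternatingGroup (Fin n)).index = Nat.card (sign : Perm (Fin n) →* ℤˣ).range :=
      index_ker _
    rw [h2]
    have h3 := card_subgroup_dvd_card (sign : Perm (Fin n) →* ℤˣ).range
    have h4 : Nat.card ℤˣ = 2 := by
      rw [Nat.card_eq_fintype_card]
      rfl
    rwa [h4] at h3
  rw [hI, index_map]
  have h2 : (alternatingGroup (Fin n) ⊔ (cn n).ker).index ∣ 2 :=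
    (index_dvd_of_le le_sup_left).trans h1
  have h3 := mul_dvd_mul h2 (cn_index h5)
  refine h3.trans (dvd_of_eq ?_)
  split_ifs <;> rfl

/-- in degree `5` -/
theorem five_even : ∀ σ : Perm (Fin 5),
    σ * (swap 0 1 * swap 2 3) = (swap 0 1 * swap 2 3) * σ →
    σ * (swap 0 2 * swap 1 3) = (swap 0 2 * swap 1 3) * σ → sign σ = 1 := by
  decide +kernel

/-- nonabelian Sylow `2`-subgroups in degree at least `6` -/
theorem alt_nonab {n : ℕ} (h6 : 6 ≤ n) (S : Sylow 2 (alternatingGroup (Fin n))) :
    ∃ x y : (S : Subgroup (alternatingGroup (Fin n))), x * y ≠ y * x := by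
  classical
  let ι : Perm (Fin 6) →* Perm (Fin n) :=
    extendDomainHom (Equiv.ofInjective (Fin.castLE h6) (Fin.castLE_injective h6))
  have hι : Function.Injective ι := extendDomainHom_injective _
  have hs : ∀ σ : Perm (Fin 6), sign (ι σ) = sign σ := fun σ => sign_extendDomain σ _
  have hmem : ∀ σ : Perm (Fin 6), sign σ = 1 → ι σ ∈ alternatingGroup (Fin n) := by
    intro σ h
    rw [mem_alternatingGroup, hs, h]
  obtain ⟨x, hx, y, hy, hne⟩ := nonab_sylow (L := alternatingGroup (Fin n))
    ⟨ι (swap 0 1 * swap 2 3), hmem _ (by decide)⟩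
    ⟨ι (swap 0 2 * swap 1 3), hmem _ (by decide)⟩
    ⟨ι (swap 0 1 * swap 4 5), hmem _ (by decide)⟩
    (by
      apply Subtype.ext
      change ι (swap 0 1 * swap 2 3) * ι (swap 0 1 * swap 2 3) = 1
      rw [← map_mul, show (swap 0 1 * swap 2 3 : Perm (Fin 6)) * (swap 0 1 * swap 2 3) = 1 by
        decide, map_one])
    (by
      apply Subtype.ext
      change ι (swap 0 2 * swap 1 3) * ι (swap 0 2 * swap 1 3) = 1
      rw [← map_mul, show (swap 0 2 * swap 1 3 : Perm (Fin 6)) * (swap 0 2 * swap 1 3) = 1 by
        decide, map_one])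
    (by
      apply Subtype.ext
      change ι (swap 0 1 * swap 4 5) * ι (swap 0 1 * swap 4 5) = 1
      rw [← map_mul, show (swap 0 1 * swap 4 5 : Perm (Fin 6)) * (swap 0 1 * swap 4 5) = 1 by
        decide, map_one])
    (by
      apply Subtype.ext
      change ι (swap 0 1 * swap 2 3) * ι (swap 0 2 * swap 1 3) =
        ι (swap 0 2 * swap 1 3) * ι (swap 0 1 * swap 2 3)
      rw [← map_mul, ← map_mul]
      congr 1
      decide)
    (by
      apply Subtype.ext
      change ι (swap 0 1 * swap 4 5) * ι (swap 0 1 * swap 2 3) =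
        ι (swap 0 1 * swap 2 3) * ι (swap 0 1 * swap 4 5)
      rw [← map_mul, ← map_mul]
      congr 1
      decide)
    (by
      apply Subtype.ext
      change ι (swap 0 1 * swap 4 5) * ι (swap 0 2 * swap 1 3) =
        ι (swap 0 1 * swap 2 3) * ι (swap 0 2 * swap 1 3) * ι (swap 0 1 * swap 4 5)
      rw [← map_mul, ← map_mul, ← map_mul]
      congr 1
      decide)
    (by
      intro h
      have h1 : ι (swap 0 1 * swap 4 5) * ι (swap 0 2 * swap 1 3) =
        ι (swap 0 2 * swap 1 3) * ι (swap 0 1 * swap 4 5) := congrArg Subtype.val h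
      rw [← map_mul, ← map_mul] at h1
      exact absurd (hι h1) (by decide)) S
  exact ⟨⟨x, hx⟩, ⟨y, hy⟩, fun h => hne (congrArg Subtype.val h)⟩

/-- **Alternating groups** satisfy the bound for all primes. -/
theorem centBound_alt {p : ℕ} [hp : Fact p.Prime] {n : ℕ} (h5 : 5 ≤ n)
    (hab : ∃ a b : alternatingGroup (Fin n), a * b ≠ b * a) :
    CentBound p (alternatingGroup (Fin n)) := by
  have hsim : IsSimpleGroup (alternatingGroup (Fin n)) :=
    alternatingGroup.isSimpleGroup (by rwa [Nat.card_eq_fintype_card, Fintype.card_fin])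
  have hc := center_eq_bot_of_simple hab
  have hidx := inn_index h5
  have hidx0 : (MulAut.conj : alternatingGroup (Fin n) →*
      MulAut (alternatingGroup (Fin n))).range.index ≠ 0 := index_ne_zero_of_finite
  by_cases hp2 : p = 2
  · subst hp2
    by_cases hn5 : n = 5
    · -- degree 5
      subst hn5
      apply centBound_of_inner hc
      intro S α _ hfix
      obtain ⟨σ, hσ⟩ := Pool.ENG81.aut_alt (by norm_num) (by norm_num) α
      -- the standard elements lie in a Sylow subgroup
      let a : alternatingGroup (Fin 5) := ⟨swap 0 1 * swap 2 3, by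
        rw [mem_alternatingGroup]; decide⟩
      let b : alternatingGroup (Fin 5) := ⟨swap 0 2 * swap 1 3, by
        rw [mem_alternatingGroup]; decide⟩
      have ha : a * a = 1 := by
        apply Subtype.ext
        change (swap 0 1 * swap 2 3 : Perm (Fin 5)) * (swap 0 1 * swap 2 3) = 1
        decide
      have hb : b * b = 1 := by
        apply Subtype.ext
        change (swap 0 2 * swap 1 3 : Perm (Fin 5)) * (swap 0 2 * swap 1 3) = 1
        decide
      have hab' : a * b = b * a := by
        apply Subtype.ext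
        change (swap 0 1 * swap 2 3 : Perm (Fin 5)) * (swap 0 2 * swap 1 3) =
          (swap 0 2 * swap 1 3 : Perm (Fin 5)) * (swap 0 1 * swap 2 3)
        decide
      have hK : IsPGroup 2 (zpowers a ⊔ zpowers b : Subgroup (alternatingGroup (Fin 5))) := by
        have hz : ∀ g : alternatingGroup (Fin 5), g * g = 1 → IsPGroup 2 (zpowers g) := by
          intro g hg
          rintro ⟨y, hy⟩
          obtain ⟨k, rfl⟩ := mem_zpowers_iff.1 hy
          refine ⟨1, Subtype.ext ?_⟩
          change (g ^ k) ^ 2 ^ 1 = 1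
          rw [← zpow_natCast, ← zpow_mul, mul_comm, zpow_mul]
          have : g ^ (((2 ^ 1 : ℕ) : ℤ)) = 1 := by
            rw [zpow_natCast, pow_one, pow_two, hg]
          rw [this, one_zpow]
        apply (hz a ha).to_sup_of_normal_right' (hz b hb)
        rw [zpowers_le]
        apply mem_normalizer_iff.2
        intro x
        have key : ∀ y ∈ zpowers b, a * y * a⁻¹ = y := by
          intro y hy
          obtain ⟨k, rfl⟩ := mem_zpowers_iff.1 hy
          have hc : Commute a b := hab'
          have := (hc.zpow_right k).eq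
          rw [this, mul_inv_cancel_right]
        constructor
        · intro hx
          rw [key x hx]
          exact hx
        · intro hx
          have h1 := key _ hx
          have h2 : a * x * a⁻¹ = x := by
            calc a * x * a⁻¹ = a * (a * x * a⁻¹) * a⁻¹ := h1.symm
              _ = (a * a) * x * (a * a)⁻¹ := by group
              _ = x := by rw [ha]; group
          rwa [h2] at hx
      obtain ⟨T, hT⟩ := hK.exists_le_sylow
      obtain ⟨g, hg⟩ := MulAction.exists_smul_eq (alternatingGroup (Fin 5)) T S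
      have hmem : ∀ x ∈ (T : Subgroup (alternatingGroup (Fin 5))),
          g * x * g⁻¹ ∈ (S : Subgroup (alternatingGroup (Fin 5))) := by
        intro x hx
        rw [← hg]
        exact ⟨x, hx, rfl⟩
      have hcomm : ∀ x ∈ (T : Subgroup (alternatingGroup (Fin 5))),
          ((g : Perm (Fin 5))⁻¹ * σ * g) * x = x * ((g : Perm (Fin 5))⁻¹ * σ * g) := by
        intro x hx
        have h1 := hσ (g * x * g⁻¹)
        rw [hfix _ (hmem x hx)] at h1
        have h2 : (g : Perm (Fin 5)) * x * (g : Perm (Fin 5))⁻¹ =
            σ * (g * x * (g : Perm (Fin 5))⁻¹) * σ⁻¹ := h1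
        have h3 : (g : Perm (Fin 5)) * x * (g : Perm (Fin 5))⁻¹ * σ =
            σ * (g * x * (g : Perm (Fin 5))⁻¹) := by
          calc (g : Perm (Fin 5)) * x * (g : Perm (Fin 5))⁻¹ * σ
              = σ * (g * x * (g : Perm (Fin 5))⁻¹) * σ⁻¹ * σ := by rw [← h2]
            _ = σ * (g * x * (g : Perm (Fin 5))⁻¹) := by group
        calc ((g : Perm (Fin 5))⁻¹ * σ * g) * x
            = (g : Perm (Fin 5))⁻¹ * (σ * (g * x * (g : Perm (Fin 5))⁻¹)) * g := by group
          _ = (g : Perm (Fin 5))⁻¹ * ((g : Perm (Fin 5)) * x * (g : Perm (Fin 5))⁻¹ * σ) * g := by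
              rw [h3]
          _ = x * ((g : Perm (Fin 5))⁻¹ * σ * g) := by group
      have haT : a ∈ (T : Subgroup (alternatingGroup (Fin 5))) :=
        hT ((le_sup_left : zpowers a ≤ _) (mem_zpowers a))
      have hbT : b ∈ (T : Subgroup (alternatingGroup (Fin 5))) :=
        hT ((le_sup_right : zpowers b ≤ _) (mem_zpowers b))
      have h1 := five_even _ (hcomm a haT) (hcomm b hbT)
      have h2 : sign σ = 1 := by
        rw [Perm.sign_mul, Perm.sign_mul, Perm.sign_inv, mul_comm (Perm.sign (g : Perm (Fin 5))), mul_assoc] at h1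
        have h3 : sign (g : Perm (Fin 5)) * sign (g : Perm (Fin 5)) = 1 := by
          rw [← pow_two]; exact Int.units_sq _
        rw [h3, mul_one] at h1
        exact h1
      refine ⟨⟨σ, mem_alternatingGroup.2 h2⟩, ?_⟩
      ext x : 1
      apply Subtype.ext
      rw [hσ]
      rfl
    · -- degree at least 6
      have h6 : 6 ≤ n := by omega
      apply centBound_of_out hc
      intro S
      have h1 := four_mul_center_le S.isPGroup' (alt_nonab h6 S)
      have h2 : 2 ^ ((MulAut.conj : alternatingGroup (Fin n) →*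
          MulAut (alternatingGroup (Fin n))).range.index.factorization 2) ≤ 4 := by
        apply Nat.le_of_dvd (by norm_num)
        refine (Nat.ordProj_dvd _ 2).trans (hidx.trans ?_)
        split_ifs
        · exact dvd_rfl
        · norm_num
      exact (Nat.mul_le_mul_right _ h2).trans h1
  · apply centBound_of_out hc
    intro S
    have h1 : (MulAut.conj : alternatingGroup (Fin n) →*
        MulAut (alternatingGroup (Fin n))).range.index.factorization p = 0 := by
      apply Nat.factorization_eq_zero_of_not_dvd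
      intro hd
      have h2 : p ∣ 4 := by
        refine hd.trans (hidx.trans ?_)
        split_ifs
        · exact dvd_rfl
        · norm_num
      have h3 : p ∣ 2 := by
        have h4 : p ∣ 2 ^ 2 := by norm_num; exact h2
        exact hp.out.dvd_of_dvd_pow h4
      exact hp2 ((Nat.prime_dvd_prime_iff_eq hp.out Nat.prime_two).1 h3)
    rw [h1, pow_zero, one_mul]
    exact Nat.le_of_dvd Nat.card_pos (card_subgroup_dvd_card _)

end Pool.Agent.H55.NEU
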