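import Pool.Agent.H80.AutAb.Constrained

/-! Normal subgroups of order prime to `p`, normal `p`-subgroups, Sylow subgroups of normal
subgroups, automorphisms fixing a Sylow `p`-subgroup and a normal subgroup. -/

set_option autoImplicit false
set_option linter.unusedVariables false

namespace Pool.Agent.H55.NEU

open Subgroup
open scoped Pointwise IsMulCommutative

/-- no nontrivial normal subgroup of order prime to `p` -/
def NoP (p : ℕ) (G : Type*) [Group G] : Prop :=
  ∀ N : Subgroup G, N.Normal → ¬ p ∣ Nat.card N → N = ⊥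

/-- no nontrivial normal `p`-subgroup -/
def NoN (p : ℕ) (G : Type*) [Group G] : Prop :=
  ∀ N : Subgroup G, N.Normal → IsPGroup p N → N = ⊥

theorem exists_greatest_normal {G : Type*} [Group G] [Finite G] (Q : Subgroup G → Prop)
    (h1 : Q ⊥) (hsup : ∀ A B : Subgroup G, A.Normal → B.Normal → Q A → Q B → Q (A ⊔ B)) :
    ∃ O : Subgroup G, O.Normal ∧ Q O ∧ ∀ M : Subgroup G, M.Normal → Q M → M ≤ O := by
  let S : Set (Subgroup G) := {K | K.Normal ∧ Q K}
  have hS : S.Nonempty := ⟨⊥, inferInstance, h1⟩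
  obtain ⟨O, hO⟩ := S.toFinite.exists_maximal hS
  refine ⟨O, hO.prop.1, hO.prop.2, fun M hM hQ => ?_⟩
  have hOn := hO.prop.1
  have h2 : O ⊔ M ∈ S := ⟨inferInstance, hsup O M hO.prop.1 hM hO.prop.2 hQ⟩
  exact le_sup_right.trans (hO.le_of_ge h2 le_sup_left)

theorem not_dvd_sup {G : Type*} [Group G] [Finite G] {p : ℕ} [hp : Fact p.Prime]
    (A B : Subgroup G) (hB : B.Normal) (h1 : ¬ p ∣ Nat.card A) (h2 : ¬ p ∣ Nat.card B) :
    ¬ p ∣ Nat.card (A ⊔ B : Subgroup G) := by
  have h3 : Nat.card B * B.relIndex (A ⊔ B) = Nat.card (A ⊔ B : Subgroup G) := by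
    rw [← relIndex_bot_left, ← relIndex_bot_left]
    exact relIndex_mul_relIndex _ _ _ bot_le le_sup_right
  rw [← h3, relIndex_sup_right, hp.out.dvd_mul]
  rintro (h | h)
  · exact h2 h
  · exact h1 (h.trans (relIndex_dvd_card _ _))

/-- the greatest normal subgroup of order prime to `p` is characteristic -/
theorem exists_op' (p : ℕ) [hp : Fact p.Prime] (G : Type*) [Group G] [Finite G] :
    ∃ O : Subgroup G, O.Characteristic ∧ ¬ p ∣ Nat.card O ∧
      ∀ M : Subgroup G, M.Normal → ¬ p ∣ Nat.card M → M ≤ O := by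
  obtain ⟨O, hO1, hO2, hO3⟩ := exists_greatest_normal (G := G) (fun K => ¬ p ∣ Nat.card K)
    (by rw [Subgroup.card_bot]; exact hp.out.one_lt.ne' ∘ Nat.dvd_one.1)
    (fun A B _ hB hA' hB' => not_dvd_sup A B hB hA' hB')
  refine ⟨O, ?_, hO2, hO3⟩
  rw [characteristic_iff_map_le]
  intro φ
  apply hO3
  · exact hO1.map _ φ.surjective
  · rw [Nat.card_congr (O.equivMapOfInjective _ φ.injective).toEquiv.symm]
    exact hO2

/-- the greatest normal `p`-subgroup is characteristic -/
theorem exists_op (p : ℕ) [hp : Fact p.Prime] (G : Type*) [Group G] [Finite G] :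
    ∃ O : Subgroup G, O.Characteristic ∧ IsPGroup p O ∧
      ∀ M : Subgroup G, M.Normal → IsPGroup p M → M ≤ O := by
  obtain ⟨O, hO1, hO2, hO3⟩ := exists_greatest_normal (G := G) (fun K => IsPGroup p K)
    IsPGroup.of_bot (fun A B _ hB hA' hB' => hA'.to_sup_of_normal_right hB')
  refine ⟨O, ?_, hO2, hO3⟩
  rw [characteristic_iff_map_le]
  intro φ
  exact hO3 _ (hO1.map _ φ.surjective) (hO2.map _)

theorem NoP.normal {p : ℕ} [hp : Fact p.Prime] {G : Type*} [Group G] [Finite G] (h : NoP p G)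
    (N : Subgroup G) [hN : N.Normal] : NoP p N := by
  obtain ⟨O, hO1, hO2, hO3⟩ := exists_op' p N
  have h1 : (O.map N.subtype).Normal := ConjAct.normal_of_characteristic_of_normal
  have h2 : O.map N.subtype = ⊥ := by
    apply h _ h1
    rw [Nat.card_congr (O.equivMapOfInjective _ N.subtype_injective).toEquiv.symm]
    exact hO2
  have h3 : O = ⊥ := (map_eq_bot_iff_of_injective _ N.subtype_injective).1 h2
  intro M hM hMp
  exact le_bot_iff.1 ((hO3 M hM hMp).trans h3.le)

theorem NoN.normal {p : ℕ} [hp : Fact p.Prime] {G : Type*} [Group G] [Finite G] (h : NoN p G)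
    (N : Subgroup G) [hN : N.Normal] : NoN p N := by
  obtain ⟨O, hO1, hO2, hO3⟩ := exists_op p N
  have h1 : (O.map N.subtype).Normal := ConjAct.normal_of_characteristic_of_normal
  have h2 : O.map N.subtype = ⊥ := h _ h1 (hO2.map _)
  have h3 : O = ⊥ := (map_eq_bot_iff_of_injective _ N.subtype_injective).1 h2
  intro M hM hMp
  exact le_bot_iff.1 ((hO3 M hM hMp).trans h3.le)

/-- if there is no normal subgroup of order prime to `p`, abelian normal subgroups are
`p`-groups -/
theorem NoP.isPGroup {p : ℕ} [hp : Fact p.Prime] {G : Type*} [Group G] [Finite G] (h : NoP p G)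
    (A : Subgroup G) [hA : A.Normal] (hab : ∀ a ∈ A, ∀ b ∈ A, a * b = b * a) : IsPGroup p A := by
  obtain ⟨a, k, hk, hck⟩ := Nat.exists_eq_pow_mul_and_not_dvd (n := Nat.card A)
    Nat.card_pos.ne' p hp.out.one_lt.ne'
  let B : Subgroup G :=
    { carrier := {x | x ∈ A ∧ x ^ k = 1}
      mul_mem' := fun {x y} hx hy => by
        refine ⟨A.mul_mem hx.1 hy.1, ?_⟩
        have hc : Commute x y := hab x hx.1 y hy.1
        rw [hc.mul_pow, hx.2, hy.2, one_mul]
      one_mem' := ⟨A.one_mem, one_pow _⟩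
      inv_mem' := fun {x} hx => ⟨A.inv_mem hx.1, by rw [inv_pow, hx.2, inv_one]⟩ }
  have hBn : B.Normal := ⟨fun x hx g => ⟨hA.conj_mem x hx.1 g, by
    rw [conj_pow, hx.2, mul_one, mul_inv_cancel]⟩⟩
  have hB : B = ⊥ := by
    apply h B hBn
    intro hd
    obtain ⟨x, hx⟩ := exists_prime_orderOf_dvd_card' (G := B) p hd
    apply hk
    rw [← hx]
    apply orderOf_dvd_of_pow_eq_one
    exact Subtype.ext x.2.2
  intro x
  refine ⟨a, ?_⟩
  have h2 : (x : G) ^ p ^ a ∈ B := by
    refine ⟨A.pow_mem x.2 _, ?_⟩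
    rw [← pow_mul, ← hck]
    exact congrArg Subtype.val (pow_card_eq_one' (x := x))
  rw [hB, mem_bot] at h2
  exact Subtype.ext h2

theorem NoP.center {p : ℕ} [hp : Fact p.Prime] {G : Type*} [Group G] [Finite G] (h : NoP p G) :
    IsPGroup p (center G) :=
  h.isPGroup (Subgroup.center G) (fun a _ b hb => mem_center_iff.1 hb a)

/-- passing to the quotient by a central `p`-subgroup -/
theorem NoP.quotient {p : ℕ} [hp : Fact p.Prime] {C : Type*} [Group C] [Finite C] (h : NoP p C)
    (Z : Subgroup C) [hZn : Z.Normal] (hZ : Z ≤ Subgroup.center C) (hZp : IsPGroup p Z) :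
    NoP p (C ⧸ Z) := by
  intro N hN hNp
  let K : Subgroup C := N.comap (QuotientGroup.mk' Z)
  have hKn : K.Normal := hN.comap _
  have hZK : Z ≤ K := by
    intro z hz
    change QuotientGroup.mk' Z z ∈ N
    have : QuotientGroup.mk' Z z = 1 := (QuotientGroup.eq_one_iff z).2 hz
    rw [this]
    exact N.one_mem
  have hcen : Z.subgroupOf K ≤ Subgroup.center K := by
    intro x hx
    rw [mem_center_iff]
    intro g
    exact Subtype.ext (mem_center_iff.1 (hZ hx) g)
  obtain ⟨hp1, hp2⟩ := Pool.Agent.H80.AutAb.pow_index_central (Z.subgroupOf K) hcen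
  set k := (Z.subgroupOf K).index with hk
  have hkN : k ∣ Nat.card N := by
    -- the map `K → N` is surjective with kernel `Z`
    let f : K →* N := ((QuotientGroup.mk' Z).comp K.subtype).codRestrict N (fun x => x.2)
    have hker : f.ker = Z.subgroupOf K := by
      ext x
      rw [MonoidHom.mem_ker, mem_subgroupOf]
      constructor
      · intro hx
        exact (QuotientGroup.eq_one_iff (x : C)).1 (congrArg Subtype.val hx)
      · intro hx
        exact Subtype.ext ((QuotientGroup.eq_one_iff (x : C)).2 hx)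
    rw [hk, ← hker, index_ker]
    exact card_subgroup_dvd_card _
  have hkp : ¬ p ∣ k := fun hd => hNp (hd.trans hkN)
  let B : Subgroup C :=
    { carrier := {x | x ∈ K ∧ x ^ k = 1}
      mul_mem' := fun {x y} hx hy => by
        refine ⟨K.mul_mem hx.1 hy.1, ?_⟩
        have h1 := congrArg Subtype.val (hp2 ⟨x, hx.1⟩ ⟨y, hy.1⟩)
        have h2 : (x * y) ^ k = x ^ k * y ^ k := h1
        rw [h2, hx.2, hy.2, one_mul]
      one_mem' := ⟨K.one_mem, one_pow _⟩
      inv_mem' := fun {x} hx => ⟨K.inv_mem hx.1, by rw [inv_pow, hx.2, inv_one]⟩ }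
  have hBn : B.Normal := ⟨fun x hx g => ⟨hKn.conj_mem x hx.1 g, by
    rw [conj_pow, hx.2, mul_one, mul_inv_cancel]⟩⟩
  have hB : B = ⊥ := by
    apply h B hBn
    intro hd
    obtain ⟨x, hx⟩ := exists_prime_orderOf_dvd_card' (G := B) p hd
    apply hkp
    rw [← hx]
    apply orderOf_dvd_of_pow_eq_one
    exact Subtype.ext x.2.2
  rw [eq_bot_iff]
  intro y hy
  obtain ⟨x, rfl⟩ := QuotientGroup.mk'_surjective Z y
  have hxK : x ∈ K := hy
  have h1 : x ^ k ∈ Z := hp1 ⟨x, hxK⟩
  obtain ⟨a, ha⟩ := hZp ⟨x ^ k, h1⟩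
  have h2 : (x ^ k) ^ p ^ a = 1 := congrArg Subtype.val ha
  have h3 : x ^ p ^ a ∈ B := by
    refine ⟨K.pow_mem hxK _, ?_⟩
    rw [← pow_mul, mul_comm, pow_mul]
    exact h2
  rw [hB, mem_bot] at h3
  rw [mem_bot]
  -- the order of the image divides `p ^ a` and `|N|`
  have h4 : orderOf (QuotientGroup.mk' Z x) ∣ p ^ a := by
    apply orderOf_dvd_of_pow_eq_one
    rw [← map_pow, h3, map_one]
  have h5 : orderOf (QuotientGroup.mk' Z x) ∣ Nat.card N := by
    have h6 := orderOf_dvd_natCard (⟨_, hy⟩ : N)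
    rwa [← Subgroup.orderOf_coe] at h6
  have h7 : Nat.Coprime (p ^ a) (Nat.card N) :=
    Nat.Coprime.pow_left _ ((Nat.Prime.coprime_iff_not_dvd hp.out).2 hNp)
  have h8 := Nat.dvd_gcd h4 h5
  rw [Nat.Coprime.gcd_eq_one h7, Nat.dvd_one] at h8
  exact orderOf_eq_one_iff.1 h8

/-- The intersection of a Sylow `p`-subgroup with a normal subgroup is a Sylow `p`-subgroup of
it. -/
theorem sylInf {p : ℕ} [hp : Fact p.Prime] {G : Type*} [Group G] [Finite G] (P : Sylow p G)
    (N : Subgroup G) [hN : N.Normal] :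
    ∃ Q : Sylow p N, (Q : Subgroup N) = (P : Subgroup G).subgroupOf N := by
  have h1 : IsPGroup p ((P : Subgroup G).subgroupOf N) :=
    P.isPGroup'.comap_of_injective _ N.subtype_injective
  have h2 : ¬ p ∣ ((P : Subgroup G).subgroupOf N).index := by
    change ¬ p ∣ (P : Subgroup G).relIndex N
    intro hd
    have e1 : Nat.card (P : Subgroup G) * (P : Subgroup G).relIndex (P ⊔ N) =
        Nat.card (P ⊔ N : Subgroup G) := by
      rw [← relIndex_bot_left, ← relIndex_bot_left]
      exact relIndex_mul_relIndex _ _ _ bot_le le_sup_left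
    have e2 : Nat.card N * N.relIndex (P ⊔ N) = Nat.card (P ⊔ N : Subgroup G) := by
      rw [← relIndex_bot_left, ← relIndex_bot_left]
      exact relIndex_mul_relIndex _ _ _ bot_le le_sup_right
    rw [relIndex_sup_right] at e2
    have e3 : Nat.card (P ⊓ N : Subgroup G) * (P : Subgroup G).relIndex N = Nat.card N := by
      rw [← inf_relIndex_right, ← relIndex_bot_left, ← relIndex_bot_left]
      exact relIndex_mul_relIndex _ _ _ bot_le inf_le_right
    have e4 : Nat.card (P ⊓ N : Subgroup G) * N.relIndex (P : Subgroup G) =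
        Nat.card (P : Subgroup G) := by
      rw [← inf_relIndex_left, ← relIndex_bot_left, ← relIndex_bot_left]
      exact relIndex_mul_relIndex _ _ _ bot_le inf_le_left
    have e5 : (P : Subgroup G).relIndex (P ⊔ N) = (P : Subgroup G).relIndex N := by
      have hc : 0 < Nat.card (P : Subgroup G) := Nat.card_pos
      apply Nat.eq_of_mul_eq_mul_left hc
      rw [e1, ← e2, ← e3]
      calc Nat.card (P ⊓ N : Subgroup G) * (P : Subgroup G).relIndex N * N.relIndex P
          = (Nat.card (P ⊓ N : Subgroup G) * N.relIndex P) * (P : Subgroup G).relIndex N := by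
            ring
        _ = _ := by rw [e4]
    rw [← e5] at hd
    exact P.not_dvd_index (hd.trans (relIndex_dvd_index_of_le le_sup_left))
  exact ⟨IsPGroup.toSylow h1 h2, rfl⟩

/-- the kernel filtration for the order of the image -/
theorem card_range_chain {S A B : Type*} [Group S] [Finite S] [Group A] [Group B] (φ : S →* A)
    (ψ : S →* B) : Nat.card φ.range ≤
      Nat.card ψ.range * Nat.card (φ.comp ψ.ker.subtype).range := by
  have h1 : (φ.comp ψ.ker.subtype).ker.index = φ.ker.relIndex ψ.ker := rfl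
  rw [← index_ker, ← index_ker, ← index_ker, h1]
  have h2 : φ.ker.relIndex ψ.ker * ψ.ker.index = (φ.ker ⊓ ψ.ker).index := by
    rw [← inf_relIndex_right]
    exact relIndex_mul_index inf_le_right
  rw [mul_comm, h2]
  apply Nat.le_of_dvd
  · exact Nat.pos_of_ne_zero index_ne_zero_of_finite
  · exact index_dvd_of_le inf_le_left

/-- An automorphism which fixes a Sylow `p`-subgroup and a normal subgroup `C` pointwise, acts
trivially modulo `C`, is a conjugation by an element of the center of `C`, if this center is a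
`p`-group. -/
theorem conj_of_fix {G : Type*} [Group G] [Finite G] {p : ℕ} [hp : Fact p.Prime]
    (C : Subgroup G) [hCn : C.Normal] (hA : IsPGroup p (Subgroup.center C)) (P : Sylow p G)
    (α : MulAut G) (hP : ∀ x ∈ (P : Subgroup G), α x = x) (hC : ∀ x ∈ C, α x = x)
    (hu : ∀ g, g⁻¹ * α g ∈ C) :
    ∃ m ∈ (Subgroup.center C).map C.subtype, α = MulAut.conj m := by
  classical
  let A : Subgroup G := (Subgroup.center C).map C.subtype
  have hmem : ∀ x : G, x ∈ A ↔ x ∈ C ∧ ∀ c ∈ C, c * x = x * c := by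
    intro x
    constructor
    · rintro ⟨y, hy, rfl⟩
      refine ⟨y.2, fun c hc => ?_⟩
      exact congrArg Subtype.val (mem_center_iff.1 hy ⟨c, hc⟩)
    · rintro ⟨h1, h2⟩
      refine ⟨⟨x, h1⟩, ?_, rfl⟩
      apply mem_center_iff.2
      intro g
      exact Subtype.ext (h2 g g.2)
  have hAc : IsMulCommutative A := ⟨⟨fun a b => Subtype.ext
    (((hmem b).1 b.2).2 a ((hmem a).1 a.2).1)⟩⟩
  have hAn : ∀ (h : G) (x : G), x ∈ A → h⁻¹ * x * h ∈ A := by
    intro h x hx
    rw [hmem] at hx ⊢
    constructor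
    · have := hCn.conj_mem x hx.1 h⁻¹
      rwa [inv_inv] at this
    · intro c hc
      have h1 := hx.2 (h * c * h⁻¹) (hCn.conj_mem c hc h)
      calc c * (h⁻¹ * x * h) = h⁻¹ * (h * c * h⁻¹ * x) * h := by group
        _ = h⁻¹ * (x * (h * c * h⁻¹)) * h := by rw [h1]
        _ = h⁻¹ * x * h * c := by group
  have hu' : ∀ g : G, g⁻¹ * α g ∈ A := by
    intro g
    rw [hmem]
    refine ⟨hu g, fun c hc => ?_⟩
    have h1 : g * c * g⁻¹ ∈ C := hCn.conj_mem c hc g
    have h2 : α g * c * (α g)⁻¹ = g * c * g⁻¹ := by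
      rw [← hC _ h1, map_mul, map_mul, map_inv, hC c hc]
    have h3 : α g * c = g * c * g⁻¹ * α g := by rw [← h2]; group
    rw [mul_assoc, h3]
    group
  let act : G → A →* A := fun n =>
    { toFun := fun x => ⟨n⁻¹ * x * n, hAn n x x.2⟩
      map_one' := by
        apply Subtype.ext
        change n⁻¹ * 1 * n = 1
        group
      map_mul' := fun x y => by
        apply Subtype.ext
        change n⁻¹ * (x * y) * n = n⁻¹ * x * n * (n⁻¹ * y * n)
        group }
  let f : G → A := fun n => ⟨n⁻¹ * α n, hu' n⟩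
  have hf : ∀ x h, f (x * h) = act h (f x) * f h := by
    intro x h
    apply Subtype.ext
    change (x * h)⁻¹ * α (x * h) = h⁻¹ * (x⁻¹ * α x) * h * (h⁻¹ * α h)
    rw [map_mul]
    group
  have hP1 : ∀ x ∈ (P : Subgroup G), f x = 1 := by
    intro x hx
    apply Subtype.ext
    change x⁻¹ * α x = 1
    rw [hP x hx, inv_mul_cancel]
  have hco : (Nat.card A).Coprime (P : Subgroup G).index := by
    obtain ⟨n, hn⟩ := IsPGroup.iff_card.1 (hA.map C.subtype)
    rw [show Nat.card A = p ^ n from hn]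
    exact Nat.Coprime.pow_left _ ((Nat.Prime.coprime_iff_not_dvd hp.out).2 P.not_dvd_index)
  obtain ⟨b, hb⟩ := Pool.Agent.H80.AutAb.cocycle (P : Subgroup G) act f hf hP1 hco
  refine ⟨(b : G)⁻¹, A.inv_mem b.2, ?_⟩
  ext h
  have h1 := congrArg (fun z : A => (z : G)) (hb h)
  have h2 : h⁻¹ * α h = b * (h⁻¹ * b * h)⁻¹ := h1
  have h3 : (b : G) * (h⁻¹ * b * h)⁻¹ = (h⁻¹ * b * h)⁻¹ * b := by
    have := congrArg (fun z : A => (z : G)) (mul_comm b (act h b)⁻¹)
    exact this
  rw [MulAut.conj_apply, inv_inv]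
  rw [h3] at h2
  have h4 : α h = h * ((h⁻¹ * b * h)⁻¹ * b) := by rw [← h2]; group
  rw [h4]
  group

/-- the counting form of `conj_of_fix` -/
theorem range_le {G S : Type*} [Group G] [Finite G] [Group S] {p : ℕ} [hp : Fact p.Prime]
    (φ : S →* MulAut G) (C : Subgroup G) [hCn : C.Normal]
    (hA : IsPGroup p (Subgroup.center C)) (P : Sylow p G)
    (hP : ∀ s, ∀ x ∈ (P : Subgroup G), φ s x = x) (hC : ∀ s, ∀ x ∈ C, φ s x = x)
    (hu : ∀ s g, g⁻¹ * φ s g ∈ C) (hZ : Subgroup.center G ≤ C) :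
    Nat.card φ.range * Nat.card (Subgroup.center G) ≤ Nat.card (Subgroup.center C) := by
  let A : Subgroup G := (Subgroup.center C).map C.subtype
  have hcA : Nat.card A = Nat.card (Subgroup.center C) :=
    Nat.card_congr ((Subgroup.center C).equivMapOfInjective _ C.subtype_injective).toEquiv.symm
  let f : A →* MulAut G := MulAut.conj.comp A.subtype
  have h1 : φ.range ≤ f.range := by
    rintro _ ⟨s, rfl⟩
    obtain ⟨m, hm, hm'⟩ := conj_of_fix C hA P (φ s) (hP s) (hC s) (hu s)
    exact ⟨⟨m, hm⟩, hm'.symm⟩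
  have h2 : Nat.card (Subgroup.center G) ≤ Nat.card f.ker := by
    let j : Subgroup.center G → f.ker := fun z => ⟨⟨z, ⟨⟨z, hZ z.2⟩, by
      apply mem_center_iff.2
      intro g
      exact Subtype.ext (mem_center_iff.1 z.2 g), rfl⟩⟩, by
      rw [MonoidHom.mem_ker]
      ext x
      change (z : G) * x * (z : G)⁻¹ = x
      rw [← mem_center_iff.1 z.2 x, mul_inv_cancel_right]⟩
    apply Nat.card_le_card_of_injective j
    intro a b hab
    have h3 := congrArg (fun t : f.ker => ((t : A) : G)) hab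
    exact Subtype.ext h3
  have h3 : Nat.card A = Nat.card f.range * Nat.card f.ker := by
    rw [← index_ker, mul_comm]
    exact (f.ker.card_mul_index).symm
  have h4 : Nat.card φ.range ≤ Nat.card f.range := Nat.le_of_dvd Nat.card_pos
    (card_dvd_of_le h1)
  rw [← hcA, h3]
  exact Nat.mul_le_mul h4 h2

/-- an automorphism fixing a Sylow `p`-subgroup pointwise and trivial modulo the center is trivial
if the center is a `p`-group -/
theorem eq_self_of_quot {C : Type*} [Group C] [Finite C] {p : ℕ} [hp : Fact p.Prime]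
    (hZ : IsPGroup p (Subgroup.center C)) (Q : Sylow p C) (α : MulAut C)
    (hQ : ∀ x ∈ (Q : Subgroup C), α x = x) (h : ∀ x, x⁻¹ * α x ∈ Subgroup.center C) (x : C) :
    α x = x := by
  let f : C →* Subgroup.center C :=
    { toFun := fun x => ⟨x⁻¹ * α x, h x⟩
      map_one' := by
        apply Subtype.ext
        change (1 : C)⁻¹ * α 1 = 1
        rw [map_one, inv_one, one_mul]
      map_mul' := fun x y => by
        apply Subtype.ext
        change (x * y)⁻¹ * α (x * y) = x⁻¹ * α x * (y⁻¹ * α y)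
        rw [map_mul]
        have h1 := mem_center_iff.1 (h x) y⁻¹
        calc (x * y)⁻¹ * (α x * α y) = y⁻¹ * (x⁻¹ * α x) * α y := by group
          _ = x⁻¹ * α x * y⁻¹ * α y := by rw [h1]
          _ = _ := by group }
  have h1 : (Q : Subgroup C) ≤ f.ker := by
    intro x hx
    rw [MonoidHom.mem_ker]
    apply Subtype.ext
    change x⁻¹ * α x = 1
    rw [hQ x hx, inv_mul_cancel]
  have h2 : Nat.card f.range ∣ (Q : Subgroup C).index := by
    rw [← index_ker]
    exact index_dvd_of_le h1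
  obtain ⟨n, hn⟩ := IsPGroup.iff_card.1 (hZ.to_subgroup f.range)
  have h3 : Nat.card f.range = 1 := by
    rw [hn] at h2 ⊢
    rcases Nat.eq_zero_or_pos n with h0 | h0
    · rw [h0, pow_zero]
    · exact absurd ((dvd_pow_self p h0.ne').trans h2) Q.not_dvd_index
  have h4 : f x = 1 := by
    have h5 := (Subgroup.card_eq_one.1 h3)
    have h6 : f x ∈ f.range := ⟨x, rfl⟩
    rwa [h5, mem_bot] at h6
  have h7 : x⁻¹ * α x = 1 := congrArg Subtype.val h4
  exact (inv_mul_eq_one.1 h7).symm

end Pool.Agent.H55.NEU
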