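import Pool.Agent.H55.NEU.Basic
import Pool.Agent.H14.AutRed

/-! The bound for groups of automorphisms of `p`-power order which fix a Sylow `p`-subgroup
pointwise. -/

set_option autoImplicit false
set_option linter.unusedVariables false

namespace Pool.Agent.H55.NEU

open Subgroup Pool.Agent.H14
open scoped Pointwise

universe u v

/-- Every `p`-group of automorphisms of `L` fixing a Sylow `p`-subgroup `S` pointwise has order at
most `|S|`. -/
def CentBound (p : ℕ) (L : Type*) [Group L] : Prop :=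
  ∀ (S : Sylow p L) (X : Subgroup (MulAut L)), IsPGroup p X → (∀ α ∈ X, ∀ x ∈ S, α x = x) →
    Nat.card X ≤ Nat.card S

theorem CentBound.congr {p : ℕ} [hp : Fact p.Prime] {L L' : Type*} [Group L] [Group L'] [Finite L]
    (e : L ≃* L') (h : CentBound p L) : CentBound p L' := by
  have hfin : Finite L' := Finite.of_equiv L e.toEquiv
  intro S X hX hfix
  let S' : Sylow p L := S.mapSurjective (f := e.symm.toMonoidHom) e.symm.surjective
  let X' : Subgroup (MulAut L) := X.map (MulAut.congr e.symm).toMonoidHom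
  have hX' : IsPGroup p X' := hX.map _
  have hfix' : ∀ α ∈ X', ∀ x ∈ S', α x = x := by
    rintro _ ⟨β, hβ, rfl⟩ x hx
    obtain ⟨y, hy, rfl⟩ := hx
    change e.symm (β (e (e.symm y))) = e.symm y
    rw [e.apply_symm_apply, hfix β hβ y hy]
  have h1 := h S' X' hX' hfix'
  have h2 : Nat.card X' = Nat.card X :=
    Nat.card_congr (X.equivMapOfInjective _ (MulAut.congr e.symm).injective).toEquiv.symm
  have h3 : Nat.card S' = Nat.card S :=
    Nat.card_congr ((S : Subgroup L').equivMapOfInjective _ e.symm.injective).toEquiv.symm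
  rwa [h2, h3] at h1

/-- Every nonabelian simple subnormal subgroup of order divisible by `p` satisfies `CentBound`. -/
def Simp (p : ℕ) (G : Type*) [Group G] : Prop :=
  ∀ L : Subgroup G, L.IsSubnormal → IsSimpleGroup L → (∃ a b : L, a * b ≠ b * a) →
    p ∣ Nat.card L → CentBound p L

/-- Every `H / K`, where `H` is subnormal, `K ≤ Z(H)`, and `H / K` is nonabelian simple of order
divisible by `p`, satisfies `CentBound`. -/
def QS (p : ℕ) (G : Type*) [Group G] : Prop :=
  ∀ H : Subgroup G, H.IsSubnormal → ∀ (K : Subgroup H) (_ : K.Normal), K ≤ Subgroup.center H →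
    IsSimpleGroup (H ⧸ K) → (∃ a b : H ⧸ K, a * b ≠ b * a) → p ∣ Nat.card (H ⧸ K) →
    CentBound p (H ⧸ K)

theorem Simp.normal {p : ℕ} [hp : Fact p.Prime] {G : Type*} [Group G] [Finite G] (h : Simp p G)
    (N : Subgroup G) [hN : N.Normal] : Simp p N := by
  intro L hL hs hab hd
  let L' : Subgroup G := L.map N.subtype
  have hL' : L'.IsSubnormal := hL.trans' hN.isSubnormal
  let e : L ≃* L' := L.equivMapOfInjective _ N.subtype_injective
  have hs' : IsSimpleGroup L' := e.symm.isSimpleGroup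
  have hd' : p ∣ Nat.card L' := by rwa [Nat.card_congr e.toEquiv.symm]
  have hab' : ∃ a b : L', a * b ≠ b * a := by
    obtain ⟨a, b, hne⟩ := hab
    refine ⟨e a, e b, fun hh => hne ?_⟩
    rw [← map_mul, ← map_mul] at hh
    exact e.injective hh
  exact (h L' hL' hs' hab' hd').congr e.symm

theorem card_range_of_forall {S A : Type*} [Group S] [Group A] (φ : S →* A)
    (h : ∀ s, φ s = 1) : Nat.card φ.range = 1 := by
  have h1 : φ.range = ⊥ := by
    rw [eq_bot_iff]
    rintro _ ⟨s, rfl⟩
    rw [h s]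
    exact mem_bot.2 rfl
  rw [h1, Subgroup.card_bot]

/-- a minimal normal subgroup inside a given one -/
theorem exists_min_normal_le {G : Type*} [Group G] [Finite G] (N : Subgroup G) (hN : N.Normal)
    (hb : N ≠ ⊥) : ∃ M : Subgroup G, M.Normal ∧ M ≠ ⊥ ∧ M ≤ N ∧
      ∀ K : Subgroup G, K.Normal → K ≤ M → K ≠ ⊥ → K = M := by
  let S : Set (Subgroup G) := {K | K.Normal ∧ K ≠ ⊥ ∧ K ≤ N}
  have hS : S.Nonempty := ⟨N, hN, hb, le_rfl⟩
  obtain ⟨M, hM⟩ := S.toFinite.exists_minimal hS
  refine ⟨M, hM.prop.1, hM.prop.2.1, hM.prop.2.2, fun K hK hle hb => ?_⟩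
  exact le_antisymm hle (hM.le_of_le ⟨hK, hb, hle.trans hM.prop.2.2⟩ hle)

/-- The bound for groups without nontrivial normal `p`-subgroups and `p'`-subgroups. -/
theorem bound0 {p : ℕ} [hp : Fact p.Prime] (n : ℕ) : ∀ (G : Type u) [Group G] [Finite G],
    Nat.card G = n → NoP p G → NoN p G → Simp p G →
    ∀ (S : Type v) [Group S] [Finite S], IsPGroup p S → ∀ (φ : S →* MulAut G) (P : Sylow p G),
    (∀ s, ∀ x ∈ (P : Subgroup G), φ s x = x) → Nat.card φ.range ≤ Nat.card (P : Subgroup G) := by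
  induction n using Nat.strong_induction_on with
  | _ n ih =>
  intro G _ _ hn hP hN hSi S _ _ hS φ P hfix
  have hPpos : 0 < Nat.card (P : Subgroup G) := Nat.card_pos
  -- the trivial group
  rcases subsingleton_or_nontrivial G with hsub | hnt
  · rw [card_range_of_forall φ (fun s => by ext x; exact Subsingleton.elim _ _)]
    exact hPpos
  -- simple groups
  by_cases hsimp : ∀ N : Subgroup G, N.Normal → N = ⊥ ∨ N = ⊤
  · have hs : IsSimpleGroup G := ⟨fun N hN' => hsimp N hN'⟩
    have hd : p ∣ Nat.card G := by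
      by_contra hnd
      have h1 : (⊤ : Subgroup G) = ⊥ := hP ⊤ inferInstance (by rwa [Subgroup.card_top])
      exact top_ne_bot h1
    have hab : ∃ a b : G, a * b ≠ b * a := by
      by_contra hcon
      push Not at hcon
      have h1 : IsPGroup p (⊤ : Subgroup G) := hP.isPGroup ⊤ (fun a _ b _ => hcon a b)
      exact top_ne_bot (hN ⊤ inferInstance h1)
    let e : (⊤ : Subgroup G) ≃* G := Subgroup.topEquiv
    have hs' : IsSimpleGroup (⊤ : Subgroup G) := e.isSimpleGroup
    have hd' : p ∣ Nat.card (⊤ : Subgroup G) := by rwa [Subgroup.card_top]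
    have hab' : ∃ a b : (⊤ : Subgroup G), a * b ≠ b * a := by
      obtain ⟨a, b, hne⟩ := hab
      exact ⟨⟨a, mem_top a⟩, ⟨b, mem_top b⟩, fun hh => hne (congrArg Subtype.val hh)⟩
    have hcb : CentBound p G :=
      (hSi ⊤ normal_top.isSubnormal hs' hab' hd').congr e
    apply hcb P φ.range
    · exact hS.of_surjective φ.rangeRestrict φ.rangeRestrict_surjective
    · rintro _ ⟨s, rfl⟩ x hx
      exact hfix s x hx
  -- a proper nontrivial minimal normal subgroup
  push Not at hsimp
  obtain ⟨N0, hN0n, hN0b, hN0t⟩ := hsimp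
  obtain ⟨V, hVn, hVb, hVle, hVmin⟩ := exists_min_normal_le N0 hN0n hN0b
  have hVt : V ≠ ⊤ := fun h => hN0t (top_le_iff.1 (h ▸ hVle))
  have hVd : p ∣ Nat.card V := by
    by_contra hnd
    exact hVb (hP V hVn hnd)
  let C : Subgroup G := centralizer (V : Set G)
  have hCn : C.Normal := Subgroup.normal_centralizer
  have hVC : V ⊓ C = ⊥ := by
    by_contra hne
    have h1 := hVmin (V ⊓ C) inferInstance inf_le_left hne
    have h2 : V ≤ C := by rw [← h1]; exact inf_le_right
    have h3 : IsPGroup p V := hP.isPGroup V (fun a ha b hb =>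
      (mem_centralizer_iff.1 (h2 hb) a ha))
    exact hVb (hN V hVn h3)
  have hCt : C ≠ ⊤ := by
    intro h
    rw [h, inf_top_eq] at hVC
    exact hVb hVC
  obtain ⟨QV, hQV⟩ := sylInf P V
  obtain ⟨QC, hQC⟩ := sylInf P C
  -- `V` is invariant
  have hVle' : ∀ s, V ≤ V.map (φ s).toMonoidHom := by
    intro s
    have hn' : (V.map (φ s).toMonoidHom).Normal := hVn.map _ (φ s).surjective
    have hne : V ⊓ V.map (φ s).toMonoidHom ≠ ⊥ := by
      intro hbot
      have h1 : (QV : Subgroup V) ≠ ⊥ := QV.ne_bot_of_dvd_card hVd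
      obtain ⟨x, hx, hx1⟩ : ∃ x ∈ (QV : Subgroup V), x ≠ 1 := by
        obtain ⟨x, hx⟩ := Subgroup.ne_bot_iff_exists_ne_one.1 h1
        exact ⟨x.1, x.2, fun h => hx (Subtype.ext h)⟩
      have hxP : (x : G) ∈ (P : Subgroup G) := by
        rw [hQV] at hx
        exact hx
      have h2 : (x : G) ∈ V ⊓ V.map (φ s).toMonoidHom :=
        ⟨x.2, ⟨x, x.2, hfix s x hxP⟩⟩
      rw [hbot, mem_bot] at h2
      exact hx1 (Subtype.ext h2)
    have h1 := hVmin _ (inferInstance : (V ⊓ V.map (φ s).toMonoidHom).Normal) inf_le_left hne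
    exact inf_eq_left.1 h1
  have hVinv : ∀ s, ∀ x ∈ V, φ s x ∈ V := by
    intro s x hx
    have h1 : V = V.map (φ s).toMonoidHom := by
      apply Subgroup.eq_of_le_of_card_ge (hVle' s)
      rw [Nat.card_congr (V.equivMapOfInjective _ (φ s).injective).toEquiv.symm]
    rw [h1]
    exact ⟨x, hx, rfl⟩
  have hlt : ∀ H : Subgroup G, H ≠ ⊤ → Nat.card H < n := by
    intro H hH
    rw [← hn]
    exact lt_of_le_of_ne (Subgroup.card_le_card_group H)
      (fun h => hH (Subgroup.card_eq_iff_eq_top H |>.1 h))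
  -- the action on `V`
  let φV : S →* MulAut V := resHom φ V hVinv
  have hfV : ∀ s, ∀ x ∈ (QV : Subgroup V), φV s x = x := by
    intro s x hx
    apply Subtype.ext
    rw [hQV] at hx
    exact hfix s x hx
  have b1 : Nat.card φV.range ≤ Nat.card (QV : Subgroup V) :=
    ih _ (hlt V hVt) V rfl (hP.normal V) (hN.normal V) (hSi.normal V) S hS φV QV hfV
  -- the kernel
  have hkV : ∀ s : φV.ker, ∀ x ∈ V, φ s x = x := by
    intro s x hx
    have h1 : φV s = 1 := s.2
    exact congrArg (fun f : MulAut V => ((f ⟨x, hx⟩ : V) : G)) h1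
  have hdev : ∀ s : φV.ker, ∀ g, g⁻¹ * φ s g ∈ C := by
    intro s g
    apply mem_centralizer_iff.2
    intro x hx
    have h1 : g * x * g⁻¹ ∈ V := hVn.conj_mem x hx g
    have h2 : φ s g * x * (φ s g)⁻¹ = g * x * g⁻¹ := by
      rw [← hkV s _ h1, map_mul, map_mul, map_inv, hkV s x hx]
    have h3 : φ s g * x = g * x * g⁻¹ * φ s g := by rw [← h2]; group
    rw [mul_assoc, h3]
    group
  have hCinv : ∀ s : φV.ker, ∀ x ∈ C, (φ.comp φV.ker.subtype) s x ∈ C := by
    intro s x hx
    have h1 : φ s x = x * (x⁻¹ * φ s x) := by group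
    change φ s x ∈ C
    rw [h1]
    exact C.mul_mem hx (hdev s x)
  let φC : φV.ker →* MulAut C := resHom (φ.comp φV.ker.subtype) C hCinv
  have hfC : ∀ s, ∀ x ∈ (QC : Subgroup C), φC s x = x := by
    intro s x hx
    apply Subtype.ext
    rw [hQC] at hx
    exact hfix s x hx
  have b2 : Nat.card φC.range ≤ Nat.card (QC : Subgroup C) :=
    ih _ (hlt C hCt) C rfl (hP.normal C) (hN.normal C) (hSi.normal C) φV.ker
      (hS.to_subgroup φV.ker) φC QC hfC
  have hcb : ∀ z ∈ C, (∀ c ∈ C, c * z = z * c) → z = 1 := by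
    intro z hz hzc
    let A : Subgroup G := C ⊓ centralizer (C : Set G)
    have hAn : A.Normal := by
      have : (centralizer (C : Set G)).Normal := Subgroup.normal_centralizer
      infer_instance
    have hAp : IsPGroup p A := hP.isPGroup A (fun a ha b hb =>
      mem_centralizer_iff.1 hb.2 a ha.1)
    have hA := hN A hAn hAp
    have h1 : z ∈ A := ⟨hz, mem_centralizer_iff.2 hzc⟩
    rwa [hA, mem_bot] at h1
  have b3 : Nat.card ((φ.comp φV.ker.subtype).comp φC.ker.subtype).range = 1 := by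
    apply card_range_of_forall
    intro s
    have hkC : ∀ x ∈ C, φ (s : φV.ker) x = x := by
      intro x hx
      have h1 : φC s = 1 := s.2
      exact congrArg (fun f : MulAut C => ((f ⟨x, hx⟩ : C) : G)) h1
    ext g
    change φ (s : φV.ker) g = g
    have h1 := hcb (g⁻¹ * φ (s : φV.ker) g) (hdev s g) (by
      intro c hc
      have h1 : g * c * g⁻¹ ∈ C := hCn.conj_mem c hc g
      have h2 : φ (s : φV.ker) g * c * (φ (s : φV.ker) g)⁻¹ = g * c * g⁻¹ := by
        rw [← hkC _ h1, map_mul, map_mul, map_inv, hkC c hc]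
      have h3 : φ (s : φV.ker) g * c = g * c * g⁻¹ * φ (s : φV.ker) g := by rw [← h2]; group
      rw [mul_assoc, h3]
      group)
    exact (inv_mul_eq_one.1 h1).symm
  -- the product
  have b4 : Nat.card (QV : Subgroup V) * Nat.card (QC : Subgroup C) ≤
      Nat.card (P : Subgroup G) := by
    rw [← Nat.card_prod]
    let j : ↥(QV : Subgroup V) × ↥(QC : Subgroup C) → ↥(P : Subgroup G) := fun t =>
      ⟨((t.1 : V) : G) * ((t.2 : C) : G), by
        have h1 : (t.1 : V) ∈ (P : Subgroup G).subgroupOf V := by rw [← hQV]; exact t.1.2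
        have h2 : (t.2 : C) ∈ (P : Subgroup G).subgroupOf C := by rw [← hQC]; exact t.2.2
        exact mul_mem h1 h2⟩
    apply Nat.card_le_card_of_injective j
    rintro ⟨a, b⟩ ⟨c, d⟩ hh
    have h1 : ((a : V) : G) * ((b : C) : G) = ((c : V) : G) * ((d : C) : G) :=
      congrArg Subtype.val hh
    have h2 : (((c : V) : G))⁻¹ * ((a : V) : G) = ((d : C) : G) * (((b : C) : G))⁻¹ := by
      rw [inv_mul_eq_iff_eq_mul, ← mul_assoc, ← h1, mul_inv_cancel_right]
    have h3 : (((c : V) : G))⁻¹ * ((a : V) : G) ∈ V ⊓ C := by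
      refine ⟨V.mul_mem (V.inv_mem (c : V).2) (a : V).2, ?_⟩
      have h5 : ((d : C) : G) * (((b : C) : G))⁻¹ ∈ C := C.mul_mem (d : C).2 (C.inv_mem (b : C).2)
      rw [← h2] at h5
      exact h5
    rw [hVC, mem_bot] at h3
    have h4 := h3
    rw [h2] at h4
    have e1 : ((c : V) : G) = ((a : V) : G) := inv_mul_eq_one.1 h3
    have e2 : ((d : C) : G) = ((b : C) : G) := mul_inv_eq_one.1 h4
    rw [Prod.mk.injEq]
    exact ⟨Subtype.ext (Subtype.ext e1.symm), Subtype.ext (Subtype.ext e2.symm)⟩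
  have c1 := card_range_chain φ φV
  have c2 := card_range_chain (φ.comp φV.ker.subtype) φC
  rw [b3, mul_one] at c2
  calc Nat.card φ.range ≤ Nat.card φV.range * Nat.card (φ.comp φV.ker.subtype).range := c1
    _ ≤ Nat.card (QV : Subgroup V) * Nat.card (QC : Subgroup C) :=
      Nat.mul_le_mul b1 (c2.trans b2)
    _ ≤ _ := b4

/-- The bound for groups without nontrivial normal `p'`-subgroups. -/
theorem bound1 {p : ℕ} [hp : Fact p.Prime] {G : Type u} [Group G] [Finite G]
    (hP : NoP p G) (hQ : QS p G) {S : Type v} [Group S] [Finite S] (hS : IsPGroup p S)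
    (φ : S →* MulAut G) (P : Sylow p G) (hfix : ∀ s, ∀ x ∈ (P : Subgroup G), φ s x = x) :
    Nat.card φ.range * Nat.card (Subgroup.center G) ≤ Nat.card (P : Subgroup G) := by
  obtain ⟨O, hOc, hOp, hOmax⟩ := exists_op p G
  have hOP : O ≤ (P : Subgroup G) := hOp.le_sylow_of_normal P
  let C : Subgroup G := centralizer (O : Set G)
  have hCn : C.Normal := Subgroup.normal_centralizer
  have hOn : O.Normal := inferInstance
  have hdev : ∀ s : S, ∀ g, g⁻¹ * φ s g ∈ C := by
    intro s g
    apply mem_centralizer_iff.2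
    intro x hx
    have h1 : g * x * g⁻¹ ∈ O := hOn.conj_mem x hx g
    have h2 : φ s g * x * (φ s g)⁻¹ = g * x * g⁻¹ := by
      rw [← hfix s _ (hOP h1), map_mul, map_mul, map_inv, hfix s x (hOP hx)]
    have h3 : φ s g * x = g * x * g⁻¹ * φ s g := by rw [← h2]; group
    rw [mul_assoc, h3]
    group
  have hCinv : ∀ s : S, ∀ x ∈ C, φ s x ∈ C := by
    intro s x hx
    have h1 : φ s x = x * (x⁻¹ * φ s x) := by group
    rw [h1]
    exact C.mul_mem hx (hdev s x)
  obtain ⟨QC, hQC⟩ := sylInf P C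
  let Z : Subgroup C := Subgroup.center C
  have hPC : NoP p C := hP.normal C
  have hZp : IsPGroup p Z := hPC.center
  have hZQ : Z ≤ (QC : Subgroup C) := hZp.le_sylow_of_normal QC
  let φC : S →* MulAut C := resHom φ C hCinv
  have hfC : ∀ s, ∀ x ∈ (QC : Subgroup C), φC s x = x := by
    intro s x hx
    apply Subtype.ext
    rw [hQC] at hx
    exact hfix s x hx
  let ψ : S →* MulAut (C ⧸ Z) := (quotHom Z).comp φC
  let QZ : Sylow p (C ⧸ Z) := QC.mapSurjective (QuotientGroup.mk'_surjective Z)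
  have hfZ : ∀ s, ∀ x ∈ (QZ : Subgroup (C ⧸ Z)), ψ s x = x := by
    rintro s _ ⟨y, hy, rfl⟩
    change (QuotientGroup.mk (φC s y) : C ⧸ Z) = QuotientGroup.mk y
    rw [hfC s y hy]
  -- properties of `C ⧸ Z`
  have q1 : NoP p (C ⧸ Z) := hPC.quotient Z le_rfl hZp
  have hOC : ∀ K : Subgroup C, K.Normal → IsPGroup p K → K ≤ Z := by
    intro K hK hKp
    obtain ⟨O', hO'c, hO'p, hO'max⟩ := exists_op p C
    refine (hO'max K hK hKp).trans ?_
    have h1 : (O'.map C.subtype).Normal := ConjAct.normal_of_characteristic_of_normal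
    have h2 : O'.map C.subtype ≤ O := hOmax _ h1 (hO'p.map _)
    intro x hx
    apply mem_center_iff.2
    intro g
    apply Subtype.ext
    have h3 : (x : G) ∈ O := h2 ⟨x, hx, rfl⟩
    exact (mem_centralizer_iff.1 g.2 (x : G) h3).symm
  have q2 : NoN p (C ⧸ Z) := by
    intro K hK hKp
    have h1 : IsPGroup p (K.comap (QuotientGroup.mk' Z)) := by
      apply hKp.comap_of_ker_isPGroup
      rw [QuotientGroup.ker_mk']
      exact hZp
    have h2 := hOC _ (hK.comap _) h1
    rw [eq_bot_iff]
    intro y hy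
    obtain ⟨x, rfl⟩ := QuotientGroup.mk'_surjective Z y
    exact mem_bot.2 ((QuotientGroup.eq_one_iff x).2 (h2 hy))
  have q3 : Simp p (C ⧸ Z) := by
    intro L hL hs hab hd
    let H0 : Subgroup C := L.comap (QuotientGroup.mk' Z)
    have hH0 : H0.IsSubnormal := hL.comap _
    let H : Subgroup G := H0.map C.subtype
    have hH : H.IsSubnormal := hH0.trans' hCn.isSubnormal
    let e0 : H0 ≃* H := H0.equivMapOfInjective _ C.subtype_injective
    let f : H0 →* L := (QuotientGroup.mk' Z).subgroupComap L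
    have hf : Function.Surjective f := by
      rintro ⟨x, hx⟩
      obtain ⟨x, rfl⟩ := QuotientGroup.mk_surjective x
      exact ⟨⟨x, hx⟩, rfl⟩
    let g : H →* L := f.comp e0.symm.toMonoidHom
    have hg : Function.Surjective g := hf.comp e0.symm.surjective
    let e : (H ⧸ g.ker) ≃* L := QuotientGroup.quotientKerEquivOfSurjective g hg
    have hker : g.ker ≤ Subgroup.center H := by
      intro x hx
      obtain ⟨y, rfl⟩ := e0.surjective x
      have h1 : f y = 1 := by
        have h2 : f (e0.symm (e0 y)) = 1 := hx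
        rwa [e0.symm_apply_apply] at h2
      have h2 : (y : C) ∈ Z := (QuotientGroup.eq_one_iff (y : C)).1 (congrArg Subtype.val h1)
      apply mem_center_iff.2
      intro w
      obtain ⟨w, rfl⟩ := e0.surjective w
      rw [← map_mul, ← map_mul]
      congr 1
      exact Subtype.ext (mem_center_iff.1 h2 (w : C))
    have hs' : IsSimpleGroup (H ⧸ g.ker) := e.isSimpleGroup
    have hd' : p ∣ Nat.card (H ⧸ g.ker) := by rwa [Nat.card_congr e.toEquiv]
    have hab' : ∃ a b : H ⧸ g.ker, a * b ≠ b * a := by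
      obtain ⟨a, b, hne⟩ := hab
      refine ⟨e.symm a, e.symm b, fun hh => hne ?_⟩
      rw [← map_mul, ← map_mul] at hh
      exact e.symm.injective hh
    exact (hQ H hH g.ker inferInstance hker hs' hab' hd').congr e
  have b1 : Nat.card ψ.range ≤ Nat.card (QZ : Subgroup (C ⧸ Z)) :=
    bound0 _ (C ⧸ Z) rfl q1 q2 q3 S hS ψ QZ hfZ
  -- the orders
  have b2 : Nat.card (QZ : Subgroup (C ⧸ Z)) * Nat.card Z = Nat.card (QC : Subgroup C) := by
    let r : (QC : Subgroup C) →* C ⧸ Z := (QuotientGroup.mk' Z).comp (QC : Subgroup C).subtype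
    have h1 : r.range = (QZ : Subgroup (C ⧸ Z)) := by
      rw [MonoidHom.range_comp, range_subtype]
      rfl
    have h2 : r.ker = Z.subgroupOf QC := by
      ext x
      rw [MonoidHom.mem_ker, mem_subgroupOf]
      exact QuotientGroup.eq_one_iff (x : C)
    have h3 : Nat.card (Z.subgroupOf (QC : Subgroup C)) = Nat.card Z :=
      Nat.card_congr (Subgroup.subgroupOfEquivOfLe hZQ).toEquiv
    rw [← h1, ← h3, ← h2, ← index_ker, mul_comm]
    exact r.ker.card_mul_index
  -- the kernel fixes `C` pointwise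
  have hk : ∀ s : ψ.ker, ∀ x ∈ C, φ s x = x := by
    intro s x hx
    have h1 : ψ s = 1 := s.2
    have h2 := eq_self_of_quot hZp QC (φC s) (hfC s) (by
      intro y
      have h3 := congrArg (fun f : MulAut (C ⧸ Z) => f (QuotientGroup.mk y)) h1
      have h4 : (QuotientGroup.mk (φC s y) : C ⧸ Z) = QuotientGroup.mk y := h3
      exact QuotientGroup.eq.1 h4.symm) ⟨x, hx⟩
    exact congrArg Subtype.val h2
  have hZC : Subgroup.center G ≤ C := center_le_centralizer _
  have b3 : Nat.card (φ.comp ψ.ker.subtype).range * Nat.card (Subgroup.center G) ≤ Nat.card Z :=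
    range_le (φ.comp ψ.ker.subtype) C hZp P (fun s x hx => hfix s x hx) (fun s x hx => hk s x hx)
      (fun s g => hdev s g) hZC
  have b4 : Nat.card (QC : Subgroup C) ≤ Nat.card (P : Subgroup G) := by
    let j : ↥(QC : Subgroup C) → ↥(P : Subgroup G) := fun t => ⟨((t : C) : G), by
      have h1 : (t : C) ∈ (P : Subgroup G).subgroupOf C := by rw [← hQC]; exact t.2
      exact h1⟩
    apply Nat.card_le_card_of_injective j
    intro a b hh
    exact Subtype.ext (Subtype.ext (congrArg (fun t : (P : Subgroup G) => (t : G)) hh))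
  have c1 := card_range_chain φ ψ
  calc Nat.card φ.range * Nat.card (Subgroup.center G)
      ≤ Nat.card ψ.range * Nat.card (φ.comp ψ.ker.subtype).range *
        Nat.card (Subgroup.center G) := Nat.mul_le_mul_right _ c1
    _ = Nat.card ψ.range * (Nat.card (φ.comp ψ.ker.subtype).range *
        Nat.card (Subgroup.center G)) := by ring
    _ ≤ Nat.card (QZ : Subgroup (C ⧸ Z)) * Nat.card Z := Nat.mul_le_mul b1 b3
    _ = Nat.card (QC : Subgroup C) := b2
    _ ≤ _ := b4

end Pool.Agent.H55.NEU
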