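import Pool.Agent.H55.NEU.Bound

/-! Criteria for `CentBound`. -/

set_option autoImplicit false
set_option linter.unusedVariables false

namespace Pool.Agent.H55.NEU

open Subgroup
open scoped Pointwise

theorem conj_range_normal {L : Type*} [Group L] : (MulAut.conj : L →* MulAut L).range.Normal := by
  constructor
  rintro _ ⟨g, rfl⟩ α
  refine ⟨α g, ?_⟩
  ext x
  change α g * x * (α g)⁻¹ = α (g * (α⁻¹ x) * g⁻¹)
  rw [map_mul, map_mul, map_inv, MulAut.apply_inv_self]

/-- inner automorphisms of `p`-power order fixing a Sylow `p`-subgroup pointwise -/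
theorem inner_bound {p : ℕ} [hp : Fact p.Prime] {L : Type*} [Group L] [Finite L]
    (hc : Subgroup.center L = ⊥) (S : Sylow p L) (X : Subgroup (MulAut L)) (hX : IsPGroup p X)
    (hfix : ∀ α ∈ X, ∀ x ∈ (S : Subgroup L), α x = x) :
    Nat.card (X ⊓ (MulAut.conj : L →* MulAut L).range : Subgroup (MulAut L)) ≤
      Nat.card (Subgroup.center (S : Subgroup L)) := by
  have h1 : X ⊓ (MulAut.conj : L →* MulAut L).range ≤
      ((Subgroup.center (S : Subgroup L)).map (S : Subgroup L).subtype).map MulAut.conj := by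
    rintro _ ⟨hα, ⟨g, rfl⟩⟩
    have hg : ∀ x ∈ (S : Subgroup L), g * x * g⁻¹ = x := fun x hx => hfix _ hα x hx
    obtain ⟨k, hk⟩ := hX ⟨_, hα⟩
    have hk' : (MulAut.conj g : MulAut L) ^ p ^ k = 1 := congrArg Subtype.val hk
    have hgk : g ^ p ^ k = 1 := by
      rw [← map_pow] at hk'
      have h2 : g ^ p ^ k ∈ Subgroup.center L := by
        rw [mem_center_iff]
        intro x
        have h3 := congrArg (fun f : MulAut L => f x) hk'
        have h4 : g ^ p ^ k * x * (g ^ p ^ k)⁻¹ = x := h3
        exact (mul_inv_eq_iff_eq_mul.1 h4).symm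
      rwa [hc, mem_bot] at h2
    have hz : IsPGroup p (zpowers g) := by
      rintro ⟨y, hy⟩
      obtain ⟨n, rfl⟩ := mem_zpowers_iff.1 hy
      refine ⟨k, Subtype.ext ?_⟩
      change (g ^ n) ^ p ^ k = 1
      rw [← zpow_natCast, ← zpow_mul, mul_comm, zpow_mul, zpow_natCast, hgk, one_zpow]
    have hn : zpowers g ≤ normalizer ((S : Subgroup L) : Set L) := by
      rw [zpowers_le]
      apply mem_normalizer_iff.2
      intro x
      constructor
      · intro hx
        rw [hg x hx]
        exact hx
      · intro hx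
        have h3 := hg _ hx
        have h4 : g * x * g⁻¹ = x := by
          have h5 : g * x * g⁻¹ = g * (g * x * g⁻¹) * g⁻¹ := h3.symm
          have h6 : g⁻¹ * (g * x * g⁻¹) * g = g⁻¹ * (g * (g * x * g⁻¹) * g⁻¹) * g := by rw [← h5]
          have h7 : x = g * x * g⁻¹ := by
            calc x = g⁻¹ * (g * x * g⁻¹) * g := by group
              _ = g⁻¹ * (g * (g * x * g⁻¹) * g⁻¹) * g := h6
              _ = g * x * g⁻¹ := by group
          exact h7.symm
        rwa [h4] at hx
    have hsup : IsPGroup p (zpowers g ⊔ (S : Subgroup L) : Subgroup L) :=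
      hz.to_sup_of_normal_right' S.isPGroup' hn
    have h2 := S.is_maximal' hsup le_sup_right
    have hgS : g ∈ (S : Subgroup L) := by
      rw [← h2]
      exact (le_sup_left : zpowers g ≤ _) (mem_zpowers g)
    refine ⟨g, ⟨⟨g, hgS⟩, ?_, rfl⟩, rfl⟩
    apply mem_center_iff.2
    intro x
    exact Subtype.ext (mul_inv_eq_iff_eq_mul.1 (hg x x.2)).symm
  refine (Nat.le_of_dvd Nat.card_pos (card_dvd_of_le h1)).trans ?_
  exact (Nat.le_of_dvd Nat.card_pos (card_map_dvd _ _)).trans
    (Nat.le_of_dvd Nat.card_pos (card_map_dvd _ _))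

/-- `CentBound` from the order of the outer automorphism group. -/
theorem centBound_of_out {p : ℕ} [hp : Fact p.Prime] {L : Type*} [Group L] [Finite L]
    (hc : Subgroup.center L = ⊥)
    (h : ∀ S : Sylow p L, p ^ ((MulAut.conj : L →* MulAut L).range.index.factorization p) *
      Nat.card (Subgroup.center (S : Subgroup L)) ≤ Nat.card (S : Subgroup L)) :
    CentBound p L := by
  intro S X hX hfix
  let I : Subgroup (MulAut L) := (MulAut.conj : L →* MulAut L).range
  have hIn : I.Normal := conj_range_normal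
  have h1 : Nat.card (X ⊓ I : Subgroup (MulAut L)) * I.relIndex X = Nat.card X := by
    rw [← inf_relIndex_left, ← relIndex_bot_left, ← relIndex_bot_left]
    exact relIndex_mul_relIndex _ _ _ bot_le inf_le_left
  have h2 := inner_bound hc S X hX hfix
  obtain ⟨a, ha⟩ := IsPGroup.iff_card.1 hX
  have hdX : I.relIndex X ∣ p ^ a := by
    rw [← ha, ← h1]
    exact dvd_mul_left _ _
  obtain ⟨j, -, hj⟩ := (Nat.dvd_prime_pow hp.out).1 hdX
  have h3 : p ^ j ∣ I.index := by
    rw [← hj]
    exact relIndex_dvd_index_of_normal I X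
  have h4 : j ≤ I.index.factorization p :=
    (hp.out.pow_dvd_iff_le_factorization index_ne_zero_of_finite).1 h3
  calc Nat.card X = I.relIndex X * Nat.card (X ⊓ I : Subgroup (MulAut L)) := by
        rw [← h1, mul_comm]
    _ ≤ p ^ (I.index.factorization p) * Nat.card (Subgroup.center (S : Subgroup L)) := by
        rw [hj]
        exact Nat.mul_le_mul (Nat.pow_le_pow_right hp.out.pos h4) h2
    _ ≤ _ := h S

/-- If all automorphisms of `p`-power order fixing a Sylow `p`-subgroup pointwise are inner. -/
theorem centBound_of_inner {p : ℕ} [hp : Fact p.Prime] {L : Type*} [Group L] [Finite L]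
    (hc : Subgroup.center L = ⊥)
    (h : ∀ (S : Sylow p L) (α : MulAut L), (∃ k, α ^ p ^ k = 1) →
      (∀ x ∈ (S : Subgroup L), α x = x) → ∃ g : L, MulAut.conj g = α) :
    CentBound p L := by
  intro S X hX hfix
  have h1 : X ⊓ (MulAut.conj : L →* MulAut L).range = X := by
    rw [inf_eq_left]
    intro α hα
    apply h S α _ (hfix α hα)
    obtain ⟨k, hk⟩ := hX ⟨α, hα⟩
    exact ⟨k, congrArg Subtype.val hk⟩
  have h2 := inner_bound hc S X hX hfix
  rw [h1] at h2
  exact h2.trans (Nat.le_of_dvd Nat.card_pos (card_subgroup_dvd_card _))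

/-- the center of a nonabelian simple group -/
theorem center_eq_bot_of_simple {L : Type*} [Group L] [hs : IsSimpleGroup L]
    (hab : ∃ a b : L, a * b ≠ b * a) : Subgroup.center L = ⊥ := by
  rcases hs.eq_bot_or_eq_top_of_normal (Subgroup.center L) inferInstance with h | h
  · exact h
  · exfalso
    obtain ⟨a, b, hne⟩ := hab
    apply hne
    have h1 : b ∈ Subgroup.center L := by rw [h]; exact mem_top b
    exact mem_center_iff.1 h1 a

end Pool.Agent.H55.NEU
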