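import Pool.Agent.H55.NEU.Bound

/-! The `p`-part of the divisibility. -/

set_option autoImplicit false
set_option linter.unusedVariables false

namespace Pool.Agent.H55.NEU

open Subgroup Pool.Agent.H14
open scoped Pointwise

universe u

/-- The `r`-part of the divisibility, if the image of every `r`-group of automorphisms fixing a
Sylow subgroup in the automorphism group of `G / N` has order dividing `|G / Z(G)|`; here `N` is a
characteristic subgroup of order prime to `r`. -/
theorem rpart_red2 {G : Type u} [Group G] [Finite G] (r : ℕ) [hr : Fact r.Prime]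
    (hrG : r ∈ (Nat.card G).primeFactors)
    (P : ∀ p ∈ (Nat.card G).primeFactors, Sylow p G)
    (N : Subgroup G) [hN : N.Characteristic] (hNr : (Nat.card N).Coprime r)
    (hyp : ∀ (S : Type u) [Group S] [Finite S] (θ : S →* MulAut (G ⧸ N)) (Q : Sylow r (G ⧸ N)),
      IsPGroup r S → (∀ s, ∀ x ∈ (Q : Subgroup (G ⧸ N)), θ s x = x) →
      Nat.card θ.range ∣ Nat.card (G ⧸ Subgroup.center G))
    (R : Subgroup (MulAut G)) (hR : IsPGroup r R) :
    Nat.card R ∣ Nat.card (G ⧸ Subgroup.center G) *
      ∏ p : (Nat.card G).primeFactors, Nat.card (MulAut (↥(P p.1 p.2 : Subgroup G))) := by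
  classical
  let φ : R →* MulAut G := R.subtype
  have hφ : Function.Injective φ := R.subtype_injective
  obtain ⟨T, hT⟩ := exists_invariant_sylow hR φ r (not_dvd_card_sylow r G)
  -- restriction to `T`
  let ρ : R →* MulAut (T : Subgroup G) := resHom φ T hT
  have hRC : Nat.card R = Nat.card ρ.range * Nat.card ρ.ker := by
    rw [← index_ker, mul_comm]
    exact (ρ.ker.card_mul_index).symm
  -- the action of the kernel on the quotient
  let θ : ρ.ker →* MulAut (G ⧸ N) := ((quotHom N).comp φ).comp ρ.ker.subtype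
  have hC : Nat.card ρ.ker = Nat.card θ.range * Nat.card θ.ker := by
    rw [← index_ker, mul_comm]
    exact (θ.ker.card_mul_index).symm
  have d1 : Nat.card ρ.range ∣ Nat.card (MulAut (↥(P r hrG : Subgroup G))) := by
    have h1 : Nat.card ρ.range ∣ Nat.card (MulAut (T : Subgroup G)) :=
      Subgroup.card_subgroup_dvd_card _
    let e : (T : Subgroup G) ≃* (P r hrG : Subgroup G) := Sylow.equiv _ _
    rwa [Nat.card_congr (MulAut.congr e).toEquiv] at h1
  have hfix : ∀ c : ρ.ker, ∀ x ∈ (T : Subgroup G), φ c x = x := by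
    intro c x hx
    have h1 : ρ c = 1 := c.2
    have h2 := congrArg (fun f : MulAut (T : Subgroup G) => ((f ⟨x, hx⟩ : (T : Subgroup G)) : G)) h1
    exact h2
  have d2 : Nat.card θ.range ∣ Nat.card (G ⧸ Subgroup.center G) := by
    refine hyp ρ.ker θ (T.mapSurjective (QuotientGroup.mk'_surjective N)) (hR.to_subgroup ρ.ker) ?_
    intro c x hx
    obtain ⟨y, hy, rfl⟩ := hx
    change (QuotientGroup.mk (φ c y) : G ⧸ N) = QuotientGroup.mk y
    rw [hfix c y hy]
  -- the kernel of the action on the quotient
  have d3 : Nat.card θ.ker ∣ ∏ p ∈ Finset.univ.erase (⟨r, hrG⟩ : (Nat.card G).primeFactors),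
      Nat.card (MulAut (↥(P p.1 p.2 : Subgroup G))) := by
    let φ' : θ.ker →* MulAut G := (φ.comp ρ.ker.subtype).comp θ.ker.subtype
    have hφ' : Function.Injective φ' :=
      (hφ.comp ρ.ker.subtype_injective).comp θ.ker.subtype_injective
    have hp' : IsPGroup r θ.ker := (hR.to_subgroup ρ.ker).to_subgroup θ.ker
    have htriv : ∀ s : θ.ker, ∀ x : G, x⁻¹ * φ' s x ∈ N := by
      intro s x
      have h1 : θ s = 1 := s.2
      have h2 := congrArg (fun f : MulAut (G ⧸ N) => f (QuotientGroup.mk x)) h1
      have h3 : (QuotientGroup.mk (φ' s x) : G ⧸ N) = QuotientGroup.mk x := h2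
      exact QuotientGroup.eq.1 h3.symm
    apply card_dvd_of_invariant_erase φ' hφ' P
    · exact ⟨T, T.card_eq_multiplicity, fun s x hx => hfix _ x hx⟩
    · intro p hp hpr
      have hpp : Fact p.Prime := ⟨Nat.prime_of_mem_primeFactors hp⟩
      have U : Sylow p G := default
      let L : Subgroup G := (U : Subgroup G) ⊔ N
      have hLinv : ∀ s, ∀ x ∈ L, φ' s x ∈ L := by
        intro s x hx
        have h1 : φ' s x = x * (x⁻¹ * φ' s x) := by group
        rw [h1]
        exact L.mul_mem hx ((le_sup_right : N ≤ L) (htriv s x))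
      have hLcop : Nat.Coprime (Nat.card L) r := by
        have h3 : Nat.card N * N.relIndex L = Nat.card L := by
          rw [← relIndex_bot_left, ← relIndex_bot_left]
          exact relIndex_mul_relIndex _ _ _ bot_le le_sup_right
        rw [← h3, relIndex_sup_right]
        apply Nat.Coprime.mul_left hNr
        have h4 : N.relIndex (U : Subgroup G) ∣ Nat.card U := relIndex_dvd_card _ _
        refine Nat.Coprime.coprime_dvd_left h4 ?_
        rw [U.card_eq_multiplicity]
        apply Nat.Coprime.pow_left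
        rw [Nat.coprime_primes hpp.out hr.out]
        exact hpr
      let ψ : θ.ker →* MulAut L := resHom φ' L hLinv
      have hnd : ¬ r ∣ Nat.card (Sylow p L) := by
        intro hd
        have h1 : Nat.card (Sylow p L) ∣ Nat.card L := by
          have T : Sylow p L := default
          exact (T.card_dvd_index).trans (T : Subgroup L).index_dvd_card
        have h2 := hd.trans h1
        rw [Nat.coprime_comm, hr.out.coprime_iff_not_dvd] at hLcop
        exact hLcop h2
      obtain ⟨V, hV⟩ := exists_invariant_sylow hp' ψ p hnd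
      refine ⟨(V : Subgroup L).map L.subtype, ?_, ?_⟩
      · rw [Nat.card_congr ((V : Subgroup L).equivMapOfInjective _ L.subtype_injective).toEquiv.symm,
          V.card_eq_multiplicity]
        congr 1
        apply le_antisymm
        · have h1 : Nat.card L ∣ Nat.card G := Subgroup.card_subgroup_dvd_card L
          exact (Nat.factorization_le_iff_dvd Nat.card_pos.ne' Nat.card_pos.ne').2 h1 p
        · have h1 : p ^ (Nat.card G).factorization p ∣ Nat.card L := by
            rw [← U.card_eq_multiplicity]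
            exact Subgroup.card_dvd_of_le le_sup_left
          exact (hpp.out.pow_dvd_iff_le_factorization Nat.card_pos.ne').1 h1
      · rintro s x ⟨y, hy, rfl⟩
        exact ⟨ψ s y, hV s y hy, rfl⟩
  rw [hRC, hC, ← Finset.mul_prod_erase Finset.univ _
    (Finset.mem_univ (⟨r, hrG⟩ : (Nat.card G).primeFactors))]
  have := mul_dvd_mul d1 (mul_dvd_mul d2 d3)
  refine this.trans (dvd_of_eq ?_)
  ring

/-- from the bound to the divisibility -/
theorem dvd_of_bound {G : Type*} [Group G] [Finite G] {r : ℕ} [hr : Fact r.Prime]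
    (N : Subgroup G) [N.Normal] (hZ : IsPGroup r (Subgroup.center (G ⧸ N)))
    (Q : Sylow r (G ⧸ N)) {i : ℕ}
    (h : r ^ i * Nat.card (Subgroup.center (G ⧸ N)) ≤ Nat.card (Q : Subgroup (G ⧸ N))) :
    r ^ i ∣ Nat.card (G ⧸ Subgroup.center G) := by
  refine dvd_trans ?_ (card_conj_range_dvd N)
  have h1 : Nat.card (MulAut.conj : (G ⧸ N) →* MulAut (G ⧸ N)).range *
      Nat.card (Subgroup.center (G ⧸ N)) = Nat.card (G ⧸ N) := by
    have h2 : (MulAut.conj : (G ⧸ N) →* MulAut (G ⧸ N)).ker = Subgroup.center (G ⧸ N) := by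
      ext z
      rw [MonoidHom.mem_ker, mem_center_iff]
      constructor
      · intro hz g
        have h3 := congrArg (fun f : MulAut (G ⧸ N) => f g) hz
        have h4 : z * g * z⁻¹ = g := h3
        exact (mul_inv_eq_iff_eq_mul.1 h4).symm
      · intro hz
        ext x
        change z * x * z⁻¹ = x
        rw [← hz x, mul_inv_cancel_right]
    rw [← h2, ← index_ker, mul_comm]
    exact (MulAut.conj : (G ⧸ N) →* MulAut (G ⧸ N)).ker.card_mul_index
  obtain ⟨j, hj⟩ := IsPGroup.iff_card.1 hZ
  obtain ⟨a, ha⟩ := IsPGroup.iff_card.1 Q.isPGroup'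
  have h2 : r ^ a ∣ Nat.card (G ⧸ N) := by
    rw [← ha]
    exact Subgroup.card_subgroup_dvd_card _
  rw [hj, ha, ← pow_add] at h
  have h3 : i + j ≤ a := (Nat.pow_le_pow_iff_right hr.out.one_lt).1 h
  rw [← h1, hj] at h2
  have h4 : r ^ (i + j) ∣ Nat.card (MulAut.conj : (G ⧸ N) →* MulAut (G ⧸ N)).range * r ^ j :=
    (pow_dvd_pow r h3).trans h2
  rw [pow_add] at h4
  exact Nat.dvd_of_mul_dvd_mul_right (pow_pos hr.out.pos j) h4

/-- The condition on `G` at the prime `p`: it concerns the components of `G / O_p'(G)`. -/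
def CompAt (p : ℕ) (G : Type*) [Group G] : Prop :=
  ∀ N : Subgroup G, ∀ _ : N.Normal, ¬ p ∣ Nat.card N →
    (∀ M : Subgroup G, M.Normal → ¬ p ∣ Nat.card M → M ≤ N) → QS p (G ⧸ N)

theorem ppart {G : Type u} [Group G] [Finite G] (p : ℕ) [hp : Fact p.Prime]
    (hpG : p ∈ (Nat.card G).primeFactors)
    (P : ∀ q ∈ (Nat.card G).primeFactors, Sylow q G) (h : CompAt p G)
    (R : Subgroup (MulAut G)) (hR : IsPGroup p R) :
    Nat.card R ∣ Nat.card (G ⧸ Subgroup.center G) *
      ∏ q : (Nat.card G).primeFactors, Nat.card (MulAut (↥(P q.1 q.2 : Subgroup G))) := by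
  obtain ⟨N, hNc, hNp, hNmax⟩ := exists_op' p G
  have hQ := h N inferInstance hNp hNmax
  have hNoP : NoP p (G ⧸ N) := by
    intro K hK hKp
    have h1 : (K.comap (QuotientGroup.mk' N)).Normal := hK.comap _
    have h2 : ¬ p ∣ Nat.card (K.comap (QuotientGroup.mk' N)) := by
      have h3 : Nat.card (K.comap (QuotientGroup.mk' N)) = Nat.card N * Nat.card K := by
        have hle : N ≤ K.comap (QuotientGroup.mk' N) := by
          intro z hz
          change QuotientGroup.mk' N z ∈ K
          rw [show QuotientGroup.mk' N z = 1 from (QuotientGroup.eq_one_iff z).2 hz]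
          exact K.one_mem
        let r : ↥(K.comap (QuotientGroup.mk' N)) →* K :=
          (QuotientGroup.mk' N).subgroupComap K
        have hr : Function.Surjective r := by
          rintro ⟨x, hx⟩
          obtain ⟨x, rfl⟩ := QuotientGroup.mk_surjective x
          exact ⟨⟨x, hx⟩, rfl⟩
        have hker : r.ker = N.subgroupOf (K.comap (QuotientGroup.mk' N)) := by
          ext x
          rw [MonoidHom.mem_ker, mem_subgroupOf]
          constructor
          · intro hx
            exact (QuotientGroup.eq_one_iff (x : G)).1 (congrArg Subtype.val hx)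
          · intro hx
            exact Subtype.ext ((QuotientGroup.eq_one_iff (x : G)).2 hx)
        have h5 := r.ker.card_mul_index
        rw [index_ker, MonoidHom.range_eq_top.2 hr, Subgroup.card_top, hker,
          Nat.card_congr (Subgroup.subgroupOfEquivOfLe hle).toEquiv] at h5
        exact h5.symm
      rw [h3, hp.out.dvd_mul]
      rintro (h4 | h4)
      · exact hNp h4
      · exact hKp h4
    have h3 := hNmax _ h1 h2
    rw [eq_bot_iff]
    intro y hy
    obtain ⟨x, rfl⟩ := QuotientGroup.mk'_surjective N y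
    exact mem_bot.2 ((QuotientGroup.eq_one_iff x).2 (h3 hy))
  have hNcop : (Nat.card N).Coprime p := by
    rw [Nat.coprime_comm, hp.out.coprime_iff_not_dvd]
    exact hNp
  apply rpart_red2 p hpG P N hNcop _ R hR
  intro S _ _ θ Q hS hfix
  have h1 := bound1 hNoP hQ hS θ Q hfix
  obtain ⟨i, hi⟩ := IsPGroup.iff_card.1 (hS.of_surjective θ.rangeRestrict
    θ.rangeRestrict_surjective)
  rw [hi] at h1 ⊢
  exact dvd_of_bound N hNoP.center Q h1

/-- **The divisibility of the order of the automorphism group.** -/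
theorem main (G : Type u) [Group G] [Finite G] (m : ℕ) (hm : m ∣ Nat.card (MulAut G))
    (P : ∀ p ∈ (Nat.card G).primeFactors, Sylow p G)
    (hyp : ∀ p : ℕ, p.Prime → p ∣ Nat.card G → p ∣ m → CompAt p G) :
    m ∣ Nat.card (G ⧸ Subgroup.center G) *
        ∏ p : (Nat.card G).primeFactors,
          Nat.card (MulAut (↥(P p.1 p.2 : Subgroup G))) := by
  rw [Nat.dvd_iff_prime_pow_dvd_dvd]
  intro r k hr hk
  rcases Nat.eq_zero_or_pos k with hk0 | hk0
  · subst hk0; simp
  have hrf : Fact r.Prime := ⟨hr⟩
  have hrm : r ∣ m := (dvd_pow_self r hk0.ne').trans hk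
  let R : Sylow r (MulAut G) := default
  have h1 : r ^ k ∣ Nat.card R := by
    rw [R.card_eq_multiplicity]
    exact pow_dvd_pow r ((hr.pow_dvd_iff_le_factorization Nat.card_pos.ne').1 (hk.trans hm))
  refine h1.trans ?_
  by_cases hrG : r ∣ Nat.card G
  · have hrG' : r ∈ (Nat.card G).primeFactors := Nat.mem_primeFactors.2 ⟨hr, hrG, Nat.card_pos.ne'⟩
    exact ppart r hrG' P (hyp r hr hrG hrm) R R.isPGroup'
  · exact (rpart_coprime r hrG P R R.isPGroup').trans (dvd_mul_left _ _)

end Pool.Agent.H55.NEU
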