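import Pool.Agent.H55.NEU.Crit

/-! Projective special linear groups of degree two: basic elements and generation. -/

set_option autoImplicit false
set_option linter.unusedVariables false

namespace Pool.Agent.H55.NEU

open Subgroup Matrix

variable {F : Type*} [Field F]

/-- the special linear group -/
abbrev SL2 (F : Type*) [Field F] : Type _ := Matrix.SpecialLinearGroup (Fin 2) F

/-- the projective special linear group -/
abbrev PS (F : Type*) [Field F] : Type _ := Matrix.ProjectiveSpecialLinearGroup (Fin 2) F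

/-- the projection -/
def pr : SL2 F →* PS F := QuotientGroup.mk' (center (SL2 F))

theorem pr_surj (g : PS F) : ∃ M : SL2 F, pr M = g := QuotientGroup.mk'_surjective _ g

theorem sl_det (M : SL2 F) : M 0 0 * M 1 1 - M 0 1 * M 1 0 = 1 := by
  have := M.2
  rwa [Matrix.det_fin_two] at this

theorem pr_eq_iff {M N : SL2 F} :
    pr M = pr N ↔ ∃ r : F, r * r = 1 ∧ ∀ i j, N i j = r * M i j := by
  have h0 : pr M = pr N ↔ M⁻¹ * N ∈ center (SL2 F) := QuotientGroup.eq
  rw [h0, Matrix.SpecialLinearGroup.mem_center_iff]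
  constructor
  · rintro ⟨r, hr, hr'⟩
    refine ⟨r, ?_, ?_⟩
    · rw [Fintype.card_fin, pow_two] at hr
      exact hr
    · intro i j
      have h1 : N = M * (M⁻¹ * N) := by group
      have h2 : (N : Matrix (Fin 2) (Fin 2) F) = (M : Matrix (Fin 2) (Fin 2) F) *
          Matrix.scalar (Fin 2) r := by
        rw [hr', ← Matrix.SpecialLinearGroup.coe_mul, ← h1]
      have h3 := congrFun (congrFun h2 i) j
      rw [h3, Matrix.scalar_apply, Matrix.mul_diagonal, mul_comm]
  · rintro ⟨r, hr, hN⟩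
    refine ⟨r, by rw [Fintype.card_fin, pow_two, hr], ?_⟩
    have h2 : (N : Matrix (Fin 2) (Fin 2) F) = (M : Matrix (Fin 2) (Fin 2) F) *
        Matrix.scalar (Fin 2) r := by
      ext i j
      rw [Matrix.scalar_apply, Matrix.mul_diagonal, mul_comm]
      exact hN i j
    rw [Matrix.SpecialLinearGroup.coe_mul, h2, ← mul_assoc, ← Matrix.SpecialLinearGroup.coe_mul,
      inv_mul_cancel, Matrix.SpecialLinearGroup.coe_one, one_mul]

theorem sl_ext {M N : SL2 F} (h00 : M 0 0 = N 0 0) (h01 : M 0 1 = N 0 1) (h10 : M 1 0 = N 1 0)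
    (h11 : M 1 1 = N 1 1) : M = N := by
  apply Matrix.SpecialLinearGroup.ext
  intro i j
  fin_cases i <;> fin_cases j <;> assumption

theorem mul_00 (M N : SL2 F) : (M * N) 0 0 = M 0 0 * N 0 0 + M 0 1 * N 1 0 := by
  change ((M * N : SL2 F) : Matrix (Fin 2) (Fin 2) F) 0 0 = _
  rw [Matrix.SpecialLinearGroup.coe_mul, Matrix.mul_apply, Fin.sum_univ_two]
theorem mul_01 (M N : SL2 F) : (M * N) 0 1 = M 0 0 * N 0 1 + M 0 1 * N 1 1 := by
  change ((M * N : SL2 F) : Matrix (Fin 2) (Fin 2) F) 0 1 = _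
  rw [Matrix.SpecialLinearGroup.coe_mul, Matrix.mul_apply, Fin.sum_univ_two]
theorem mul_10 (M N : SL2 F) : (M * N) 1 0 = M 1 0 * N 0 0 + M 1 1 * N 1 0 := by
  change ((M * N : SL2 F) : Matrix (Fin 2) (Fin 2) F) 1 0 = _
  rw [Matrix.SpecialLinearGroup.coe_mul, Matrix.mul_apply, Fin.sum_univ_two]
theorem mul_11 (M N : SL2 F) : (M * N) 1 1 = M 1 0 * N 0 1 + M 1 1 * N 1 1 := by
  change ((M * N : SL2 F) : Matrix (Fin 2) (Fin 2) F) 1 1 = _
  rw [Matrix.SpecialLinearGroup.coe_mul, Matrix.mul_apply, Fin.sum_univ_two]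

/-- an element from its entries -/
def mk2 (a b c d : F) (h : a * d - b * c = 1) : SL2 F :=
  ⟨!![a, b; c, d], by rw [Matrix.det_fin_two_of]; exact h⟩

@[simp] theorem mk2_00 (a b c d : F) (h : a * d - b * c = 1) : (mk2 a b c d h) 0 0 = a := rfl
@[simp] theorem mk2_01 (a b c d : F) (h : a * d - b * c = 1) : (mk2 a b c d h) 0 1 = b := rfl
@[simp] theorem mk2_10 (a b c d : F) (h : a * d - b * c = 1) : (mk2 a b c d h) 1 0 = c := rfl
@[simp] theorem mk2_11 (a b c d : F) (h : a * d - b * c = 1) : (mk2 a b c d h) 1 1 = d := rfl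

theorem eq_mk2 (M : SL2 F) : M = mk2 (M 0 0) (M 0 1) (M 1 0) (M 1 1) (sl_det M) :=
  sl_ext rfl rfl rfl rfl

theorem mk2_mul {a b c d a' b' c' d' : F} (h : a * d - b * c = 1) (h' : a' * d' - b' * c' = 1) :
    mk2 a b c d h * mk2 a' b' c' d' h' = mk2 (a * a' + b * c') (a * b' + b * d')
      (c * a' + d * c') (c * b' + d * d') (by linear_combination (a' * d' - b' * c') * h + h') := by
  apply sl_ext
  · rw [mul_00]; rfl
  · rw [mul_01]; rfl
  · rw [mul_10]; rfl
  · rw [mul_11]; rfl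

theorem mk2_inv {a b c d : F} (h : a * d - b * c = 1) :
    (mk2 a b c d h)⁻¹ = mk2 d (-b) (-c) a (by linear_combination h) := by
  rw [inv_eq_iff_mul_eq_one, mk2_mul]
  apply sl_ext
  · change a * d + b * -c = 1
    linear_combination h
  · change a * -b + b * a = 0
    ring
  · change c * d + d * -c = 0
    ring
  · change c * -b + d * a = 1
    linear_combination h

theorem mk2_congr {a b c d a' b' c' d' : F} (h : a * d - b * c = 1) (h' : a' * d' - b' * c' = 1)
    (e1 : a = a') (e2 : b = b') (e3 : c = c') (e4 : d = d') : mk2 a b c d h = mk2 a' b' c' d' h' := by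
  subst e1 e2 e3 e4
  rfl

theorem pr_mk2_eq {a b c d a' b' c' d' : F} {h : a * d - b * c = 1} {h' : a' * d' - b' * c' = 1} :
    pr (mk2 a b c d h) = pr (mk2 a' b' c' d' h') ↔
      ∃ r : F, r * r = 1 ∧ a' = r * a ∧ b' = r * b ∧ c' = r * c ∧ d' = r * d := by
  rw [pr_eq_iff]
  constructor
  · rintro ⟨r, hr, hh⟩
    exact ⟨r, hr, hh 0 0, hh 0 1, hh 1 0, hh 1 1⟩
  · rintro ⟨r, hr, e1, e2, e3, e4⟩
    refine ⟨r, hr, ?_⟩
    intro i j
    fin_cases i <;> fin_cases j <;> assumption

/-- upper unipotent elements -/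
def uu (x : F) : SL2 F := mk2 1 x 0 1 (by ring)

/-- lower unipotent elements -/
def vv (y : F) : SL2 F := mk2 1 0 y 1 (by ring)

/-- diagonal elements -/
def hh (t : Fˣ) : SL2 F := mk2 (t : F) 0 0 ((t⁻¹ : Fˣ) : F) (by
  rw [Units.mul_inv]; ring)

theorem uu_mul (x y : F) : uu x * uu y = uu (x + y) := by
  unfold uu
  rw [mk2_mul]
  apply mk2_congr <;> ring

theorem vv_mul (x y : F) : vv x * vv y = vv (x + y) := by
  unfold vv
  rw [mk2_mul]
  apply mk2_congr <;> ring

theorem uu_zero : uu (0 : F) = 1 := sl_ext rfl rfl rfl rfl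

theorem vv_zero : vv (0 : F) = 1 := sl_ext rfl rfl rfl rfl

theorem uu_inv (x : F) : (uu x)⁻¹ = uu (-x) := by
  rw [inv_eq_iff_mul_eq_one, uu_mul, add_neg_cancel, uu_zero]

theorem vv_inv (x : F) : (vv x)⁻¹ = vv (-x) := by
  rw [inv_eq_iff_mul_eq_one, vv_mul, add_neg_cancel, vv_zero]

/-- the subgroup of the images of the upper unipotent elements -/
def UU (F : Type*) [Field F] : Subgroup (PS F) where
  carrier := {g | ∃ x : F, pr (uu x) = g}
  mul_mem' := by
    rintro _ _ ⟨x, rfl⟩ ⟨y, rfl⟩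
    exact ⟨x + y, by rw [← uu_mul, map_mul]⟩
  one_mem' := ⟨0, by rw [uu_zero, map_one]⟩
  inv_mem' := by
    rintro _ ⟨x, rfl⟩
    exact ⟨-x, by rw [← uu_inv, map_inv]⟩

/-- the subgroup of the images of the lower unipotent elements -/
def VV (F : Type*) [Field F] : Subgroup (PS F) where
  carrier := {g | ∃ x : F, pr (vv x) = g}
  mul_mem' := by
    rintro _ _ ⟨x, rfl⟩ ⟨y, rfl⟩
    exact ⟨x + y, by rw [← vv_mul, map_mul]⟩
  one_mem' := ⟨0, by rw [vv_zero, map_one]⟩
  inv_mem' := by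
    rintro _ ⟨x, rfl⟩
    exact ⟨-x, by rw [← vv_inv, map_inv]⟩

theorem mem_UU {g : PS F} : g ∈ UU F ↔ ∃ x : F, pr (uu x) = g := Iff.rfl
theorem mem_VV {g : PS F} : g ∈ VV F ↔ ∃ x : F, pr (vv x) = g := Iff.rfl

theorem pr_uu_inj {x y : F} (h : pr (uu x) = pr (uu y)) : x = y := by
  unfold uu at h
  rw [pr_mk2_eq] at h
  obtain ⟨r, -, e1, e2, -, -⟩ := h
  rw [mul_one] at e1
  rw [e2, ← e1, one_mul]

theorem pr_vv_inj {x y : F} (h : pr (vv x) = pr (vv y)) : x = y := by
  unfold vv at h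
  rw [pr_mk2_eq] at h
  obtain ⟨r, -, e1, -, e2, -⟩ := h
  rw [mul_one] at e1
  rw [e2, ← e1, one_mul]

/-- membership in `UU` of an image -/
theorem pr_mem_UU {M : SL2 F} : pr M ∈ UU F ↔ M 1 0 = 0 ∧ M 0 0 = M 1 1 := by
  rw [mem_UU]
  constructor
  · rintro ⟨x, hx⟩
    obtain ⟨r, hr, he⟩ := pr_eq_iff.1 hx
    have h1 : M 1 0 = r * 0 := he 1 0
    have h2 : M 0 0 = r * 1 := he 0 0
    have h3 : M 1 1 = r * 1 := he 1 1
    exact ⟨by rw [h1, mul_zero], by rw [h2, h3]⟩
  · rintro ⟨h1, h2⟩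
    have hd := sl_det M
    rw [h1, mul_zero, sub_zero, ← h2] at hd
    refine ⟨M 0 0 * M 0 1, ?_⟩
    rw [pr_eq_iff]
    refine ⟨M 0 0, hd, ?_⟩
    intro i j
    fin_cases i <;> fin_cases j
    · change M 0 0 = M 0 0 * 1
      ring
    · change M 0 1 = M 0 0 * (M 0 0 * M 0 1)
      linear_combination (-M 0 1) * hd
    · change M 1 0 = M 0 0 * 0
      rw [h1, mul_zero]
    · change M 1 1 = M 0 0 * 1
      rw [← h2, mul_one]

theorem pr_mem_VV {M : SL2 F} : pr M ∈ VV F ↔ M 0 1 = 0 ∧ M 0 0 = M 1 1 := by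
  rw [mem_VV]
  constructor
  · rintro ⟨x, hx⟩
    obtain ⟨r, hr, he⟩ := pr_eq_iff.1 hx
    have h1 : M 0 1 = r * 0 := he 0 1
    have h2 : M 0 0 = r * 1 := he 0 0
    have h3 : M 1 1 = r * 1 := he 1 1
    exact ⟨by rw [h1, mul_zero], by rw [h2, h3]⟩
  · rintro ⟨h1, h2⟩
    have hd := sl_det M
    rw [h1, zero_mul, sub_zero, ← h2] at hd
    refine ⟨M 0 0 * M 1 0, ?_⟩
    rw [pr_eq_iff]
    refine ⟨M 0 0, hd, ?_⟩
    intro i j
    fin_cases i <;> fin_cases j
    · change M 0 0 = M 0 0 * 1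
      ring
    · change M 0 1 = M 0 0 * 0
      rw [h1, mul_zero]
    · change M 1 0 = M 0 0 * (M 0 0 * M 1 0)
      linear_combination (-M 1 0) * hd
    · change M 1 1 = M 0 0 * 1
      rw [← h2, mul_one]

/-- conjugates of the unipotent elements -/
theorem conj_uu (M : SL2 F) (x : F) : M * uu x * M⁻¹ =
    mk2 (1 - M 0 0 * M 1 0 * x) (M 0 0 * M 0 0 * x) (-(M 1 0 * M 1 0 * x))
      (1 + M 0 0 * M 1 0 * x) (by ring) := by
  have hd := sl_det M
  rw [eq_mk2 M, mk2_inv]
  unfold uu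
  rw [mk2_mul, mk2_mul]
  simp only [mk2_00, mk2_01, mk2_10, mk2_11]
  apply mk2_congr
  · linear_combination hd
  · ring
  · ring
  · linear_combination hd

theorem conj_vv (M : SL2 F) (y : F) : M * vv y * M⁻¹ =
    mk2 (1 + M 0 1 * M 1 1 * y) (-(M 0 1 * M 0 1 * y)) (M 1 1 * M 1 1 * y)
      (1 - M 0 1 * M 1 1 * y) (by ring) := by
  have hd := sl_det M
  rw [eq_mk2 M, mk2_inv]
  unfold vv
  rw [mk2_mul, mk2_mul]
  simp only [mk2_00, mk2_01, mk2_10, mk2_11]
  apply mk2_congr
  · linear_combination hd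
  · ring
  · ring
  · linear_combination hd

/-- generation -/
theorem gen_SL2 (K : Subgroup (SL2 F)) (hu : ∀ x, uu x ∈ K) (hv : ∀ y, vv y ∈ K) : K = ⊤ := by
  have h1 : ∀ M : SL2 F, M 1 0 ≠ 0 → M ∈ K := by
    intro M hM
    have e : M = uu ((M 0 0 - 1) / M 1 0) * vv (M 1 0) * uu ((M 1 1 - 1) / M 1 0) := by
      have hd := sl_det M
      unfold uu vv
      rw [mk2_mul, mk2_mul]
      apply sl_ext
      · change M 0 0 = (1 * 1 + (M 0 0 - 1) / M 1 0 * M 1 0) * 1 +
          (1 * 0 + (M 0 0 - 1) / M 1 0 * 1) * 0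
        field_simp
        ring
      · change M 0 1 = (1 * 1 + (M 0 0 - 1) / M 1 0 * M 1 0) * ((M 1 1 - 1) / M 1 0) +
          (1 * 0 + (M 0 0 - 1) / M 1 0 * 1) * 1
        field_simp
        linear_combination -hd
      · change M 1 0 = (0 * 1 + 1 * M 1 0) * 1 + (0 * 0 + 1 * 1) * 0
        ring
      · change M 1 1 = (0 * 1 + 1 * M 1 0) * ((M 1 1 - 1) / M 1 0) + (0 * 0 + 1 * 1) * 1
        field_simp
        ring
    rw [e]
    exact K.mul_mem (K.mul_mem (hu _) (hv _)) (hu _)
  rw [eq_top_iff]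
  intro M _
  by_cases hM : M 1 0 = 0
  · have h2 : (vv 1 * M : SL2 F) 1 0 ≠ 0 := by
      rw [mul_10]
      change 1 * M 0 0 + 1 * M 1 0 ≠ 0
      rw [hM, mul_zero, add_zero, one_mul]
      intro h0
      have hd := sl_det M
      rw [h0, hM] at hd
      simp at hd
    have h3 := h1 _ h2
    have h4 : M = (vv 1)⁻¹ * (vv 1 * M) := by group
    rw [h4]
    exact K.mul_mem (K.inv_mem (hv 1)) h3
  · exact h1 M hM

/-- an automorphism which fixes the upper unipotent elements and stabilizes the group of the lower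
unipotent elements is trivial -/
theorem rigid (α : MulAut (PS F)) (hU : ∀ x : F, α (pr (uu x)) = pr (uu x))
    (hV : ∀ y : F, α (pr (vv y)) ∈ VV F) : α = 1 := by
  have key : ∀ y : F, α (pr (vv y)) = pr (vv y) := by
    intro y
    by_cases hy : y = 0
    · rw [hy, vv_zero, map_one, map_one]
    · obtain ⟨z, hz⟩ := hV y
      -- `w = u(t) v(y) u(t)` with `t = - 1 / y` maps `U` to `V`
      let t : F := -y⁻¹
      have hty : t * y = -1 := by
        change -y⁻¹ * y = -1
        rw [neg_mul, inv_mul_cancel₀ hy]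
      let w : SL2 F := uu t * vv y * uu t
      have hw : w = mk2 0 t y 0 (by linear_combination -hty) := by
        change uu t * vv y * uu t = _
        unfold uu vv
        rw [mk2_mul, mk2_mul]
        apply mk2_congr
        · linear_combination hty
        · linear_combination t * hty
        · ring
        · linear_combination hty
      have hconj : pr (w * uu 1 * w⁻¹) ∈ VV F := by
        rw [conj_uu, pr_mem_VV, hw]
        simp only [mk2_00, mk2_01, mk2_10, mk2_11]
        constructor <;> ring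
      have h1 : α (pr (w * uu 1 * w⁻¹)) ∈ VV F := by
        obtain ⟨s, hs⟩ := hconj
        rw [← hs]
        exact hV s
      have h2 : α (pr (w * uu 1 * w⁻¹)) =
          pr ((uu t * vv z * uu t) * uu 1 * (uu t * vv z * uu t)⁻¹) := by
        change α (pr ((uu t * vv y * uu t) * uu 1 * (uu t * vv y * uu t)⁻¹)) = _
        simp only [map_mul, map_inv, hU, ← hz]
      rw [h2, conj_uu, pr_mem_VV] at h1
      simp only [mk2_00, mk2_01, mk2_10, mk2_11] at h1
      have h3 : (uu t * vv z * uu t : SL2 F) 0 0 = 1 + t * z := by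
        unfold uu vv
        rw [mk2_mul, mk2_mul]
        simp only [mk2_00]
        ring
      have h4 : (1 + t * z) * (1 + t * z) = 0 := by
        have h5 := h1.1
        rw [h3] at h5
        linear_combination h5
      have h5 : 1 + t * z = 0 := by
        rcases mul_eq_zero.1 h4 with h | h <;> exact h
      have h6 : z = y := by
        have ht : t ≠ 0 := by
          intro h0
          rw [h0, zero_mul] at hty
          exact one_ne_zero (neg_eq_zero.1 hty.symm)
        apply mul_left_cancel₀ ht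
        linear_combination h5 - hty
      rw [← hz, h6]
  let K : Subgroup (SL2 F) :=
    { carrier := {M | α (pr M) = pr M}
      mul_mem' := fun {a b} ha hb => by
        change α (pr (a * b)) = pr (a * b)
        rw [map_mul, map_mul, (show α (pr a) = pr a from ha), (show α (pr b) = pr b from hb)]
      one_mem' := by
        change α (pr 1) = pr 1
        rw [map_one, map_one]
      inv_mem' := fun {a} ha => by
        change α (pr a⁻¹) = pr a⁻¹
        rw [map_inv, map_inv, (show α (pr a) = pr a from ha)] }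
  have hK := gen_SL2 K hU key
  ext g
  obtain ⟨M, rfl⟩ := pr_surj g
  have h1 : M ∈ K := by rw [hK]; exact mem_top M
  exact h1

end Pool.Agent.H55.NEU
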