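import Pool.Agent.H55.NEU.Psl2

/-! The homomorphism from the automorphism group to the automorphisms of the field; the bound in
the defining characteristic. -/

set_option autoImplicit false
set_option linter.unusedVariables false

namespace Pool.Agent.H55.NEU

open Subgroup Matrix
open scoped Pointwise

/-- It suffices to consider one Sylow subgroup. -/
theorem CentBound.of_one {p : ℕ} [hp : Fact p.Prime] {L : Type*} [Group L] [Finite L]
    (S0 : Sylow p L) (h : ∀ X : Subgroup (MulAut L), IsPGroup p X →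
      (∀ α ∈ X, ∀ x ∈ (S0 : Subgroup L), α x = x) → Nat.card X ≤ Nat.card (S0 : Subgroup L)) :
    CentBound p L := by
  intro S X hX hfix
  obtain ⟨g, hg⟩ := MulAction.exists_smul_eq L S0 S
  have hmem : ∀ x ∈ (S0 : Subgroup L), g * x * g⁻¹ ∈ (S : Subgroup L) := by
    intro x hx
    rw [← hg]
    exact ⟨x, hx, rfl⟩
  let Y : Subgroup (MulAut L) := X.map (MulAut.conj (MulAut.conj g)⁻¹).toMonoidHom
  have hY : IsPGroup p Y := hX.map _
  have hYfix : ∀ α ∈ Y, ∀ x ∈ (S0 : Subgroup L), α x = x := by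
    rintro _ ⟨β, hβ, rfl⟩ x hx
    change (MulAut.conj g)⁻¹ (β ((MulAut.conj g)⁻¹⁻¹ x)) = x
    rw [inv_inv, MulAut.conj_apply, hfix β hβ _ (hmem x hx)]
    change (MulAut.conj g)⁻¹ (MulAut.conj g x) = x
    exact MulAut.inv_apply_self _ _ _
  have h1 := h Y hY hYfix
  have h2 : Nat.card Y = Nat.card X :=
    Nat.card_congr (X.equivMapOfInjective _ (MulAut.conj (MulAut.conj g)⁻¹).injective).toEquiv.symm
  have h3 : Nat.card (S0 : Subgroup L) = Nat.card (S : Subgroup L) :=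
    Nat.card_congr (Sylow.equiv S0 S).toEquiv
  rwa [h2, h3] at h1

section

variable {F : Type*} [Field F]

theorem ee_inv (c : Fˣ) (φ : F ≃+* F) : ∃ c' : Fˣ, (ee c φ)⁻¹ = ee c' φ⁻¹ := by
  refine ⟨Units.map ((φ.symm : F ≃+* F) : F →* F) c⁻¹, ?_⟩
  rw [inv_eq_iff_mul_eq_one, ee_mul]
  have h1 : c * Units.map (φ : F →* F) (Units.map ((φ.symm : F ≃+* F) : F →* F) c⁻¹) = 1 := by
    apply Units.ext
    change (c : F) * φ (φ.symm ((c⁻¹ : Fˣ) : F)) = 1
    have h2 : φ (φ.symm ((c⁻¹ : Fˣ) : F)) = ((c⁻¹ : Fˣ) : F) := φ.apply_symm_apply _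
    rw [h2, Units.mul_inv]
  rw [h1, mul_inv_cancel, ee_one_one]

theorem conj_comm {G : Type*} [Group G] (α : MulAut G) (g : G) :
    α * MulAut.conj g = MulAut.conj (α g) * α := by
  ext x
  rw [MulAut.mul_apply, MulAut.mul_apply, MulAut.conj_apply, MulAut.conj_apply, map_mul, map_mul,
    map_inv]

theorem form_mul (g g' : PS F) (c c' : Fˣ) (φ φ' : F ≃+* F) :
    ∃ (g'' : PS F) (c'' : Fˣ), (MulAut.conj g * ee c φ) * (MulAut.conj g' * ee c' φ') =
      MulAut.conj g'' * ee c'' (φ * φ') := by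
  refine ⟨g * ee c φ g', c * Units.map (φ : F →* F) c', ?_⟩
  rw [← ee_mul, map_mul, mul_assoc, mul_assoc]
  congr 1
  rw [← mul_assoc, ← mul_assoc, conj_comm]

theorem form_unique {g g' : PS F} {c c' : Fˣ} {φ φ' : F ≃+* F}
    (h : MulAut.conj g * ee c φ = MulAut.conj g' * ee c' φ') : φ = φ' := by
  obtain ⟨c1, hc1⟩ := ee_inv c' φ'
  have h1 : MulAut.conj (g'⁻¹ * g) * ee (c * Units.map (φ : F →* F) c1) (φ * φ'⁻¹) = 1 := by
    rw [← ee_mul, ← hc1, map_mul, map_inv, ← mul_assoc, mul_assoc (MulAut.conj g')⁻¹, h]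
    group
  have h2 := field_unique _ _ _ h1
  exact mul_inv_eq_one.1 h2

end

section

variable {F : Type*} [Field F] [Finite F]

/-- the field automorphism attached to an automorphism -/
noncomputable def fld : MulAut (PS F) →* (F ≃+* F) where
  toFun α := (aut_PS α).choose_spec.choose_spec.choose
  map_one' := by
    have h := (aut_PS (1 : MulAut (PS F))).choose_spec.choose_spec.choose_spec
    apply form_unique (g := (aut_PS (1 : MulAut (PS F))).choose)
      (c := (aut_PS (1 : MulAut (PS F))).choose_spec.choose) (g' := 1) (c' := 1)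
    rw [← h, map_one, ee_one_one, one_mul]
  map_mul' α β := by
    have h := (aut_PS (α * β)).choose_spec.choose_spec.choose_spec
    have h1 := (aut_PS α).choose_spec.choose_spec.choose_spec
    have h2 := (aut_PS β).choose_spec.choose_spec.choose_spec
    obtain ⟨g'', c'', h3⟩ := form_mul (aut_PS α).choose (aut_PS β).choose
      (aut_PS α).choose_spec.choose (aut_PS β).choose_spec.choose
      (aut_PS α).choose_spec.choose_spec.choose (aut_PS β).choose_spec.choose_spec.choose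
    apply form_unique (g := (aut_PS (α * β)).choose) (c := (aut_PS (α * β)).choose_spec.choose)
      (g' := g'') (c' := c'')
    rw [← h, ← h3, ← h1, ← h2]

theorem fld_spec (α : MulAut (PS F)) : ∃ (g : PS F) (c : Fˣ), α = MulAut.conj g * ee c (fld α) :=
  ⟨_, _, (aut_PS α).choose_spec.choose_spec.choose_spec⟩

theorem fld_eq {α : MulAut (PS F)} {g : PS F} {c : Fˣ} {φ : F ≃+* F}
    (h : α = MulAut.conj g * ee c φ) : fld α = φ := by
  obtain ⟨g', c', h'⟩ := fld_spec α
  exact form_unique (h'.symm.trans h)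

/-- second adjustment -/
theorem adjust2 {r : ℕ} [hr : Fact r.Prime] {f : ℕ} (hf : 0 < f) (hq : Nat.card F = r ^ f)
    (β : MulAut (PS F)) (hβU : ∀ x : F, β (pr (uu x)) ∈ UU F) : ∃ w : F,
      ∀ y : F, pr (uu w) * β (pr (vv y)) * (pr (uu w))⁻¹ ∈ VV F := by
  obtain ⟨V, hV⟩ := sylow_of_card hf hq (VV F) card_VV
  obtain ⟨g2, hg2⟩ := MulAction.exists_smul_eq (PS F) V
    (V.mapSurjective (f := β.toMonoidHom) β.surjective)
  have hβV : ∀ y : F, ∃ z : F, β (pr (vv y)) = g2 * pr (vv z) * g2⁻¹ := by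
    intro y
    have h1 : β (pr (vv y)) ∈ ((V.mapSurjective (f := β.toMonoidHom) β.surjective :
        Sylow r (PS F)) : Subgroup (PS F)) :=
      ⟨pr (vv y), by rw [hV]; exact ⟨y, rfl⟩, rfl⟩
    rw [← hg2] at h1
    obtain ⟨w, hw, hw'⟩ := h1
    have hw2 : w ∈ (V : Subgroup (PS F)) := hw
    rw [hV] at hw2
    obtain ⟨z, rfl⟩ := hw2
    exact ⟨z, hw'.symm⟩
  obtain ⟨M, rfl⟩ := pr_surj g2
  have hd : M 1 1 ≠ 0 := by
    intro h0
    have h1 : ∀ y : F, β (pr (vv y)) ∈ UU F := by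
      intro y
      obtain ⟨z, hz⟩ := hβV y
      rw [hz, ← map_inv, ← map_mul, ← map_mul, conj_vv, pr_mem_UU]
      simp only [mk2_00, mk2_01, mk2_10, mk2_11, h0]
      constructor <;> ring
    have h2 : (UU F).map β.toMonoidHom = UU F := by
      apply Subgroup.eq_of_le_of_card_ge
      · rintro _ ⟨_, ⟨x, rfl⟩, rfl⟩
        exact hβU x
      · rw [Nat.card_congr ((UU F).equivMapOfInjective _ β.injective).toEquiv.symm]
    have h3 := h1 1
    rw [← h2] at h3
    obtain ⟨w, ⟨x, rfl⟩, hw⟩ := h3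
    have h4 : pr (uu x) = pr (vv (1 : F)) := β.injective hw
    have h5 : pr (vv (1 : F)) ∈ UU F := ⟨x, h4⟩
    rw [pr_mem_UU] at h5
    exact one_ne_zero h5.1
  refine ⟨-(M 0 1 / M 1 1), fun y => ?_⟩
  obtain ⟨z, hz⟩ := hβV y
  rw [hz]
  have e2 : pr (uu (-(M 0 1 / M 1 1))) * (pr M * pr (vv z) * (pr M)⁻¹) *
      (pr (uu (-(M 0 1 / M 1 1))))⁻¹ =
      pr ((uu (-(M 0 1 / M 1 1)) * M) * vv z * (uu (-(M 0 1 / M 1 1)) * M)⁻¹) := by
    rw [map_mul, map_mul, map_inv, map_mul]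
    group
  rw [e2, conj_vv, pr_mem_VV]
  have h01 : (uu (-(M 0 1 / M 1 1)) * M : SL2 F) 0 1 = 0 := by
    rw [mul_01]
    change 1 * M 0 1 + -(M 0 1 / M 1 1) * M 1 1 = 0
    field_simp
    ring
  simp only [mk2_00, mk2_01, mk2_10, mk2_11, h01]
  constructor <;> ring

/-- the defining characteristic -/
theorem centBound_char {r : ℕ} [hr : Fact r.Prime] {f : ℕ} (hf : 0 < f)
    (hq : Nat.card F = r ^ f) : CentBound r (PS F) := by
  obtain ⟨U, hU⟩ := sylow_of_card hf hq (UU F) card_UU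
  apply CentBound.of_one U
  intro X hX hfix
  have hfixU : ∀ α ∈ X, ∀ x : F, α (pr (uu x)) = pr (uu x) := by
    intro α hα x
    apply hfix α hα
    rw [hU]
    exact ⟨x, rfl⟩
  have hle : X ≤ (UU F).map MulAut.conj := by
    intro α hα
    obtain ⟨w, hw⟩ := adjust2 hf hq α (fun x => by rw [hfixU α hα x]; exact ⟨x, rfl⟩)
    have h1 : MulAut.conj (pr (uu w)) * α = 1 := by
      apply rigid
      · intro x
        rw [MulAut.mul_apply, hfixU α hα, MulAut.conj_apply, ← map_inv, ← map_mul, ← map_mul,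
          uu_inv, uu_mul, uu_mul]
        congr 2
        ring
      · intro y
        rw [MulAut.mul_apply, MulAut.conj_apply]
        exact hw y
    refine ⟨(pr (uu w))⁻¹, (UU F).inv_mem ⟨w, rfl⟩, ?_⟩
    rw [map_inv]
    exact inv_eq_of_mul_eq_one_right h1
  have h1 : Nat.card X ≤ Nat.card ((UU F).map MulAut.conj) :=
    Nat.le_of_dvd Nat.card_pos (card_dvd_of_le hle)
  have h2 : Nat.card ((UU F).map MulAut.conj) ≤ Nat.card (UU F) :=
    Nat.le_of_dvd Nat.card_pos (card_map_dvd _ _)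
  rw [hU]
  exact h1.trans h2

/-- automorphisms of odd order without field part are inner -/
theorem inner_of_odd {α : MulAut (PS F)} (h : fld α = 1) {n : ℕ} (hn : Odd n)
    (hα : α ^ n = 1) : ∃ g : PS F, MulAut.conj g = α := by
  obtain ⟨g, c, hgc⟩ := fld_spec α
  rw [h] at hgc
  -- the square is inner
  have hsq : ∃ g' : PS F, MulAut.conj g' = α ^ 2 := by
    have h1 : ee (c * c) (1 : F ≃+* F) = MulAut.conj (pr (hh c)) := by
      ext x
      obtain ⟨M, rfl⟩ := pr_surj x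
      rw [MulAut.conj_apply, ee_pr, ← map_inv, ← map_mul, ← map_mul]
      congr 1
      have h3 : (c : F) * ((c⁻¹ : Fˣ) : F) = 1 := Units.mul_inv c
      have e0 : hh c * M * (hh c)⁻¹ =
          hh c * mk2 (M 0 0) (M 0 1) (M 1 0) (M 1 1) (sl_det M) * (hh c)⁻¹ := by
        rw [← eq_mk2]
      rw [e0, EE_apply]
      unfold hh
      rw [mk2_inv, mk2_mul, mk2_mul]
      apply mk2_congr
      · change M 0 0 = ((c : F) * M 0 0 + 0 * M 1 0) * ((c⁻¹ : Fˣ) : F) +
          ((c : F) * M 0 1 + 0 * M 1 1) * -0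
        linear_combination (-(M 0 0)) * h3
      · change (((c * c : Fˣ) : F)) * M 0 1 = ((c : F) * M 0 0 + 0 * M 1 0) * -0 +
          ((c : F) * M 0 1 + 0 * M 1 1) * (c : F)
        rw [Units.val_mul]
        ring
      · change (((c * c)⁻¹ : Fˣ) : F) * M 1 0 = (0 * M 0 0 + ((c⁻¹ : Fˣ) : F) * M 1 0) *
          ((c⁻¹ : Fˣ) : F) + (0 * M 0 1 + ((c⁻¹ : Fˣ) : F) * M 1 1) * -0
        rw [mul_inv, Units.val_mul]
        ring
      · change M 1 1 = (0 * M 0 0 + ((c⁻¹ : Fˣ) : F) * M 1 0) * -0 +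
          (0 * M 0 1 + ((c⁻¹ : Fˣ) : F) * M 1 1) * (c : F)
        linear_combination (-(M 1 1)) * h3
    refine ⟨g * ee c 1 g * pr (hh c), ?_⟩
    rw [pow_two, hgc, map_mul, ← h1]
    have h4 : ee (c * c) (1 : F ≃+* F) = ee c 1 * ee c 1 := by
      rw [ee_mul, mul_one]
      rfl
    rw [h4, map_mul, mul_assoc, mul_assoc (MulAut.conj g) (ee c 1)]
    congr 1
    rw [← mul_assoc, ← mul_assoc, conj_comm]
  obtain ⟨g', hg'⟩ := hsq
  obtain ⟨m, hm⟩ := hn
  refine ⟨g' ^ (m + 1), ?_⟩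
  rw [map_pow, hg', ← pow_mul, show 2 * (m + 1) = n + 1 by omega, pow_succ, hα, one_mul]

end

end Pool.Agent.H55.NEU
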