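import Pool.Agent.H55.NEU.Psl3

/-! Odd primes different from the characteristic. -/

set_option autoImplicit false
set_option linter.unusedVariables false

namespace Pool.Agent.H55.NEU

open Subgroup Matrix
open scoped Pointwise

theorem num1 {p a k Q : ℕ} (hp : p.Prime) (ha : 1 ≤ a) (hk : 1 ≤ k) (hQ : 1 ≤ Q)
    (h : p ^ a ∣ Q - 1) : p ^ (a + 1) ∣ Q ^ (p ^ k) - 1 := by
  have h1 : ((p ^ a : ℕ) : ℤ) ∣ (Q : ℤ) - 1 := by
    have := Int.natCast_dvd_natCast.2 h
    rwa [Nat.cast_sub hQ, Nat.cast_one] at this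
  have h2 : (p : ℤ) ∣ ∑ i ∈ Finset.range (p ^ k), (Q : ℤ) ^ i := by
    rw [← ZMod.intCast_zmod_eq_zero_iff_dvd]
    push_cast
    have h3 : (Q : ZMod p) = 1 := by
      have h4 : (p : ℤ) ∣ (Q : ℤ) - 1 := by
        refine dvd_trans ?_ h1
        rw [Nat.cast_pow]
        exact dvd_pow_self _ (by omega)
      have h5 := (ZMod.intCast_zmod_eq_zero_iff_dvd ((Q : ℤ) - 1) p).2 h4
      push_cast at h5
      exact sub_eq_zero.1 h5
    rw [h3]
    simp only [one_pow, Finset.sum_const, Finset.card_range, nsmul_eq_mul, mul_one]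
    have h6 : p ∣ p ^ k := dvd_pow_self _ (by omega)
    exact (ZMod.natCast_eq_zero_iff _ _).2 h6
  have h3 : ((Q : ℤ) - 1) * ∑ i ∈ Finset.range (p ^ k), (Q : ℤ) ^ i = (Q : ℤ) ^ (p ^ k) - 1 :=
    mul_geom_sum _ _
  have h4 : ((p ^ (a + 1) : ℕ) : ℤ) ∣ (Q : ℤ) ^ (p ^ k) - 1 := by
    rw [← h3, pow_succ, Nat.cast_mul]
    exact mul_dvd_mul h1 h2
  have h5 : ((Q ^ (p ^ k) - 1 : ℕ) : ℤ) = (Q : ℤ) ^ (p ^ k) - 1 := by
    rw [Nat.cast_sub (Nat.one_le_pow _ _ hQ)]
    push_cast
    rfl
  rw [← h5] at h4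
  exact Int.natCast_dvd_natCast.1 h4

section

variable {F : Type*} [Field F] [Finite F]

theorem fixed_mem {K : Type*} [Field K] [Algebra F K] (x : K) (h : x ^ Nat.card F = x) :
    ∃ t : F, algebraMap F K t = x := by
  classical
  have : Fintype F := Fintype.ofFinite F
  by_contra hcon
  push Not at hcon
  let P : Polynomial K := Polynomial.X ^ Nat.card F - Polynomial.X
  have hq : 1 < Nat.card F := Finite.one_lt_card
  have hP : P ≠ 0 := FiniteField.X_pow_card_sub_X_ne_zero K hq
  have hdeg : P.natDegree = Nat.card F := FiniteField.X_pow_card_sub_X_natDegree_eq K hq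
  let s : Finset K := insert x (Finset.univ.image (algebraMap F K))
  have hs : s ⊆ P.roots.toFinset := by
    intro y hy
    rw [Multiset.mem_toFinset, Polynomial.mem_roots hP, Polynomial.IsRoot]
    change (Polynomial.X ^ Nat.card F - Polynomial.X : Polynomial K).eval y = 0
    rw [Polynomial.eval_sub, Polynomial.eval_pow, Polynomial.eval_X, sub_eq_zero]
    rcases Finset.mem_insert.1 hy with h1 | h1
    · rw [h1]; exact h
    · obtain ⟨t, -, rfl⟩ := Finset.mem_image.1 h1
      rw [← map_pow, Nat.card_eq_fintype_card, FiniteField.pow_card]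
  have hcard : s.card = Nat.card F + 1 := by
    rw [Finset.card_insert_of_notMem]
    · rw [Finset.card_image_of_injective _ (algebraMap F K).injective, Finset.card_univ,
        Nat.card_eq_fintype_card]
    · intro hx
      obtain ⟨t, -, ht⟩ := Finset.mem_image.1 hx
      exact hcon t ht
  have h1 := Finset.card_le_card hs
  have h2 := Multiset.toFinset_card_le P.roots
  have h3 := Polynomial.card_roots' P
  rw [hdeg] at h3
  omega

theorem fix_trivial {p r f a : ℕ} [hp : Fact p.Prime] [hr : Fact r.Prime]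
    [CharP F r] (hq : Nat.card F = r ^ f) (ha : 1 ≤ a)
    (h2 : ¬ p ^ (a + 1) ∣ Nat.card F ^ 2 - 1) {K : Type*} [Field K] [Algebra F K] (lam : K)
    (hlam : IsPrimitiveRoot lam (p ^ a)) (t : F) (ht : algebraMap F K t = lam + lam⁻¹)
    (φ : F ≃+* F) (hφ : ∃ k, φ ^ p ^ k = 1) (hfix : φ t = t) : φ = 1 := by
  classical
  by_contra hne
  let G : Subgroup (RingAut F) := zpowers (φ : RingAut F)
  have hGp : IsPGroup p G := by
    obtain ⟨k, hk⟩ := hφ
    rintro ⟨y, hy⟩
    obtain ⟨n, rfl⟩ := mem_zpowers_iff.1 hy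
    refine ⟨k, Subtype.ext ?_⟩
    change ((φ : RingAut F) ^ n) ^ p ^ k = 1
    rw [← zpow_natCast, ← _root_.zpow_mul, mul_comm, _root_.zpow_mul, zpow_natCast]
    have : (φ : RingAut F) ^ p ^ k = 1 := hk
    rw [this, _root_.one_zpow]
  have hfinA : Finite (RingAut F) :=
    Finite.of_injective (fun ψ : RingAut F => (fun x => ψ x)) (fun a b h => by
      ext x; exact congrFun h x)
  have : Fintype G := Fintype.ofFinite G
  obtain ⟨k, hk⟩ := IsPGroup.iff_card.1 hGp
  have hk1 : 1 ≤ k := by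
    rcases Nat.eq_zero_or_pos k with h0 | h0
    · exfalso
      rw [h0, pow_zero, Subgroup.card_eq_one] at hk
      apply hne
      exact zpowers_eq_bot.1 hk
    · exact h0
  let F0 := FixedPoints.subfield G F
  have hfr : Module.finrank F0 F = Fintype.card G := FixedPoints.finrank_eq_card G F
  have : Fintype F := Fintype.ofFinite F
  have : Fintype F0 := Fintype.ofFinite F0
  have hcard : Nat.card F = Nat.card F0 ^ p ^ k := by
    rw [Nat.card_eq_fintype_card, Nat.card_eq_fintype_card, Module.card_eq_pow_finrank (K := F0),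
      hfr, ← hk, Nat.card_eq_fintype_card]
  have hpos : p ^ k ≠ 0 := (pow_pos hp.out.pos k).ne'
  obtain ⟨m, -, hm⟩ : ∃ m ≤ f, Nat.card F0 = r ^ m := by
    apply (Nat.dvd_prime_pow hr.out).1
    rw [← hq, hcard]
    exact dvd_pow_self _ hpos
  -- `t` is fixed
  have htF0 : t ∈ F0 := by
    intro g
    have h3 : G ≤ MulAction.stabilizer (RingAut F) t := by
      rw [zpowers_le]
      exact hfix
    exact h3 g.2
  have htq : t ^ Nat.card F0 = t := by
    have h3 : (⟨t, htF0⟩ : F0) ^ Nat.card F0 = ⟨t, htF0⟩ := by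
      rw [Nat.card_eq_fintype_card]
      exact FiniteField.pow_card _
    exact congrArg Subtype.val h3
  have hK : CharP K r := charP_of_injective_algebraMap (algebraMap F K).injective r
  have hl0 : lam ≠ 0 := hlam.ne_zero (pow_pos hp.out.pos a).ne'
  have e1 : (lam + lam⁻¹) ^ Nat.card F0 = lam + lam⁻¹ := by
    rw [← ht, ← map_pow, htq]
  rw [hm, add_pow_char_pow] at e1
  rw [inv_pow] at e1
  set z := lam ^ r ^ m with hz
  have hz0 : z ≠ 0 := pow_ne_zero _ hl0
  have e2 : (z - lam) * (z * lam - 1) = 0 := by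
    have e3 : (z + z⁻¹ - (lam + lam⁻¹)) * (z * lam) = 0 := by rw [e1, sub_self, zero_mul]
    have e4 : (z + z⁻¹ - (lam + lam⁻¹)) * (z * lam) = (z - lam) * (z * lam - 1) := by
      field_simp
      ring
    rw [← e4]
    exact e3
  have e5 : lam ^ (Nat.card F0 ^ 2) = lam := by
    rw [pow_two, pow_mul, hm, ← hz]
    rcases mul_eq_zero.1 e2 with h3 | h3
    · rw [sub_eq_zero.1 h3, ← hz, sub_eq_zero.1 h3]
    · have h4 : z = lam⁻¹ := eq_inv_of_mul_eq_one_left (sub_eq_zero.1 h3)
      rw [h4, inv_pow, ← hz, h4, inv_inv]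
  have hF0 : 1 ≤ Nat.card F0 ^ 2 := Nat.one_le_pow _ _ Nat.card_pos
  have e6 : lam ^ (Nat.card F0 ^ 2 - 1) = 1 := by
    apply mul_right_cancel₀ hl0
    rw [← pow_succ, Nat.sub_add_cancel hF0, e5, one_mul]
  have e7 := hlam.dvd_of_pow_eq_one _ e6
  apply h2
  have e8 := num1 hp.out ha hk1 hF0 e7
  rw [hcard, ← pow_mul, mul_comm, pow_mul]
  exact e8

theorem hh_mul (s t : Fˣ) : hh s * hh t = hh (s * t) := by
  unfold hh
  rw [mk2_mul]
  apply mk2_congr
  · rw [Units.val_mul]; ring
  · ring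
  · ring
  · rw [mul_inv, Units.val_mul]; ring

end

theorem hh_pow {K : Type*} [Field K] (t : Kˣ) (n : ℕ) : hh t ^ n = hh (t ^ n) := by
  induction n with
  | zero =>
    rw [pow_zero, pow_zero]
    apply sl_ext
    · rfl
    · rfl
    · rfl
    · change (1 : K) = (((1 : Kˣ)⁻¹ : Kˣ) : K)
      rw [inv_one, Units.val_one]
  | succ n ih =>
    rw [pow_succ, pow_succ, ih]
    unfold hh
    rw [mk2_mul]
    apply mk2_congr
    · rw [Units.val_mul]; ring
    · ring
    · ring
    · rw [mul_inv, Units.val_mul]; ring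

/-- a companion matrix is conjugate to a diagonal one -/
theorem comp_diag {K : Type*} [Field K] (l : Kˣ) (hl : (l : K) - ((l⁻¹ : Kˣ) : K) ≠ 0) :
    ∃ P : SL2 K, mk2 0 (-1) 1 ((l : K) + ((l⁻¹ : Kˣ) : K)) (by ring) = P * hh l * P⁻¹ := by
  set m : K := ((l⁻¹ : Kˣ) : K) with hm
  have hlm : (l : K) * m = 1 := Units.mul_inv l
  have hd : ((l : K) - m)⁻¹ * ((l : K) - m) = 1 := inv_mul_cancel₀ hl
  set d : K := ((l : K) - m)⁻¹ with hd'
  refine ⟨mk2 d 1 (-(l : K) * d) (-m) (by linear_combination hd), ?_⟩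
  unfold hh
  rw [mk2_inv, mk2_mul, mk2_mul]
  apply mk2_congr
  · change 0 = (d * l + 1 * 0) * (-m) + (d * 0 + 1 * m) * (-(-(l : K) * d))
    ring
  · change -1 = (d * l + 1 * 0) * (-1) + (d * 0 + 1 * m) * d
    linear_combination hd
  · change 1 = (-(l : K) * d * l + (-m) * 0) * (-m) +
      (-(l : K) * d * 0 + (-m) * m) * (-(-(l : K) * d))
    linear_combination (-((l : K) * m)) * hd - hlm
  · change (l : K) + m = (-(l : K) * d * l + (-m) * 0) * (-1) +
      (-(l : K) * d * 0 + (-m) * m) * d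
    linear_combination (-((l : K) + m)) * hd

section

variable {F : Type*} [Field F] [Finite F]

/-- an element of order `p ^ a` with the right trace -/
theorem exists_elt {p r f a : ℕ} [hp : Fact p.Prime] [hr : Fact r.Prime] [CharP F r]
    (hq : Nat.card F = r ^ f) (hp2 : p ≠ 2) (hpr : p ≠ r) (ha : 1 ≤ a)
    (h1 : p ^ a ∣ Nat.card F ^ 2 - 1) :
    ∃ (lam : AlgebraicClosure F) (t : F) (M : SL2 F), IsPrimitiveRoot lam (p ^ a) ∧
      algebraMap F (AlgebraicClosure F) t = lam + lam⁻¹ ∧ M ^ p ^ a = 1 ∧ tr M = t := by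
  have hpF : (p : F) ≠ 0 := by
    intro h0
    have h2 : r ∣ p := (CharP.cast_eq_zero_iff F r p).1 h0
    exact hpr ((Nat.prime_dvd_prime_iff_eq hr.out hp.out).1 h2).symm
  have hne : NeZero ((p ^ a : ℕ) : F) := ⟨by
    rw [Nat.cast_pow]; exact pow_ne_zero _ hpF⟩
  obtain ⟨lam, hlam⟩ := HasEnoughRootsOfUnity.exists_primitiveRoot (AlgebraicClosure F) (p ^ a)
  have hK : CharP (AlgebraicClosure F) r :=
    charP_of_injective_algebraMap (algebraMap F (AlgebraicClosure F)).injective r
  have hl0 : lam ≠ 0 := hlam.ne_zero (pow_pos hp.out.pos a).ne'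
  have hq1 : 1 ≤ Nat.card F := Nat.card_pos
  have hfac : Nat.card F ^ 2 - 1 = (Nat.card F + 1) * (Nat.card F - 1) := by
    rw [pow_two]
    exact Nat.mul_self_sub_mul_self_eq (Nat.card F) 1 ▸ rfl
  have hcase : lam ^ Nat.card F = lam ∨ lam ^ Nat.card F = lam⁻¹ := by
    by_cases hd : p ∣ Nat.card F + 1
    · right
      have h3 : ¬ p ∣ Nat.card F - 1 := by
        intro h4
        have h5 : p ∣ 2 := by
          have := Nat.dvd_sub hd h4
          have e : Nat.card F + 1 - (Nat.card F - 1) = 2 := by omega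
          rwa [e] at this
        exact hp2 ((Nat.prime_dvd_prime_iff_eq hp.out Nat.prime_two).1 h5)
      have h4 : p ^ a ∣ Nat.card F + 1 := by
        rw [hfac] at h1
        exact (Nat.Coprime.pow_left a ((Nat.Prime.coprime_iff_not_dvd hp.out).2 h3)
          ).dvd_of_dvd_mul_right h1
      have h5 : lam ^ (Nat.card F + 1) = 1 := (hlam.pow_eq_one_iff_dvd _).2 h4
      rw [pow_succ] at h5
      exact eq_inv_of_mul_eq_one_left h5
    · left
      have h4 : p ^ a ∣ Nat.card F - 1 := by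
        rw [hfac] at h1
        exact (Nat.Coprime.pow_left a ((Nat.Prime.coprime_iff_not_dvd hp.out).2 hd)
          ).dvd_of_dvd_mul_left h1
      have h5 : lam ^ (Nat.card F - 1) = 1 := (hlam.pow_eq_one_iff_dvd _).2 h4
      have h6 : lam ^ Nat.card F = lam ^ (Nat.card F - 1) * lam := by
        rw [← pow_succ, Nat.sub_add_cancel hq1]
      rw [h6, h5, one_mul]
  have hfixed : (lam + lam⁻¹) ^ Nat.card F = lam + lam⁻¹ := by
    have h3 : (lam + lam⁻¹) ^ Nat.card F = lam ^ Nat.card F + (lam⁻¹) ^ Nat.card F := by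
      rw [hq, add_pow_char_pow]
    rw [h3, inv_pow]
    rcases hcase with h | h
    · rw [h]
    · rw [h, inv_inv, add_comm]
  obtain ⟨t, ht⟩ := fixed_mem (lam + lam⁻¹) hfixed
  refine ⟨lam, t, mk2 0 (-1) 1 t (by ring), hlam, ht, ?_, ?_⟩
  · -- map to the algebraic closure
    let j : SL2 F →* SL2 (AlgebraicClosure F) :=
      Matrix.SpecialLinearGroup.map (algebraMap F (AlgebraicClosure F))
    have hj : Function.Injective j := by
      intro A B hAB
      have h3 : ∀ i k, algebraMap F (AlgebraicClosure F) (A i k) =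
          algebraMap F (AlgebraicClosure F) (B i k) := by
        intro i k
        exact congrArg (fun C : SL2 (AlgebraicClosure F) => C i k) hAB
      apply Matrix.SpecialLinearGroup.ext
      intro i k
      exact (algebraMap F (AlgebraicClosure F)).injective (h3 i k)
    apply hj
    rw [map_pow, map_one]
    let l : (AlgebraicClosure F)ˣ := Units.mk0 lam hl0
    have hl : (l : AlgebraicClosure F) - ((l⁻¹ : (AlgebraicClosure F)ˣ) : AlgebraicClosure F)
        ≠ 0 := by
      intro h0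
      have h3 : lam - lam⁻¹ = 0 := by
        have h4 : ((l⁻¹ : (AlgebraicClosure F)ˣ) : AlgebraicClosure F) = lam⁻¹ :=
          Units.val_inv_eq_inv_val l
        rw [h4] at h0
        exact h0
      have h4 : lam ^ 2 = 1 := by
        have h5 : lam = lam⁻¹ := sub_eq_zero.1 h3
        rw [pow_two]
        nth_rewrite 2 [h5]
        exact mul_inv_cancel₀ hl0
      have h5 := hlam.dvd_of_pow_eq_one 2 h4
      have h6 : p ∣ 2 := (dvd_pow_self p (by omega)).trans h5
      exact hp2 ((Nat.prime_dvd_prime_iff_eq hp.out Nat.prime_two).1 h6)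
    obtain ⟨P, hP⟩ := comp_diag l hl
    have h3 : j (mk2 0 (-1) 1 t (by ring)) = P * hh l * P⁻¹ := by
      rw [← hP]
      apply sl_ext
      · change algebraMap F (AlgebraicClosure F) 0 = 0
        exact map_zero _
      · change algebraMap F (AlgebraicClosure F) (-1) = -1
        rw [map_neg, map_one]
      · change algebraMap F (AlgebraicClosure F) 1 = 1
        exact map_one _
      · change algebraMap F (AlgebraicClosure F) t = _
        rw [ht]
        have h4 : ((l⁻¹ : (AlgebraicClosure F)ˣ) : AlgebraicClosure F) = lam⁻¹ :=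
          Units.val_inv_eq_inv_val l
        change lam + lam⁻¹ = lam + ((l⁻¹ : (AlgebraicClosure F)ˣ) : AlgebraicClosure F)
        rw [h4]
    rw [h3, conj_pow, hh_pow]
    have h5 : l ^ p ^ a = 1 := by
      apply Units.ext
      rw [Units.val_pow_eq_pow_val]
      exact hlam.pow_eq_one
    rw [h5]
    have h6 : hh (1 : (AlgebraicClosure F)ˣ) = 1 := by
      have := hh_pow (1 : (AlgebraicClosure F)ˣ) 0
      rw [pow_zero, pow_zero] at this
      exact this.symm
    rw [h6, mul_one, mul_inv_cancel]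
  · change 0 + t = t
    rw [zero_add]

/-- Odd primes different from the characteristic. -/
theorem centBound_odd {p r f : ℕ} [hp : Fact p.Prime] [hr : Fact r.Prime] [CharP F r]
    (hq : Nat.card F = r ^ f) (hp2 : p ≠ 2) (hpr : p ≠ r) (hc : Subgroup.center (PS F) = ⊥)
    (hd : p ∣ Nat.card F ^ 2 - 1) : CentBound p (PS F) := by
  apply centBound_of_inner hc
  intro S α hα hfix
  have hq2 : Nat.card F ^ 2 - 1 ≠ 0 := by
    have h3 : 1 < Nat.card F := Finite.one_lt_card
    have h4 : 1 < Nat.card F ^ 2 := Nat.one_lt_pow (by norm_num) h3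
    omega
  let a := (Nat.card F ^ 2 - 1).factorization p
  have ha : 1 ≤ a := (hp.out.dvd_iff_one_le_factorization hq2).1 hd
  have h1 : p ^ a ∣ Nat.card F ^ 2 - 1 := Nat.ordProj_dvd _ p
  have h2 : ¬ p ^ (a + 1) ∣ Nat.card F ^ 2 - 1 := Nat.pow_succ_factorization_not_dvd hq2 hp.out
  obtain ⟨lam, t, M, hlam, ht, hM, htr⟩ := exists_elt (F := F) hq hp2 hpr ha h1
  -- a conjugate of `pr M` lies in `S`
  have hz : IsPGroup p (zpowers (pr M)) := by
    rintro ⟨y, hy⟩
    obtain ⟨n, rfl⟩ := mem_zpowers_iff.1 hy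
    refine ⟨a, Subtype.ext ?_⟩
    change (pr M ^ n) ^ p ^ a = 1
    rw [← zpow_natCast, ← _root_.zpow_mul, mul_comm, _root_.zpow_mul, zpow_natCast, ← map_pow, hM, map_one,
      _root_.one_zpow]
  obtain ⟨T, hT⟩ := hz.exists_le_sylow
  obtain ⟨g, hg⟩ := MulAction.exists_smul_eq (PS F) T S
  obtain ⟨N, rfl⟩ := pr_surj g
  have hmem : pr (N * M * N⁻¹) ∈ (S : Subgroup (PS F)) := by
    rw [← hg, map_mul, map_mul, map_inv]
    exact ⟨pr M, hT (mem_zpowers _), rfl⟩
  set B : SL2 F := N * M * N⁻¹ with hB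
  have hBp : B ^ p ^ a = 1 := by rw [hB, conj_pow, hM, mul_one, mul_inv_cancel]
  have hBt : tr B = t := by rw [hB, tr_conj, htr]
  obtain ⟨g', c, hgc⟩ := fld_spec α
  obtain ⟨N', rfl⟩ := pr_surj g'
  have h3 : pr (N' * EE c (fld α) B * N'⁻¹) = pr B := by
    have h4 := hfix _ hmem
    rw [hgc, MulAut.mul_apply, ee_pr, MulAut.conj_apply] at h4
    rw [map_mul, map_mul, map_inv]
    exact h4
  set B' : SL2 F := N' * EE c (fld α) B * N'⁻¹ with hB'
  have hBp' : B' ^ p ^ a = 1 := by
    rw [hB', conj_pow, ← map_pow, hBp, map_one, mul_one, mul_inv_cancel]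
  have hodd : Odd (p ^ a) := (hp.out.odd_of_ne_two hp2).pow
  obtain ⟨s, hs, hs'⟩ := pr_eq_iff.1 h3
  have htrace : fld α t = t := by
    have h4 : tr B' = fld α t := by rw [hB', tr_conj, tr_EE, hBt]
    rcases sq_one hs with h5 | h5
    · have h6 : B = B' := by
        apply Matrix.SpecialLinearGroup.ext
        intro i j
        rw [hs', h5, one_mul]
      rw [← h4, ← h6, hBt]
    · -- the sign is impossible
      have h6 : B = -B' := by
        apply Matrix.SpecialLinearGroup.ext
        intro i j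
        rw [hs' i j, h5, Matrix.SpecialLinearGroup.coe_neg, Matrix.neg_apply, neg_one_mul]
      have h7 : (1 : SL2 F) = -1 := by
        calc (1 : SL2 F) = B ^ p ^ a := hBp.symm
          _ = (-B') ^ p ^ a := congrArg (fun C : SL2 F => C ^ p ^ a) h6
          _ = -(B' ^ p ^ a) := hodd.neg_pow B'
          _ = -1 := by rw [hBp']
      have h8 : (1 : F) = -1 := by
        have h9 := congrArg (fun C : SL2 F => C 0 0) h7
        exact h9
      have h10 : tr B = -tr B' := by
        change B 0 0 + B 1 1 = -(B' 0 0 + B' 1 1)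
        rw [hs' 0 0, hs' 1 1, h5]
        ring
      rw [hBt, h4] at h10
      have h11 : fld α t = -t := by
        have h14 := congrArg Neg.neg h10
        rw [neg_neg] at h14
        exact h14.symm
      have h12 : t = -t := by
        have h13 : t = 1 * t := (one_mul t).symm
        calc t = 1 * t := h13
          _ = -1 * t := by rw [← h8]
          _ = -t := neg_one_mul t
      rw [h11, ← h12]
  have hφ : ∃ k, (fld α) ^ p ^ k = 1 := by
    obtain ⟨k, hk⟩ := hα
    exact ⟨k, by rw [← map_pow, hk, map_one]⟩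
  have hone : fld α = 1 := fix_trivial hq ha h2 lam hlam t ht (fld α) hφ htrace
  obtain ⟨k, hk⟩ := hα
  exact inner_of_odd hone ((hp.out.odd_of_ne_two hp2).pow) hk

end

end Pool.Agent.H55.NEU
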